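import Pool.Agent.Lib.MP_bae66e_nt.AP3.AbelInt
import Pool.Agent.Lib.MP_9cfc0a_nt.Mertens
import Pool.Agent.Lib.MP_bae66e_nt.Mertens

/-!
# Mertens' theorems on intervals
-/

set_option autoImplicit false

namespace Pool.Agent.Lib.MP_bae66e_nt.AP3

open Finset ArithmeticFunction

/-- the primes in `(y, z]` -/
def prI (y z : ℕ) : Finset ℕ := (Ioc y z).filter Nat.Prime

lemma mem_prI {y z p : ℕ} : p ∈ prI y z ↔ (y < p ∧ p ≤ z) ∧ p.Prime := by
  simp [prI]

lemma exists_mertens : ∃ C : ℝ, 0 ≤ C ∧ ∀ y z : ℕ, 1 ≤ y → y ≤ z →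
    |∑ p ∈ prI y z, Real.log p / p - (Real.log z - Real.log y)| ≤ C := by
  obtain ⟨C, hC0, hC⟩ := MC.exists_sum_log_div_lower
  refine ⟨C + (1 + (Real.log 4 + 4)), ?_, ?_⟩
  · have : 0 ≤ Real.log 4 := Real.log_nonneg (by norm_num)
    linarith
  · intro y z hy hyz
    have h0 := hC y z hy hyz
    have h1 := MC.mertens_lower y hy
    have h2 := MC.mertens_upper z (by omega)
    have hsplit : ∑ n ∈ Ioc 0 z, vonMangoldt n / n
        = ∑ n ∈ Ioc 0 y, vonMangoldt n / n + ∑ n ∈ Ioc y z, vonMangoldt n / n := by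
      rw [← Finset.sum_union]
      · congr 1
        ext n
        simp only [Finset.mem_union, Finset.mem_Ioc]
        omega
      · rw [Finset.disjoint_left]
        intro n hn hn'
        simp only [Finset.mem_Ioc] at hn hn'
        omega
    have h3 : ∑ p ∈ prI y z, Real.log p / p ≤ ∑ n ∈ Ioc y z, vonMangoldt n / n := by
      have e : ∑ p ∈ prI y z, Real.log p / p = ∑ p ∈ prI y z, vonMangoldt p / p := by
        refine Finset.sum_congr rfl fun p hp => ?_
        rw [vonMangoldt_apply_prime (mem_prI.mp hp).2]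
      rw [e]
      apply sum_le_sum_of_subset_of_nonneg
      · exact filter_subset _ _
      · intro n _ _
        have : 0 ≤ vonMangoldt n := vonMangoldt_nonneg
        positivity
    have h4 : 0 ≤ Real.log 4 := Real.log_nonneg (by norm_num)
    rw [abs_le]
    unfold prI at *
    constructor <;> linarith

/-- cumulative version with real exponents -/
lemma exists_cum_mertens : ∃ C : ℝ, 0 ≤ C ∧ ∀ y z : ℕ, 1 ≤ y → y ≤ z →
    ∀ t ∈ Set.Icc (Real.log y) (Real.log z),
    |cum (prI y z) (fun p => Real.log p) (fun p => Real.log p / p) t - 1 * (t - Real.log y)|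
      ≤ C := by
  obtain ⟨C, hC0, hC⟩ := exists_mertens
  refine ⟨C + 1, by linarith, ?_⟩
  intro y z hy hyz t ht
  set n := ⌊Real.exp t⌋₊ with hn
  have hy0 : (0 : ℝ) < y := by exact_mod_cast hy
  have hz0 : (0 : ℝ) < z := by exact_mod_cast (lt_of_lt_of_le hy hyz)
  have hyt : (y : ℝ) ≤ Real.exp t := by
    rw [← Real.log_le_iff_le_exp hy0]; exact ht.1
  have htz : Real.exp t ≤ z := by
    rw [← Real.le_log_iff_exp_le hz0]; exact ht.2
  have hyn : y ≤ n := Nat.le_floor hyt
  have hnz : n ≤ z := by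
    have : (n : ℝ) ≤ z := (Nat.floor_le (Real.exp_pos t).le).trans htz
    exact_mod_cast this
  have hcum : cum (prI y z) (fun p => Real.log p) (fun p => Real.log p / p) t
      = ∑ p ∈ prI y n, Real.log p / p := by
    unfold cum
    apply sum_congr _ fun _ _ => rfl
    ext p
    simp only [mem_filter, mem_prI]
    constructor
    · rintro ⟨⟨⟨h1, h2⟩, h3⟩, h4⟩
      refine ⟨⟨h1, ?_⟩, h3⟩
      apply Nat.le_floor
      rwa [← Real.log_le_iff_le_exp (by exact_mod_cast h3.pos)]
    · rintro ⟨⟨h1, h2⟩, h3⟩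
      refine ⟨⟨⟨h1, h2.trans hnz⟩, h3⟩, ?_⟩
      rw [Real.log_le_iff_le_exp (by exact_mod_cast h3.pos)]
      exact (by exact_mod_cast h2 : (p : ℝ) ≤ n).trans (Nat.floor_le (Real.exp_pos t).le)
  rw [hcum]
  have h1 := hC y n hy hyn
  have hn0 : (0 : ℝ) < n := by exact_mod_cast (lt_of_lt_of_le hy hyn)
  have h2 : Real.log n ≤ t := by
    rw [Real.log_le_iff_le_exp hn0]; exact Nat.floor_le (Real.exp_pos t).le
  have h3 : t - 1 ≤ Real.log n := by
    have h4 : Real.exp t ≤ n + 1 := (Nat.lt_floor_add_one _).le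
    have h5 : Real.exp t ≤ 2 * n := by
      have : (1 : ℝ) ≤ n := by exact_mod_cast (hy.trans hyn)
      linarith
    have h6 : t ≤ Real.log (2 * n) := (Real.le_log_iff_exp_le (by positivity)).mpr h5
    rw [Real.log_mul (by norm_num) hn0.ne'] at h6
    have h7 := Real.log_two_lt_d9
    linarith
  rw [abs_le] at h1 ⊢
  constructor <;> linarith [h1.1, h1.2]

lemma exists_sum_inv_le : ∃ C : ℝ, 0 ≤ C ∧ ∀ y z : ℕ, 2 ≤ y → y ≤ z →
    |∑ p ∈ prI y z, 1 / (p : ℝ) - Real.log (Real.log z / Real.log y)| ≤ C / Real.log y := by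
  obtain ⟨C, hC0, hC⟩ := exists_cum_mertens
  refine ⟨C, hC0, ?_⟩
  intro y z hy hyz
  have hly : 0 < Real.log y := Real.log_pos (by exact_mod_cast hy)
  have hy0 : (0 : ℝ) < y := by positivity
  have hlyz : Real.log y ≤ Real.log z := Real.log_le_log hy0 (by exact_mod_cast hyz)
  have h := abel_anti (prI y z) (fun p => Real.log p) (fun p => Real.log p / p)
    (Real.log y) (Real.log z) 1 C hlyz
    (fun p hp => by
      have := mem_prI.mp hp
      have hp0 : (0 : ℝ) < p := by exact_mod_cast this.2.pos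
      exact ⟨Real.log_le_log hy0 (by exact_mod_cast this.1.1.le),
        Real.log_le_log hp0 (by exact_mod_cast this.1.2)⟩)
    (fun t => t⁻¹) (fun t => -(t ^ 2)⁻¹)
    (fun t ht => hasDerivAt_inv (by have := ht.1; linarith))
    (by
      apply ContinuousOn.neg
      apply ContinuousOn.inv₀ (by fun_prop)
      intro t ht
      have h0 : 0 < t := lt_of_lt_of_le hly ht.1
      exact (pow_pos h0 2).ne')
    (fun t _ => by
      have : 0 ≤ (t ^ 2)⁻¹ := by positivity
      linarith)
    (by have : 0 < Real.log z := by linarith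
        positivity)
    (hC y z (by omega) hyz)
  have e1 : ∑ i ∈ prI y z, Real.log i / i * (Real.log i)⁻¹ = ∑ p ∈ prI y z, 1 / (p : ℝ) := by
    apply sum_congr rfl
    intro p hp
    have := (mem_prI.mp hp).2
    have h1 : Real.log p ≠ 0 := (Real.log_pos (by exact_mod_cast this.one_lt)).ne'
    field_simp
  have e2 : ∫ t in Real.log y..Real.log z, t⁻¹ = Real.log (Real.log z / Real.log y) :=
    integral_inv_of_pos hly (by linarith)
  rw [e1, e2, one_mul] at h
  rw [div_eq_mul_inv]
  exact h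

lemma exists_L0 : ∃ L0 : ℝ, 1 ≤ L0 ∧
    ∀ z : ℕ, ∑ p ∈ (Ioc (Nat.sqrt z) z).filter Nat.Prime, 2 / (p : ℝ) ≤ L0 := by
  obtain ⟨C, hC0, hC⟩ := exists_sum_inv_le
  refine ⟨2 * (Real.log 4 + C / Real.log 2) + 10, ?_, ?_⟩
  · have h1 : 0 ≤ Real.log 4 := Real.log_nonneg (by norm_num)
    have h2 : 0 ≤ C / Real.log 2 := by
      have := Real.log_pos (by norm_num : (1 : ℝ) < 2)
      positivity
    linarith
  · intro z
    have h1 : 0 ≤ Real.log 4 := Real.log_nonneg (by norm_num)
    have hl2 := Real.log_pos (by norm_num : (1 : ℝ) < 2)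
    have h2 : 0 ≤ C / Real.log 2 := by positivity
    rcases lt_or_ge z 16 with hz | hz
    · calc ∑ p ∈ (Ioc (Nat.sqrt z) z).filter Nat.Prime, 2 / (p : ℝ)
          ≤ ∑ p ∈ (Ioc 0 15).filter Nat.Prime, 2 / (p : ℝ) := by
            apply sum_le_sum_of_subset_of_nonneg
            · intro p hp
              simp only [mem_filter, mem_Ioc] at hp ⊢
              exact ⟨⟨hp.2.pos, by omega⟩, hp.2⟩
            · intro p _ _; positivity
        _ ≤ 10 := by
            have : (Ioc 0 15).filter Nat.Prime = {2, 3, 5, 7, 11, 13} := by decide +kernel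
            rw [this]
            norm_num
        _ ≤ _ := by linarith
    · set w := Nat.sqrt z with hw
      have hw4 : 4 ≤ w := by rw [hw, Nat.le_sqrt]; omega
      have hwz : w ≤ z := Nat.sqrt_le_self z
      have h3 := hC w z (by omega) hwz
      have h4 : ∑ p ∈ (Ioc w z).filter Nat.Prime, 2 / (p : ℝ)
          = 2 * ∑ p ∈ prI w z, 1 / (p : ℝ) := by
        rw [mul_sum]
        apply sum_congr rfl
        intro p _; ring
      rw [h4]
      have hlw : Real.log 2 ≤ Real.log w :=
        Real.log_le_log (by norm_num) (by exact_mod_cast (by omega : 2 ≤ w))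
      have h5 : Real.log z ≤ 4 * Real.log w := by
        have h6 : z < (w + 1) * (w + 1) := Nat.lt_succ_sqrt z
        have h7 : z ≤ w ^ 4 := by
          have h8 : (w + 1) * (w + 1) ≤ (2 * w) * (2 * w) := by nlinarith
          have h9 : (2 * w) * (2 * w) ≤ (w * w) * (w * w) := by nlinarith
          have h10 : w ^ 4 = (w * w) * (w * w) := by ring
          omega
        calc Real.log z ≤ Real.log ((w : ℝ) ^ 4) := by
              apply Real.log_le_log (by exact_mod_cast (by omega : 0 < z))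
              exact_mod_cast h7
          _ = 4 * Real.log w := by rw [Real.log_pow]; norm_num
      have hlw0 : 0 < Real.log w := by linarith
      have hlz0 : 0 < Real.log z := lt_of_lt_of_le hlw0
        (Real.log_le_log (by positivity) (by exact_mod_cast hwz))
      have h8 : Real.log (Real.log z / Real.log w) ≤ Real.log 4 := by
        apply Real.log_le_log (by positivity)
        rw [div_le_iff₀ hlw0]
        exact h5
      have h9 : C / Real.log w ≤ C / Real.log 2 :=
        div_le_div_of_nonneg_left hC0 hl2 hlw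
      have := (abs_le.mp h3).2
      linarith

/-- the Mertens product -/
noncomputable def KT (T : ℕ) : ℝ := ∏ p ∈ prI 0 T, (1 - 1 / (p : ℝ))

lemma one_sub_inv_pos {p : ℕ} (hp : p.Prime) : 0 < 1 - 1 / (p : ℝ) := by
  have h : (2 : ℝ) ≤ p := by exact_mod_cast hp.two_le
  have : 1 / (p : ℝ) ≤ 1 / 2 := div_le_div_of_nonneg_left (by norm_num) (by norm_num) h
  linarith

lemma KT_pos (T : ℕ) : 0 < KT T :=
  prod_pos fun _ hp => one_sub_inv_pos (mem_prI.mp hp).2

lemma KT_le (T : ℕ) (hT : 1 ≤ T) : KT T ≤ 1 / Real.log (T + 1) := by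
  have h := prod_one_sub_le T hT
  have : prms T = prI 0 T := by
    ext p
    rw [mem_prms, mem_prI]
    constructor
    · rintro ⟨h1, h2⟩; exact ⟨⟨h2.pos, h1⟩, h2⟩
    · rintro ⟨⟨_, h1⟩, h2⟩; exact ⟨h1, h2⟩
  rw [this] at h
  exact h

lemma exists_KT_ge : ∃ c : ℝ, 0 < c ∧ ∀ T : ℕ, 2 ≤ T → c / Real.log T ≤ KT T := by
  obtain ⟨C, hC0, hC⟩ := exists_sum_inv_le
  have hl2 := Real.log_pos (by norm_num : (1 : ℝ) < 2)
  refine ⟨(1 / 2) * Real.exp (-(C / Real.log 2) - 2) * Real.log 2, by positivity, ?_⟩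
  intro T hT
  have hlT : 0 < Real.log T := Real.log_pos (by exact_mod_cast hT)
  -- the product over p > 2
  have hsplit : KT T = (1 / 2) * ∏ p ∈ prI 2 T, (1 - 1 / (p : ℝ)) := by
    unfold KT
    have : prI 0 T = insert 2 (prI 2 T) := by
      ext p
      rw [mem_insert, mem_prI, mem_prI]
      constructor
      · rintro ⟨⟨_, h1⟩, h2⟩
        rcases eq_or_lt_of_le h2.two_le with h | h
        · exact Or.inl h.symm
        · exact Or.inr ⟨⟨h, h1⟩, h2⟩
      · rintro (rfl | ⟨⟨h1, h2⟩, h3⟩)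
        · exact ⟨⟨by norm_num, hT⟩, Nat.prime_two⟩
        · exact ⟨⟨by omega, h2⟩, h3⟩
    rw [this, prod_insert]
    · norm_num
    · rw [mem_prI]; omega
  rw [hsplit]
  have h1 : Real.exp (-(∑ p ∈ prI 2 T, (1 / (p : ℝ) + 1 / (p : ℝ) ^ 2)))
      ≤ ∏ p ∈ prI 2 T, (1 - 1 / (p : ℝ)) := by
    rw [← sum_neg_distrib, Real.exp_sum]
    apply prod_le_prod
    · intro p _; exact (Real.exp_pos _).le
    · intro p hp
      have hp' := mem_prI.mp hp
      have hp3 : (3 : ℝ) ≤ p := by exact_mod_cast hp'.1.1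
      set x : ℝ := 1 / p with hx
      have hx0 : 0 < x := by positivity
      have hx3 : x ≤ 1 / 3 := by
        rw [hx]; exact div_le_div_of_nonneg_left (by norm_num) (by norm_num) hp3
      have e : 1 / (p : ℝ) ^ 2 = x ^ 2 := by rw [hx]; ring
      rw [e]
      have h2 : Real.exp (-(x + x ^ 2)) ≤ 1 / (1 + (x + x ^ 2) + (x + x ^ 2) ^ 2 / 2) := by
        rw [Real.exp_neg, inv_eq_one_div]
        apply one_div_le_one_div_of_le (by positivity)
        exact Real.quadratic_le_exp_of_nonneg (by positivity)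
      refine h2.trans ?_
      rw [div_le_iff₀ (by positivity)]
      have h3 : (1 - x) * (1 + (x + x ^ 2) + (x + x ^ 2) ^ 2 / 2)
          = 1 + x ^ 2 * ((1 - x) * (1 + x) ^ 2 / 2 - x) := by ring
      rw [h3]
      have h4 : 0 ≤ (1 - x) * (1 + x) ^ 2 / 2 - x := by
        have h5 : 0 ≤ (1 - x) * ((1 + x) ^ 2 - 1) := by
          apply mul_nonneg (by linarith)
          nlinarith
        nlinarith
      have h6 : 0 ≤ x ^ 2 * ((1 - x) * (1 + x) ^ 2 / 2 - x) := mul_nonneg (by positivity) h4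
      linarith
  have h2 : ∑ p ∈ prI 2 T, (1 / (p : ℝ) + 1 / (p : ℝ) ^ 2)
      ≤ Real.log (Real.log T / Real.log 2) + C / Real.log 2 + 2 := by
    rw [sum_add_distrib]
    have h3 := (abs_le.mp (hC 2 T le_rfl hT)).2
    push_cast at h3
    have h4 : ∑ p ∈ prI 2 T, 1 / (p : ℝ) ^ 2 ≤ 1 := by
      refine le_trans ?_ (sum_prms_inv_sq_le T)
      apply sum_le_sum_of_subset_of_nonneg
      · intro p hp
        have := mem_prI.mp hp
        rw [mem_prms]; exact ⟨this.1.2, this.2⟩
      · intro p _ _; positivity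
    linarith
  calc (1 / 2) * Real.exp (-(C / Real.log 2) - 2) * Real.log 2 / Real.log T
      = (1 / 2) * (Real.exp (-(C / Real.log 2) - 2) * Real.exp (-Real.log (Real.log T / Real.log 2))) := by
        rw [Real.exp_neg (Real.log _), Real.exp_log (by positivity)]
        field_simp
    _ = (1 / 2) * Real.exp (-(Real.log (Real.log T / Real.log 2) + C / Real.log 2 + 2)) := by
        rw [← Real.exp_add]; ring_nf
    _ ≤ (1 / 2) * Real.exp (-(∑ p ∈ prI 2 T, (1 / (p : ℝ) + 1 / (p : ℝ) ^ 2))) := by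
        apply mul_le_mul_of_nonneg_left _ (by norm_num)
        apply Real.exp_le_exp.mpr
        linarith
    _ ≤ _ := mul_le_mul_of_nonneg_left h1 (by norm_num)

end Pool.Agent.Lib.MP_bae66e_nt.AP3
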