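import Pool.Agent.Lib.MP_bae66e_nt.AP3.FLMain
import Pool.Agent.Lib.MP_bae66e_nt.AP3.Mert

/-!
# The fundamental lemma, final form
-/

set_option autoImplicit false

namespace Pool.Agent.Lib.MP_bae66e_nt.AP3

open Finset

lemma poly_le_two_pow (J : ℕ) (hJ : 11 ≤ J) : 3 * (J + 1) ^ 2 ≤ 2 ^ (J - 1) := by
  induction J, hJ using Nat.le_induction with
  | base => norm_num
  | succ n hn ih =>
    have h1 : 2 ^ (n + 1 - 1) = 2 * 2 ^ (n - 1) := by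
      have : n + 1 - 1 = (n - 1) + 1 := by omega
      rw [this, pow_succ]; ring
    rw [h1]
    nlinarith

/-- for large `T` the additive error is at most `T ^ (2b+5)` -/
lemma exists_J (b : ℕ) : ∃ T0 : ℕ, 2 ≤ T0 ∧ ∀ T : ℕ, T0 ≤ T →
    ∃ J : ℕ, T < 2 ^ (2 ^ J) ∧ 3 ^ ((J + 1) * (b + J + 1)) ≤ T := by
  refine ⟨2 ^ (2 ^ (4 * b + 20)), ?_, ?_⟩
  · calc 2 = 2 ^ 1 := by norm_num
      _ ≤ 2 ^ (2 ^ (4 * b + 20)) := Nat.pow_le_pow_right (by norm_num) Nat.one_le_two_pow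
  · intro T hT
    have hT0 : T ≠ 0 := by
      have : 0 < 2 ^ (2 ^ (4 * b + 20)) := by positivity
      omega
    set k := Nat.log 2 T with hk
    have hk1 : 2 ^ k ≤ T := Nat.pow_log_le_self 2 hT0
    have hk2 : T < 2 ^ (k + 1) := Nat.lt_pow_succ_log_self (by norm_num) T
    have hk3 : 2 ^ (4 * b + 20) ≤ k := by
      rw [hk]
      exact (Nat.le_log_iff_pow_le (by norm_num) hT0).mpr hT
    have hk0 : k ≠ 0 := by
      have : 0 < 2 ^ (4 * b + 20) := by positivity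
      omega
    set i := Nat.log 2 k with hi
    have hi1 : 2 ^ i ≤ k := Nat.pow_log_le_self 2 hk0
    have hi2 : k < 2 ^ (i + 1) := Nat.lt_pow_succ_log_self (by norm_num) k
    have hi3 : 4 * b + 20 ≤ i := by
      rw [hi]
      exact (Nat.le_log_iff_pow_le (by norm_num) hk0).mpr hk3
    refine ⟨i + 1, ?_, ?_⟩
    · calc T < 2 ^ (k + 1) := hk2
        _ ≤ 2 ^ (2 ^ (i + 1)) := Nat.pow_le_pow_right (by norm_num) hi2
    · have h1 : 2 * ((i + 1 + 1) * (b + (i + 1) + 1)) ≤ 3 * (i + 1 + 1) ^ 2 := by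
        nlinarith
      have h2 := poly_le_two_pow (i + 1) (by omega)
      have h3 : i + 1 - 1 = i := by omega
      rw [h3] at h2
      calc 3 ^ ((i + 1 + 1) * (b + (i + 1) + 1))
          ≤ (2 ^ 2) ^ ((i + 1 + 1) * (b + (i + 1) + 1)) := Nat.pow_le_pow_left (by norm_num) _
        _ = 2 ^ (2 * ((i + 1 + 1) * (b + (i + 1) + 1))) := by rw [← pow_mul]
        _ ≤ 2 ^ k := Nat.pow_le_pow_right (by norm_num) (by omega)
        _ ≤ T := hk1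

theorem exists_fl : ∃ L0 : ℝ, 1 ≤ L0 ∧ ∃ b0 : ℕ, ∀ b : ℕ, b0 ≤ b → ∃ T0 : ℕ, 2 ≤ T0 ∧
    ∀ T : ℕ, T0 ≤ T → ∀ (Om : ℕ → Finset ℕ) (A B : ℕ), A ≤ B → (∀ ℓ, xb Om ℓ ≤ 1 / 2) →
    (∀ ℓ, #(Om ℓ) ≤ 2) → ∀ R : Finset ℕ, (∀ ℓ ∈ R, ℓ.Prime ∧ ℓ ≤ T) →
    (∀ ℓ ∈ R, ∀ c ∈ Om ℓ, c < ℓ) →
    FLP Om A B R (flEta L0 b) ((T : ℝ) ^ (2 * b + 5)) := by
  obtain ⟨L0, hL01, hL0⟩ := exists_L0
  refine ⟨L0, hL01, ⌈(Real.exp (3 * L0) + 2 * Real.exp (2 * L0)) * L0⌉₊, ?_⟩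
  intro b hb
  obtain ⟨T0, hT02, hT0⟩ := exists_J b
  refine ⟨T0, hT02, ?_⟩
  intro T hT Om A B hAB hx hcard R hR hOm
  obtain ⟨J, hJ1, hJ2⟩ := hT0 T hT
  have h := fl_main L0 hL01 hL0 _ (by
    have := Nat.le_ceil ((Real.exp (3 * L0) + 2 * Real.exp (2 * L0)) * L0)
    linarith) J b T hb (by omega) hJ1 Om A B hAB hx hcard R hR hOm
  refine h.mono hAB hx le_rfl ?_
  have h2 : ((3 : ℝ)) ^ ((J + 1) * (b + J + 1)) ≤ T := by exact_mod_cast hJ2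
  calc (3 : ℝ) ^ ((J + 1) * (b + J + 1)) * (T : ℝ) ^ (2 * b + 4)
      ≤ T * (T : ℝ) ^ (2 * b + 4) := mul_le_mul_of_nonneg_right h2 (by positivity)
    _ = (T : ℝ) ^ (2 * b + 5) := by ring

end Pool.Agent.Lib.MP_bae66e_nt.AP3
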