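import Mathlib

/-!
# Partial summation against a cumulative function that is close to linear
-/

set_option autoImplicit false

namespace Pool.Agent.Lib.MP_bae66e_nt.AP3

open Finset MeasureTheory intervalIntegral

/-- cumulative sum -/
noncomputable def cum {ι : Type*} (s : Finset ι) (x h : ι → ℝ) (t : ℝ) : ℝ :=
  ∑ i ∈ s with x i ≤ t, h i

lemma cum_eq {ι : Type*} (s : Finset ι) (x h : ι → ℝ) (t : ℝ) :
    cum s x h t = ∑ i ∈ s, if x i ≤ t then h i else 0 := by
  rw [cum, Finset.sum_filter]

lemma integral_step (a b c : ℝ) (hac : a ≤ c) (hcb : c ≤ b) (g : ℝ → ℝ)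
    (hg : ContinuousOn g (Set.Icc a b)) :
    IntervalIntegrable (fun t => if c ≤ t then g t else 0) volume a b ∧
    ∫ t in a..b, (if c ≤ t then g t else 0) = ∫ t in c..b, g t := by
  have hab : a ≤ b := hac.trans hcb
  have hgi : IntervalIntegrable g volume a b := by
    apply ContinuousOn.intervalIntegrable
    rwa [Set.uIcc_of_le hab]
  have h1 : (fun t => if c ≤ t then g t else 0) = Set.indicator (Set.Ici c) g := by
    funext t
    simp [Set.indicator_apply]
  have hint : IntervalIntegrable (fun t => if c ≤ t then g t else 0) volume a b := by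
    rw [h1, intervalIntegrable_iff]
    rw [intervalIntegrable_iff] at hgi
    exact hgi.indicator measurableSet_Ici
  refine ⟨hint, ?_⟩
  have hi1 : IntervalIntegrable (fun t => if c ≤ t then g t else 0) volume a c :=
    hint.mono_set (by rw [Set.uIcc_of_le hac, Set.uIcc_of_le hab]; exact Set.Icc_subset_Icc le_rfl hcb)
  have hi2 : IntervalIntegrable (fun t => if c ≤ t then g t else 0) volume c b :=
    hint.mono_set (by rw [Set.uIcc_of_le hcb, Set.uIcc_of_le hab]; exact Set.Icc_subset_Icc hac le_rfl)
  rw [← integral_add_adjacent_intervals hi1 hi2]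
  have e1 : ∫ t in a..c, (if c ≤ t then g t else 0) = 0 := by
    rw [integral_of_le hac, integral_Ioc_eq_integral_Ioo]
    rw [setIntegral_congr_fun measurableSet_Ioo (g := fun _ => (0 : ℝ))]
    · simp
    · intro t ht
      simp only [if_neg (not_le.mpr ht.2)]
  have e2 : ∫ t in c..b, (if c ≤ t then g t else 0) = ∫ t in c..b, g t := by
    apply integral_congr
    intro t ht
    rw [Set.uIcc_of_le hcb] at ht
    simp only [if_pos ht.1]
  rw [e1, e2, zero_add]

/-- Abel summation, exact form. -/
theorem abel_eq {ι : Type*} (s : Finset ι) (x h : ι → ℝ) (a b : ℝ) (hab : a ≤ b)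
    (hx : ∀ i ∈ s, a ≤ x i ∧ x i ≤ b) (G G' : ℝ → ℝ)
    (hG : ∀ t ∈ Set.Icc a b, HasDerivAt G (G' t) t) (hG' : ContinuousOn G' (Set.Icc a b)) :
    IntervalIntegrable (fun t => G' t * cum s x h t) volume a b ∧
    ∑ i ∈ s, h i * G (x i) = cum s x h b * G b - ∫ t in a..b, G' t * cum s x h t := by
  have hG'i : IntervalIntegrable G' volume a b := by
    apply ContinuousOn.intervalIntegrable
    rwa [Set.uIcc_of_le hab]
  have hcumint : IntervalIntegrable (fun t => G' t * cum s x h t) volume a b := by
    have : (fun t => G' t * cum s x h t) =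
        fun t => ∑ i ∈ s, h i * (if x i ≤ t then G' t else 0) := by
      funext t
      rw [cum_eq, Finset.mul_sum]
      apply Finset.sum_congr rfl
      intro i _
      split_ifs <;> ring
    rw [this]
    have h2 := IntervalIntegrable.sum (μ := volume) (a := a) (b := b) s
      (f := fun i t => h i * (if x i ≤ t then G' t else 0))
      (fun i hi => ((integral_step a b (x i) (hx i hi).1 (hx i hi).2 G' hG').1.const_mul (h i)))
    have e : (∑ i ∈ s, fun t => h i * (if x i ≤ t then G' t else 0)) =
        fun t => ∑ i ∈ s, h i * (if x i ≤ t then G' t else 0) := by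
      funext t
      simp only [Finset.sum_apply]
    rw [← e]
    exact h2
  refine ⟨hcumint, ?_⟩
  have hi : ∀ i ∈ s, h i * G (x i) = h i * G b
      - ∫ t in a..b, h i * (if x i ≤ t then G' t else 0) := by
    intro i hi
    rw [intervalIntegral.integral_const_mul,
      (integral_step a b (x i) (hx i hi).1 (hx i hi).2 G' hG').2]
    have h3 : ∫ t in x i..b, G' t = G b - G (x i) := by
      apply integral_eq_sub_of_hasDerivAt
      · intro t ht
        rw [Set.uIcc_of_le (hx i hi).2] at ht
        exact hG t ⟨(hx i hi).1.trans ht.1, ht.2⟩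
      · apply ContinuousOn.intervalIntegrable
        rw [Set.uIcc_of_le (hx i hi).2]
        exact hG'.mono (Set.Icc_subset_Icc (hx i hi).1 le_rfl)
    rw [h3]; ring
  rw [Finset.sum_congr rfl hi, Finset.sum_sub_distrib, ← Finset.sum_mul]
  congr 1
  · congr 1
    rw [cum, Finset.filter_true_of_mem]
    intro i hi; exact (hx i hi).2
  · rw [← intervalIntegral.integral_finsetSum]
    · apply integral_congr
      intro t _
      simp only
      rw [cum_eq, Finset.mul_sum]
      apply Finset.sum_congr rfl
      intro i _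
      split_ifs <;> ring
    · intro i hi
      exact (integral_step a b (x i) (hx i hi).1 (hx i hi).2 G' hG').1.const_mul (h i)

/-- Abel summation with an error term. -/
theorem abel_int {ι : Type*} (s : Finset ι) (x h : ι → ℝ) (a b K E : ℝ) (hab : a ≤ b)
    (hx : ∀ i ∈ s, a ≤ x i ∧ x i ≤ b) (G G' : ℝ → ℝ)
    (hG : ∀ t ∈ Set.Icc a b, HasDerivAt G (G' t) t) (hG' : ContinuousOn G' (Set.Icc a b))
    (hE : ∀ t ∈ Set.Icc a b, |cum s x h t - K * (t - a)| ≤ E) :
    |∑ i ∈ s, h i * G (x i) - K * ∫ t in a..b, G t| ≤ E * (|G b| + ∫ t in a..b, |G' t|) := by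
  have hG'i : IntervalIntegrable G' volume a b := by
    apply ContinuousOn.intervalIntegrable
    rwa [Set.uIcc_of_le hab]
  obtain ⟨hcumint, e1⟩ := abel_eq s x h a b hab hx G G' hG hG'
  have e2 : ∫ t in a..b, G t = (b - a) * G b - ∫ t in a..b, G' t * (t - a) := by
    have h4 := integral_mul_deriv_eq_deriv_mul (a := a) (b := b) (u := fun t => t - a) (v := G)
      (u' := fun _ => 1) (v' := G')
      (fun t _ => by simpa using (hasDerivAt_id t).sub_const a)
      (fun t ht => by rw [Set.uIcc_of_le hab] at ht; exact hG t ht)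
      (by simp) hG'i
    have h5 : ∫ t in a..b, (t - a) * G' t = ∫ t in a..b, G' t * (t - a) := by
      apply integral_congr
      intro t _
      simp only; ring
    rw [h5] at h4
    rw [h4]
    simp
  have hlin : IntervalIntegrable (fun t => G' t * (K * (t - a))) volume a b := by
    apply ContinuousOn.intervalIntegrable
    rw [Set.uIcc_of_le hab]
    exact hG'.mul (by fun_prop)
  have e3 : ∑ i ∈ s, h i * G (x i) - K * ∫ t in a..b, G t
      = (cum s x h b - K * (b - a)) * G b
        - ∫ t in a..b, G' t * (cum s x h t - K * (t - a)) := by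
    rw [e1, e2]
    have : ∫ t in a..b, G' t * (cum s x h t - K * (t - a))
        = (∫ t in a..b, G' t * cum s x h t) - ∫ t in a..b, G' t * (K * (t - a)) := by
      rw [← intervalIntegral.integral_sub hcumint hlin]
      apply integral_congr
      intro t _
      simp only; ring
    rw [this]
    have : ∫ t in a..b, G' t * (K * (t - a)) = K * ∫ t in a..b, G' t * (t - a) := by
      rw [← intervalIntegral.integral_const_mul]
      apply integral_congr
      intro t _
      simp only; ring
    rw [this]; ring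
  rw [e3]
  have hEb := hE b ⟨hab, le_rfl⟩
  have hint2 : |∫ t in a..b, G' t * (cum s x h t - K * (t - a))| ≤ E * ∫ t in a..b, |G' t| := by
    rw [← intervalIntegral.integral_const_mul]
    have := norm_integral_le_of_norm_le (μ := volume) (a := a) (b := b)
      (f := fun t => G' t * (cum s x h t - K * (t - a))) (g := fun t => E * |G' t|) hab ?_ ?_
    · simpa [Real.norm_eq_abs] using this
    · filter_upwards with t ht
      rw [Real.norm_eq_abs, abs_mul, mul_comm]
      exact mul_le_mul_of_nonneg_right (hE t ⟨ht.1.le, ht.2⟩) (abs_nonneg _)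
    · exact (hG'i.abs).const_mul E
  calc |(cum s x h b - K * (b - a)) * G b - ∫ t in a..b, G' t * (cum s x h t - K * (t - a))|
      ≤ |(cum s x h b - K * (b - a)) * G b|
        + |∫ t in a..b, G' t * (cum s x h t - K * (t - a))| := abs_sub _ _
    _ ≤ E * |G b| + E * ∫ t in a..b, |G' t| := by
        rw [abs_mul]
        exact add_le_add (mul_le_mul_of_nonneg_right hEb (abs_nonneg _)) hint2
    _ = _ := by ring

/-- version for nonincreasing nonnegative `G` -/
theorem abel_anti {ι : Type*} (s : Finset ι) (x h : ι → ℝ) (a b K E : ℝ) (hab : a ≤ b)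
    (hx : ∀ i ∈ s, a ≤ x i ∧ x i ≤ b) (G G' : ℝ → ℝ)
    (hG : ∀ t ∈ Set.Icc a b, HasDerivAt G (G' t) t) (hG' : ContinuousOn G' (Set.Icc a b))
    (hneg : ∀ t ∈ Set.Icc a b, G' t ≤ 0) (hGb : 0 ≤ G b)
    (hE : ∀ t ∈ Set.Icc a b, |cum s x h t - K * (t - a)| ≤ E) :
    |∑ i ∈ s, h i * G (x i) - K * ∫ t in a..b, G t| ≤ E * G a := by
  have h1 := abel_int s x h a b K E hab hx G G' hG hG' hE
  have hG'i : IntervalIntegrable G' volume a b := by
    apply ContinuousOn.intervalIntegrable
    rwa [Set.uIcc_of_le hab]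
  have h2 : ∫ t in a..b, |G' t| = G a - G b := by
    have : ∫ t in a..b, |G' t| = ∫ t in a..b, - G' t := by
      apply integral_congr
      intro t ht
      rw [Set.uIcc_of_le hab] at ht
      simp only
      exact abs_of_nonpos (hneg t ht)
    rw [this, intervalIntegral.integral_neg, integral_eq_sub_of_hasDerivAt
      (fun t ht => hG t (by rwa [Set.uIcc_of_le hab] at ht)) hG'i]
    ring
  rw [h2, abs_of_nonneg hGb] at h1
  have : G b + (G a - G b) = G a := by ring
  rwa [this] at h1

/-- version for nondecreasing nonnegative `G` -/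
theorem abel_mono {ι : Type*} (s : Finset ι) (x h : ι → ℝ) (a b K E : ℝ) (hab : a ≤ b)
    (hx : ∀ i ∈ s, a ≤ x i ∧ x i ≤ b) (G G' : ℝ → ℝ)
    (hG : ∀ t ∈ Set.Icc a b, HasDerivAt G (G' t) t) (hG' : ContinuousOn G' (Set.Icc a b))
    (hpos : ∀ t ∈ Set.Icc a b, 0 ≤ G' t) (hGa : 0 ≤ G a)
    (hE : ∀ t ∈ Set.Icc a b, |cum s x h t - K * (t - a)| ≤ E) :
    |∑ i ∈ s, h i * G (x i) - K * ∫ t in a..b, G t| ≤ E * (2 * G b) := by
  have h1 := abel_int s x h a b K E hab hx G G' hG hG' hE
  have hG'i : IntervalIntegrable G' volume a b := by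
    apply ContinuousOn.intervalIntegrable
    rwa [Set.uIcc_of_le hab]
  have h2 : ∫ t in a..b, |G' t| = G b - G a := by
    have : ∫ t in a..b, |G' t| = ∫ t in a..b, G' t := by
      apply integral_congr
      intro t ht
      rw [Set.uIcc_of_le hab] at ht
      simp only
      exact abs_of_nonneg (hpos t ht)
    rw [this, integral_eq_sub_of_hasDerivAt
      (fun t ht => hG t (by rwa [Set.uIcc_of_le hab] at ht)) hG'i]
  have hE0 : 0 ≤ E := (abs_nonneg _).trans (hE a ⟨le_rfl, hab⟩)
  have hab' : G a ≤ G b := by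
    have h3 : 0 ≤ ∫ t in a..b, |G' t| := integral_nonneg hab (fun t _ => abs_nonneg _)
    linarith
  rw [h2, abs_of_nonneg (hGa.trans hab')] at h1
  refine h1.trans ?_
  apply mul_le_mul_of_nonneg_left _ hE0
  linarith

end Pool.Agent.Lib.MP_bae66e_nt.AP3
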