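import Pool.Agent.Lib.MP_bae66e_nt.AP3.PrimeAP
import Pool.Agent.Lib.MP_bae66e_nt.Mg.G079
import Pool.Agent.Lib.MP_bae66e_nt.CramerDefs

/-!
# A dyadic block with many admissible primes
-/

set_option autoImplicit false

namespace Pool.Agent.Lib.MP_bae66e_nt.AP3

open Finset Nat

/-- admissible primes for the class `β` -/
def Pgood (u β y z : ℕ) : Finset ℕ :=
  (prI y z).filter (fun p => ∀ ℓ ∈ prI 0 u, ¬ β ≡ p [MOD ℓ])

/-- the local product -/
noncomputable def fu (u : ℕ) : ℝ := ∏ ℓ ∈ prI 2 u, (1 - 1 / ((ℓ : ℝ) - 1))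

lemma fu_factor {ℓ : ℕ} (h : 2 < ℓ) : 0 < 1 - 1 / ((ℓ : ℝ) - 1) ∧ 1 - 1 / ((ℓ : ℝ) - 1) ≤ 1 := by
  have h1 : (3 : ℝ) ≤ ℓ := by exact_mod_cast h
  have h2 : (2 : ℝ) ≤ (ℓ : ℝ) - 1 := by linarith
  have h3 : 1 / ((ℓ : ℝ) - 1) ≤ 1 / 2 := one_div_le_one_div_of_le (by norm_num) h2
  have h4 : 0 ≤ 1 / ((ℓ : ℝ) - 1) := by positivity
  constructor <;> linarith

lemma fu_pos (u : ℕ) : 0 < fu u := prod_pos fun _ h => (fu_factor (mem_prI.mp h).1.1).1

lemma fu_succ (n : ℕ) (hn : 2 ≤ n) :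
    fu (n + 1) = fu n * (if (n + 1).Prime then 1 - 1 / (n : ℝ) else 1) := by
  unfold fu
  have h : prI 2 (n + 1) = if (n + 1).Prime then insert (n + 1) (prI 2 n) else prI 2 n := by
    ext p
    split_ifs with hp
    · rw [mem_insert, mem_prI, mem_prI]
      constructor
      · rintro ⟨⟨h1, h2⟩, h3⟩
        rcases Nat.lt_or_ge n p with h4 | h4
        · left; omega
        · right; exact ⟨⟨h1, h4⟩, h3⟩
      · rintro (rfl | ⟨⟨h1, h2⟩, h3⟩)
        · exact ⟨⟨by omega, le_rfl⟩, hp⟩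
        · exact ⟨⟨h1, by omega⟩, h3⟩
    · rw [mem_prI, mem_prI]
      constructor
      · rintro ⟨⟨h1, h2⟩, h3⟩
        refine ⟨⟨h1, ?_⟩, h3⟩
        rcases Nat.lt_or_ge n p with h4 | h4
        · have : p = n + 1 := by omega
          exact absurd (this ▸ h3) hp
        · exact h4
      · rintro ⟨⟨h1, h2⟩, h3⟩
        exact ⟨⟨h1, by omega⟩, h3⟩
  rw [h]
  split_ifs with hp
  · rw [prod_insert (by rw [mem_prI]; omega), mul_comm]
    push_cast
    rw [add_sub_cancel_right]
  · rw [mul_one]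

lemma fu_anti {m n : ℕ} (hm : 2 ≤ m) (h : m ≤ n) : fu n ≤ fu m := by
  induction n, h using Nat.le_induction with
  | base => exact le_rfl
  | succ n hn ih =>
    rw [fu_succ n (by omega)]
    have h1 : (if (n + 1).Prime then 1 - 1 / (n : ℝ) else 1) ≤ 1 := by
      split_ifs
      · have : 0 ≤ 1 / (n : ℝ) := by positivity
        linarith
      · exact le_rfl
    calc fu n * _ ≤ fu n * 1 := mul_le_mul_of_nonneg_left h1 (fu_pos n).le
      _ = fu n := mul_one _
      _ ≤ fu m := ih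

lemma fu_odd_ge (j : ℕ) (hj : 1 ≤ j) : 1 / (2 * Real.sqrt j) ≤ fu (2 * j + 1) := by
  induction j, hj using Nat.le_induction with
  | base =>
    have h2 : fu 2 = 1 := by
      unfold fu
      have : prI 2 2 = ∅ := by
        rw [eq_empty_iff_forall_notMem]
        intro p hp
        have := mem_prI.mp hp
        omega
      rw [this, prod_empty]
    have h3 : fu 3 = 1 / 2 := by
      rw [fu_succ 2 le_rfl, h2, if_pos (by norm_num)]
      norm_num
    rw [show 2 * 1 + 1 = 3 by norm_num, h3]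
    norm_num
  | succ j hj ih =>
    have hj0 : (0 : ℝ) < j := by exact_mod_cast hj
    have h1 : fu (2 * j + 2) = fu (2 * j + 1) := by
      rw [fu_succ (2 * j + 1) (by omega), if_neg, mul_one]
      intro h
      have h2 : 2 ∣ 2 * j + 1 + 1 := ⟨j + 1, by ring⟩
      have := (Nat.prime_dvd_prime_iff_eq Nat.prime_two h).mp h2
      omega
    have h2 : fu (2 * (j + 1) + 1) = fu (2 * j + 1)
        * (if (2 * j + 2 + 1).Prime then 1 - 1 / ((2 * j + 2 : ℕ) : ℝ) else 1) := by
      rw [show 2 * (j + 1) + 1 = 2 * j + 2 + 1 by ring, fu_succ (2 * j + 2) (by omega), h1]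
    rw [h2]
    have h3 : 1 - 1 / ((2 * j + 2 : ℕ) : ℝ)
        ≤ (if (2 * j + 2 + 1).Prime then 1 - 1 / ((2 * j + 2 : ℕ) : ℝ) else 1) := by
      split_ifs
      · exact le_rfl
      · have : 0 ≤ 1 / ((2 * j + 2 : ℕ) : ℝ) := by positivity
        linarith
    have h4 : 0 ≤ 1 - 1 / ((2 * j + 2 : ℕ) : ℝ) := by
      rw [sub_nonneg, div_le_one (by positivity)]
      push_cast; linarith
    calc 1 / (2 * Real.sqrt ((j + 1 : ℕ) : ℝ))
        ≤ 1 / (2 * Real.sqrt j) * (1 - 1 / ((2 * j + 2 : ℕ) : ℝ)) := by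
          have hs0 : 0 < Real.sqrt j := Real.sqrt_pos.mpr hj0
          have hs1 : 0 < Real.sqrt ((j + 1 : ℕ) : ℝ) := Real.sqrt_pos.mpr (by positivity)
          have e1 : 1 / (2 * Real.sqrt j) * (1 - 1 / ((2 * j + 2 : ℕ) : ℝ))
              = (1 - 1 / ((2 * j + 2 : ℕ) : ℝ)) / (2 * Real.sqrt j) := by ring
          rw [e1, div_le_div_iff₀ (by positivity) (by positivity), one_mul]
          have h5 : Real.sqrt j ≤ (1 - 1 / ((2 * j + 2 : ℕ) : ℝ)) * Real.sqrt ((j + 1 : ℕ) : ℝ) := by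
            apply Real.sqrt_le_iff.mpr
            refine ⟨by positivity, ?_⟩
            rw [mul_pow, Real.sq_sqrt (by positivity)]
            push_cast
            have e2 : (1 - 1 / (2 * (j : ℝ) + 2)) ^ 2 * ((j : ℝ) + 1)
                = j + 1 / (4 * ((j : ℝ) + 1)) := by
              field_simp
              ring
            rw [e2]
            have : 0 ≤ 1 / (4 * ((j : ℝ) + 1)) := by positivity
            linarith
          linarith
      _ ≤ fu (2 * j + 1) * (1 - 1 / ((2 * j + 2 : ℕ) : ℝ)) := by gcongr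
      _ ≤ _ := mul_le_mul_of_nonneg_left h3 (fu_pos _).le

lemma fu_ge (u : ℕ) (hu : 2 ≤ u) : 1 / (2 * Real.sqrt u) ≤ fu u :=
  (fu_odd_ge u (by omega)).trans (fu_anti hu (by omega))

/-- the number of admissible classes -/
lemma nsol_ge (u β : ℕ) (hu : 2 ≤ u) (hβ : 2 ∣ β) :
    fu u * (φ (prm u) : ℝ) ≤ nsol (prm u) β := by
  have hpr : ∀ ℓ ∈ prI 0 u, ℓ.Prime := fun ℓ h => (mem_prI.mp h).2
  have h1 : (nsol (prm u) β : ℝ) = ∏ ℓ ∈ prI 0 u, ((ℓ : ℝ) - (if ℓ ∣ β then 1 else 2)) :=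
    nsol_prod _ hpr β
  have hsq : Squarefree (prm u) := by
    unfold prm
    apply Finset.squarefree_prod_of_pairwise_isCoprime
    · intro a ha b hb hab
      simp only [Function.onFun]
      rw [← Nat.coprime_iff_isRelPrime]
      exact (Nat.coprime_primes (hpr a ha) (hpr b hb)).mpr hab
    · intro ℓ hℓ
      exact (hpr ℓ hℓ).squarefree
  have h2 : (φ (prm u) : ℝ) = ∏ ℓ ∈ prI 0 u, ((ℓ : ℝ) - 1) := by
    have h := Nat.totient_eq_div_primeFactors_mul (prm u)
    rw [Nat.prod_primeFactors_of_squarefree hsq, Nat.div_self (prm_pos u), one_mul] at h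
    rw [h]
    unfold prm
    rw [Nat.primeFactors_prod hpr]
    push_cast
    apply prod_congr rfl
    intro ℓ hℓ
    rw [Nat.cast_sub (hpr ℓ hℓ).one_lt.le]
    simp
  have hins : prI 0 u = insert 2 (prI 2 u) := by
    ext p
    rw [mem_insert, mem_prI, mem_prI]
    constructor
    · rintro ⟨⟨h1, h2⟩, h3⟩
      rcases Nat.lt_or_ge 2 p with h4 | h4
      · exact Or.inr ⟨⟨h4, h2⟩, h3⟩
      · left
        have := h3.two_le
        omega
    · rintro (rfl | ⟨⟨h1, h2⟩, h3⟩)
      · exact ⟨⟨by norm_num, hu⟩, Nat.prime_two⟩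
      · exact ⟨⟨by omega, h2⟩, h3⟩
  have hnot : 2 ∉ prI 2 u := by
    rw [mem_prI]; omega
  rw [h1, h2, hins, prod_insert hnot, prod_insert hnot, if_pos hβ]
  unfold fu
  have e1 : ((2 : ℕ) : ℝ) - 1 = 1 := by norm_num
  rw [e1, one_mul, one_mul, ← prod_mul_distrib]
  apply prod_le_prod
  · intro ℓ hℓ
    have h3 := (mem_prI.mp hℓ).1.1
    have h4 := (fu_factor h3).1
    have h5 : (3 : ℝ) ≤ ℓ := by exact_mod_cast h3
    have : 0 ≤ (ℓ : ℝ) - 1 := by linarith
    positivity
  · intro ℓ hℓ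
    have h3 := (mem_prI.mp hℓ).1.1
    have h5 : (3 : ℝ) ≤ ℓ := by exact_mod_cast h3
    have h6 : (ℓ : ℝ) - 1 ≠ 0 := by linarith
    have e2 : (1 - 1 / ((ℓ : ℝ) - 1)) * ((ℓ : ℝ) - 1) = ℓ - 2 := by
      field_simp
      ring
    rw [e2]
    split_ifs <;> linarith

/-- Mertens' sum over admissible primes -/
lemma exists_good_sum (u : ℕ) (hu : 2 ≤ u) : ∃ C : ℝ, 0 ≤ C ∧ ∀ β : ℕ, 2 ∣ β →
    ∀ y z : ℕ, 1 ≤ y → y ≤ z →
    fu u * (Real.log z - Real.log y) - C ≤ ∑ p ∈ Pgood u β y z, Real.log p / p := by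
  classical
  have : NeZero (prm u) := ⟨(prm_pos u).ne'⟩
  obtain ⟨C, hC0, hC⟩ := exists_mertens_ap (prm u)
  refine ⟨prm u * C, by positivity, ?_⟩
  intro β hβ y z hy hyz
  set W := prm u with hW
  set G : Finset (ZMod W) := univ.filter (fun x => IsUnit x ∧ IsUnit ((β : ZMod W) - x)) with hG
  have hcardG : #G = nsol W β := by
    unfold nsol
    rw [Nat.card_eq_fintype_card, Fintype.card_subtype]
  have hφ : (0 : ℝ) < φ W := by exact_mod_cast Nat.totient_pos.mpr (prm_pos u)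
  have hlog : 0 ≤ Real.log z - Real.log y := by
    have := Real.log_le_log (by exact_mod_cast hy : (0 : ℝ) < y) (by exact_mod_cast hyz : (y : ℝ) ≤ z)
    linarith
  -- sum over the classes
  have h1 : ∑ x ∈ G, ∑ p ∈ (prI y z).filter (fun p => p ≡ x.val [MOD W]), Real.log p / p
      ≤ ∑ p ∈ Pgood u β y z, Real.log p / p := by
    rw [← sum_biUnion]
    · apply sum_le_sum_of_subset_of_nonneg
      · intro p hp
        obtain ⟨x, hx, hpx⟩ := mem_biUnion.mp hp
        have hx' := (mem_filter.mp hx).2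
        have hp' := mem_filter.mp hpx
        unfold Pgood
        refine mem_filter.mpr ⟨hp'.1, ?_⟩
        intro ℓ hℓ hmod
        have hℓp := (mem_prI.mp hℓ).2
        have : Fact ℓ.Prime := ⟨hℓp⟩
        have hℓW : ℓ ∣ W := dvd_prm hℓ
        have h2 : p ≡ x.val [MOD ℓ] := hp'.2.of_dvd hℓW
        have h3 : (β : ZMod ℓ) = (x.val : ZMod ℓ) :=
          (ZMod.natCast_eq_natCast_iff β x.val ℓ).mpr (hmod.trans h2)
        have h4 : IsUnit (ZMod.castHom hℓW (ZMod ℓ) ((β : ZMod W) - x)) := hx'.2.map _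
        rw [map_sub, map_natCast] at h4
        have h5 : ZMod.castHom hℓW (ZMod ℓ) x = (x.val : ZMod ℓ) := by
          conv_lhs => rw [← ZMod.natCast_zmod_val x]
          rw [map_natCast]
        rw [h5, h3, sub_self] at h4
        exact not_isUnit_zero h4
      · intro p _ _
        exact log_div_nonneg p
    · intro x _ x' _ hne
      simp only [Function.onFun]
      rw [disjoint_left]
      intro p hp hp'
      apply hne
      have h2 := (mem_filter.mp hp).2
      have h3 := (mem_filter.mp hp').2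
      have h4 : x.val ≡ x'.val [MOD W] := h2.symm.trans h3
      have h5 := (ZMod.natCast_eq_natCast_iff x.val x'.val W).mpr h4
      rwa [ZMod.natCast_zmod_val, ZMod.natCast_zmod_val] at h5
  have h2 : ∀ x ∈ G, (Real.log z - Real.log y) / φ W - C
      ≤ ∑ p ∈ (prI y z).filter (fun p => p ≡ x.val [MOD W]), Real.log p / p := by
    intro x hx
    apply hC x.val _ y z hy hyz
    have hx' := (mem_filter.mp hx).2.1
    rw [← ZMod.natCast_zmod_val x] at hx'
    exact (ZMod.isUnit_iff_coprime _ _).mp hx'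
  have h3 := (sum_le_sum h2).trans h1
  rw [sum_const, nsmul_eq_mul, hcardG] at h3
  have h4 := nsol_ge u β hu hβ
  have h5 : (nsol W β : ℝ) ≤ W := by
    rw [← hcardG]
    have : #G ≤ Fintype.card (ZMod W) := card_le_univ G
    rw [ZMod.card] at this
    exact_mod_cast this
  have h6 : fu u * (Real.log z - Real.log y) ≤ nsol W β * ((Real.log z - Real.log y) / φ W) := by
    calc fu u * (Real.log z - Real.log y)
        = (fu u * φ W) * ((Real.log z - Real.log y) / φ W) := by field_simp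
      _ ≤ _ := mul_le_mul_of_nonneg_right h4 (by positivity)
  have h7 : (nsol W β : ℝ) * C ≤ W * C := mul_le_mul_of_nonneg_right h5 hC0
  have h8 : (nsol W β : ℝ) * ((Real.log z - Real.log y) / φ W - C)
      = nsol W β * ((Real.log z - Real.log y) / φ W) - nsol W β * C := by ring
  rw [h8] at h3
  linarith

/-- a dyadic block with many admissible primes -/
theorem exists_block (u : ℕ) (hu : 2 ≤ u) : ∃ J : ℕ, ∀ β : ℕ, 2 ∣ β → ∀ y0 : ℕ, 2 ≤ y0 →
    ∃ i : ℕ, i < J ∧ 1 / (12 * Real.sqrt u) * ((2 ^ i * y0 : ℕ) / Real.log (2 ^ i * y0 : ℕ))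
      ≤ #(Pgood u β (2 ^ i * y0) (2 * (2 ^ i * y0))) := by
  obtain ⟨C, hC0, hC⟩ := exists_good_sum u hu
  have hl2 := Real.log_pos (by norm_num : (1 : ℝ) < 2)
  have hfu := fu_pos u
  set J : ℕ := ⌈2 * C / (fu u * Real.log 2)⌉₊ + 1 with hJ
  have hJC : C ≤ fu u / 2 * (J * Real.log 2) := by
    have h1 : 2 * C / (fu u * Real.log 2) ≤ J := by
      rw [hJ]; push_cast
      have := Nat.le_ceil (2 * C / (fu u * Real.log 2))
      linarith
    rw [div_le_iff₀ (by positivity)] at h1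
    linarith
  have hJ0 : 0 < J := by omega
  refine ⟨J, ?_⟩
  intro β hβ y0 hy0
  have hy0' : (0 : ℝ) < y0 := by positivity
  have hsum := hC β hβ y0 (2 ^ J * y0) (by omega) (Nat.le_mul_of_pos_left _ (by positivity))
  have hlogJ : Real.log ((2 ^ J * y0 : ℕ) : ℝ) - Real.log y0 = J * Real.log 2 := by
    push_cast
    rw [Real.log_mul (by positivity) (by positivity), Real.log_pow]
    ring
  rw [hlogJ] at hsum
  -- decompose into blocks
  have hdec : ∀ j : ℕ, ∑ p ∈ Pgood u β y0 (2 ^ j * y0), Real.log p / p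
      = ∑ i ∈ range j, ∑ p ∈ Pgood u β (2 ^ i * y0) (2 * (2 ^ i * y0)), Real.log p / p := by
    intro j
    induction j with
    | zero =>
      have : Pgood u β y0 (2 ^ 0 * y0) = ∅ := by
        rw [eq_empty_iff_forall_notMem]
        intro p hp
        have := mem_prI.mp (mem_filter.mp hp).1
        omega
      rw [this, sum_empty, range_zero, sum_empty]
    | succ j ih =>
      rw [sum_range_succ, ← ih]
      have e1 : 2 ^ (j + 1) * y0 = 2 * (2 ^ j * y0) := by ring
      have hy1 : y0 ≤ 2 ^ j * y0 := Nat.le_mul_of_pos_left _ (by positivity)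
      rw [e1, ← sum_union]
      · apply sum_congr _ (fun _ _ => rfl)
        ext p
        unfold Pgood
        rw [mem_union, mem_filter, mem_filter, mem_filter, mem_prI, mem_prI, mem_prI]
        constructor
        · rintro ⟨⟨⟨h1, h2⟩, h3⟩, h4⟩
          rcases le_or_gt p (2 ^ j * y0) with h5 | h5
          · exact Or.inl ⟨⟨⟨h1, h5⟩, h3⟩, h4⟩
          · exact Or.inr ⟨⟨⟨h5, h2⟩, h3⟩, h4⟩
        · rintro (⟨⟨⟨h1, h2⟩, h3⟩, h4⟩ | ⟨⟨⟨h1, h2⟩, h3⟩, h4⟩)
          · exact ⟨⟨⟨h1, by omega⟩, h3⟩, h4⟩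
          · exact ⟨⟨⟨by omega, h2⟩, h3⟩, h4⟩
      · rw [disjoint_left]
        intro p hp hp'
        have h1 := mem_prI.mp (mem_filter.mp hp).1
        have h2 := mem_prI.mp (mem_filter.mp hp').1
        omega
  rw [hdec J] at hsum
  -- a good block
  obtain ⟨i, hi, hblock⟩ : ∃ i ∈ range J, fu u / 2 * Real.log 2
      ≤ ∑ p ∈ Pgood u β (2 ^ i * y0) (2 * (2 ^ i * y0)), Real.log p / p := by
    apply exists_le_of_sum_le (s := range J) ⟨0, mem_range.mpr hJ0⟩
    rw [sum_const, card_range, nsmul_eq_mul]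
    have : fu u * (J * Real.log 2) - C ≥ J * (fu u / 2 * Real.log 2) := by
      have e1 : (J : ℝ) * (fu u / 2 * Real.log 2) = fu u / 2 * (J * Real.log 2) := by ring
      rw [e1]
      linarith
    linarith
  refine ⟨i, mem_range.mp hi, ?_⟩
  set y := 2 ^ i * y0 with hy
  have hy2 : 2 ≤ y := le_trans hy0 (Nat.le_mul_of_pos_left _ (by positivity))
  have hy0'' : (0 : ℝ) < y := by positivity
  have hly : 0 < Real.log y := Real.log_pos (by exact_mod_cast hy2)
  have h1 : ∑ p ∈ Pgood u β y (2 * y), Real.log p / p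
      ≤ #(Pgood u β y (2 * y)) * (2 * Real.log y / y) := by
    rw [← nsmul_eq_mul, ← sum_const]
    apply sum_le_sum
    intro p hp
    have hp' := mem_prI.mp (mem_filter.mp hp).1
    have hp0 : (0 : ℝ) < p := by exact_mod_cast hp'.2.pos
    have h2 : Real.log p ≤ 2 * Real.log y := by
      calc Real.log p ≤ Real.log ((y : ℝ) ^ 2) := by
            apply Real.log_le_log hp0
            have : p ≤ y ^ 2 := by
              calc p ≤ 2 * y := hp'.1.2
                _ ≤ y * y := Nat.mul_le_mul_right y hy2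
                _ = y ^ 2 := by ring
            exact_mod_cast this
        _ = 2 * Real.log y := by rw [Real.log_pow]; push_cast; ring
    have h3 : (y : ℝ) ≤ p := by exact_mod_cast hp'.1.1.le
    gcongr
  have h2 := hblock.trans h1
  have h3 := fu_ge u hu
  have hl2' := Real.log_two_gt_d9
  have h4 : 1 / (12 * Real.sqrt u) ≤ fu u / 2 * Real.log 2 / 2 := by
    have h5 : 1 / (12 * Real.sqrt u) = 1 / (2 * Real.sqrt u) * (1 / 6) := by
      rw [one_div_mul_one_div]
      congr 1; ring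
    rw [h5]
    calc 1 / (2 * Real.sqrt u) * (1 / 6) ≤ fu u * (1 / 6) := by gcongr
      _ ≤ fu u * (Real.log 2 / 4) := by
          apply mul_le_mul_of_nonneg_left _ hfu.le
          linarith
      _ = _ := by ring
  calc 1 / (12 * Real.sqrt u) * ((y : ℝ) / Real.log y)
      ≤ fu u / 2 * Real.log 2 / 2 * ((y : ℝ) / Real.log y) := by gcongr
    _ = (fu u / 2 * Real.log 2) * ((y : ℝ) / Real.log y) / 2 := by ring
    _ ≤ (#(Pgood u β y (2 * y)) * (2 * Real.log y / y)) * ((y : ℝ) / Real.log y) / 2 := by gcongr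
    _ = _ := by field_simp

end Pool.Agent.Lib.MP_bae66e_nt.AP3
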