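import Mathlib

/-!
# Elementary symmetric sums and Bonferroni's inequalities
-/

set_option autoImplicit false

namespace Pool.Agent.Lib.MP_bae66e_nt.AP3

open Finset

/-- elementary symmetric sum over a finset -/
noncomputable def es {ι : Type*} [DecidableEq ι] (x : ι → ℝ) (j : ℕ) (S : Finset ι) : ℝ :=
  ∑ T ∈ powersetCard j S, ∏ i ∈ T, x i

/-- alternating partial sums -/
noncomputable def alt {ι : Type*} [DecidableEq ι] (x : ι → ℝ) (r : ℕ) (S : Finset ι) : ℝ :=
  ∑ j ∈ range r, (-1) ^ j * es x j S

variable {ι : Type*} [DecidableEq ι] (x : ι → ℝ)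

lemma es_zero (S : Finset ι) : es x 0 S = 1 := by
  simp [es]

lemma es_empty (j : ℕ) : es x (j + 1) (∅ : Finset ι) = 0 := by
  have h : powersetCard (j + 1) (∅ : Finset ι) = ∅ := by
    rw [powersetCard_eq_empty]; simp
  rw [es, h, sum_empty]

lemma es_insert {a : ι} {S : Finset ι} (ha : a ∉ S) (j : ℕ) :
    es x (j + 1) (insert a S) = es x (j + 1) S + x a * es x j S := by
  unfold es
  rw [powersetCard_succ_insert ha, sum_union]
  · congr 1
    rw [sum_image, mul_sum]
    · apply sum_congr rfl
      intro T hT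
      rw [prod_insert]
      intro h
      exact ha ((mem_powersetCard.mp hT).1 h)
    · intro T hT T' hT' h
      have h1 : a ∉ T := fun h => ha ((mem_powersetCard.mp hT).1 h)
      have h2 : a ∉ T' := fun h => ha ((mem_powersetCard.mp hT').1 h)
      have : (insert a T).erase a = (insert a T').erase a := by rw [h]
      rwa [erase_insert h1, erase_insert h2] at this
  · rw [disjoint_left]
    intro T hT hT'
    obtain ⟨T', hT', rfl⟩ := mem_image.mp hT'
    exact ha ((mem_powersetCard.mp hT).1 (mem_insert_self _ _))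

lemma es_nonneg (hx : ∀ i, 0 ≤ x i) (j : ℕ) (S : Finset ι) : 0 ≤ es x j S :=
  sum_nonneg fun T _ => prod_nonneg fun i _ => hx i

lemma pow_add_ge {s t : ℝ} (hs : 0 ≤ s) (ht : 0 ≤ t) (n : ℕ) :
    s ^ (n + 1) + (n + 1) * (t * s ^ n) ≤ (t + s) ^ (n + 1) := by
  induction n with
  | zero => simp; linarith
  | succ n ih =>
    have h1 : (t + s) * (s ^ (n + 1) + (n + 1) * (t * s ^ n)) ≤ (t + s) * (t + s) ^ (n + 1) :=
      mul_le_mul_of_nonneg_left ih (by positivity)
    have h2 : (t + s) * (t + s) ^ (n + 1) = (t + s) ^ (n + 1 + 1) := by ring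
    have h3 : 0 ≤ ((n : ℝ) + 1) * (t ^ 2 * s ^ n) := by positivity
    rw [← h2]
    refine le_trans ?_ h1
    push_cast
    have h4 : (t + s) * (s ^ (n + 1) + (n + 1) * (t * s ^ n))
        = s ^ (n + 1 + 1) + ((n : ℝ) + 1 + 1) * (t * s ^ (n + 1)) + ((n : ℝ) + 1) * (t ^ 2 * s ^ n) := by
      ring
    rw [h4]
    linarith

lemma es_le_pow (hx : ∀ i, 0 ≤ x i) (S : Finset ι) :
    ∀ j : ℕ, es x j S ≤ (∑ i ∈ S, x i) ^ j / j.factorial := by
  induction S using Finset.induction_on with
  | empty =>
    intro j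
    rcases j with _ | j
    · simp [es_zero]
    · rw [es_empty]; simp
  | insert a S ha ih =>
    intro j
    rcases j with _ | j
    · simp [es_zero]
    · rw [es_insert x ha, sum_insert ha]
      set s := ∑ i ∈ S, x i with hs
      have hs0 : 0 ≤ s := sum_nonneg fun i _ => hx i
      have h1 := ih (j + 1)
      have h2 := ih j
      have h3 := pow_add_ge hs0 (hx a) j
      have h4 : x a * es x j S ≤ x a * (s ^ j / j.factorial) :=
        mul_le_mul_of_nonneg_left h2 (hx a)
      have hf : ((j + 1).factorial : ℝ) = (j + 1) * j.factorial := by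
        rw [Nat.factorial_succ]; push_cast; ring
      have hf0 : (0 : ℝ) < j.factorial := by exact_mod_cast Nat.factorial_pos j
      have hj0 : (0 : ℝ) < (j : ℝ) + 1 := by positivity
      calc es x (j + 1) S + x a * es x j S
          ≤ s ^ (j + 1) / (j + 1).factorial + x a * (s ^ j / j.factorial) := add_le_add h1 h4
        _ = (s ^ (j + 1) + (j + 1) * (x a * s ^ j)) / (j + 1).factorial := by
            rw [hf]; field_simp
        _ ≤ (x a + s) ^ (j + 1) / (j + 1).factorial := by
            apply div_le_div_of_nonneg_right h3 (by positivity)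

lemma sum_es_le_prod (hx : ∀ i, 0 ≤ x i) (S : Finset ι) :
    ∀ n : ℕ, ∑ j ∈ range n, es x j S ≤ ∏ i ∈ S, (1 + x i) := by
  induction S using Finset.induction_on with
  | empty =>
    intro n
    rcases n with _ | n
    · simp
    · rw [sum_range_succ']
      simp [es_zero, es_empty]
  | insert a S ha ih =>
    intro n
    rcases n with _ | n
    · simp only [range_zero, sum_empty]
      exact prod_nonneg fun i _ => by have := hx i; linarith
    · rw [sum_range_succ', prod_insert ha, es_zero]
      simp_rw [es_insert x ha]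
      rw [sum_add_distrib, ← mul_sum]
      have h1 := ih (n + 1)
      rw [sum_range_succ', es_zero] at h1
      have h2 := mul_le_mul_of_nonneg_left (ih n) (hx a)
      linarith

lemma sum_es_le_pow (hx : ∀ i, 0 ≤ x i) (S : Finset ι) (n : ℕ) :
    ∑ j ∈ range (n + 1), es x j S ≤ (1 + ∑ i ∈ S, x i) ^ n := by
  set s := ∑ i ∈ S, x i with hs
  have hs0 : 0 ≤ s := sum_nonneg fun i _ => hx i
  rw [add_comm 1 s, add_pow]
  apply sum_le_sum
  intro j hj
  have hj' : j ≤ n := by have := mem_range.mp hj; omega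
  refine (es_le_pow x hx S j).trans ?_
  rw [one_pow, mul_one]
  have h1 : (1 : ℝ) ≤ (n.choose j : ℝ) := by
    exact_mod_cast Nat.choose_pos hj'
  have h2 : (1 : ℝ) ≤ (j.factorial : ℝ) := by exact_mod_cast Nat.factorial_pos j
  have h3 : 0 ≤ s ^ j := pow_nonneg hs0 j
  calc s ^ j / j.factorial ≤ s ^ j / 1 := by
        apply div_le_div_of_nonneg_left h3 one_pos h2
    _ = s ^ j * 1 := by ring
    _ ≤ s ^ j * n.choose j := mul_le_mul_of_nonneg_left h1 h3

/-- Bonferroni's inequalities. -/
theorem bonferroni (hx : ∀ i, 0 ≤ x i) (hx1 : ∀ i, x i ≤ 1) (S : Finset ι) :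
    ∀ r : ℕ, 0 ≤ (-1) ^ r * (∏ i ∈ S, (1 - x i) - alt x r S) ∧
      (-1) ^ r * (∏ i ∈ S, (1 - x i) - alt x r S) ≤ es x r S := by
  induction S using Finset.induction_on with
  | empty =>
    intro r
    rcases r with _ | r
    · simp [alt, es_zero]
    · have : alt x (r + 1) (∅ : Finset ι) = 1 := by
        unfold alt
        rw [sum_range_succ']
        simp [es_zero, es_empty]
      rw [this, es_empty]
      simp
  | insert a S ha ih =>
    intro r
    rcases r with _ | r
    · simp only [pow_zero, one_mul, alt, range_zero, sum_empty, sub_zero, es_zero]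
      constructor
      · exact prod_nonneg fun i _ => by have := hx1 i; linarith
      · apply prod_le_one
        · intro i _; have := hx1 i; linarith
        · intro i _; have := hx i; linarith
    · have halt : alt x (r + 1) (insert a S) = alt x (r + 1) S - x a * alt x r S := by
        unfold alt
        rw [sum_range_succ', sum_range_succ' _ r]
        simp_rw [es_insert x ha, es_zero]
        rw [mul_sum]
        have : ∀ j, (-1 : ℝ) ^ (j + 1) * (es x (j + 1) S + x a * es x j S)
            = (-1) ^ (j + 1) * es x (j + 1) S - x a * ((-1) ^ j * es x j S) := by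
          intro j; ring
        simp_rw [this, sum_sub_distrib]
        ring
      rw [halt, es_insert x ha, prod_insert ha]
      have h1 := ih (r + 1)
      have h2 := ih r
      have e : (-1 : ℝ) ^ (r + 1) * ((1 - x a) * ∏ i ∈ S, (1 - x i)
            - (alt x (r + 1) S - x a * alt x r S))
          = (-1) ^ (r + 1) * (∏ i ∈ S, (1 - x i) - alt x (r + 1) S)
            + x a * ((-1) ^ r * (∏ i ∈ S, (1 - x i) - alt x r S)) := by
        ring
      rw [e]
      constructor
      · exact add_nonneg h1.1 (mul_nonneg (hx a) h2.1)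
      · exact add_le_add h1.2 (mul_le_mul_of_nonneg_left h2.2 (hx a))

theorem abs_prod_sub_alt_le (hx : ∀ i, 0 ≤ x i) (hx1 : ∀ i, x i ≤ 1) (S : Finset ι) (r : ℕ) :
    |∏ i ∈ S, (1 - x i) - alt x r S| ≤ es x r S := by
  obtain ⟨h1, h2⟩ := bonferroni x hx hx1 S r
  have : |∏ i ∈ S, (1 - x i) - alt x r S|
      = |(-1) ^ r * (∏ i ∈ S, (1 - x i) - alt x r S)| := by
    rw [abs_mul, abs_pow, abs_neg, abs_one, one_pow, one_mul]
  rw [this, abs_of_nonneg h1]
  exact h2

lemma prod_one_sub_ge (S : Finset ι) (hx : ∀ i, 0 ≤ x i) (hx1 : ∀ i, x i ≤ 1 / 2) :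
    Real.exp (-(2 * ∑ i ∈ S, x i)) ≤ ∏ i ∈ S, (1 - x i) := by
  rw [mul_sum, ← sum_neg_distrib, Real.exp_sum]
  apply prod_le_prod
  · intro i _; exact (Real.exp_pos _).le
  · intro i _
    have h1 := Real.add_one_le_exp (2 * x i)
    have h0 := hx i
    have h2 := hx1 i
    rw [Real.exp_neg]
    have h3 : 0 < 1 - x i := by linarith
    rw [inv_le_comm₀ (Real.exp_pos _) h3]
    refine le_trans ?_ h1
    rw [inv_eq_one_div, div_le_iff₀ h3]
    nlinarith

end Pool.Agent.Lib.MP_bae66e_nt.AP3
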