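import Pool.Agent.Lib.MP_bae66e_nt.AP3.Vari
import Pool.Agent.Lib.MP_bae66e_nt.Mg.G079
import Pool.Agent.Lib.MP_bae66e_nt.AP3.Block

/-!
# Bounds for the coefficient sums
-/

set_option autoImplicit false

namespace Pool.Agent.Lib.MP_bae66e_nt.AP3

open Finset Nat

section
variable {T L : ℕ} {w : ℕ → ℝ} {Cw : ℝ}

lemma bound_B0 (hw : ∀ D ∈ dset T (T ^ L), |w D| ≤ Cw) (hCw : 0 ≤ Cw) :
    ∑ D ∈ dset T (T ^ L), |w D| ≤ Cw * (T : ℝ) ^ L := by
  calc ∑ D ∈ dset T (T ^ L), |w D| ≤ ∑ D ∈ dset T (T ^ L), Cw := sum_le_sum hw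
    _ = #(dset T (T ^ L)) * Cw := by rw [sum_const, nsmul_eq_mul]
    _ ≤ (T : ℝ) ^ L * Cw := by
        apply mul_le_mul_of_nonneg_right _ hCw
        have h1 : #(dset T (T ^ L)) ≤ T ^ L := by
          calc #(dset T (T ^ L)) ≤ #(Ioc 0 (T ^ L)) := by
                apply card_le_card
                intro D hD
                have := mem_dset.mp hD
                exact mem_Ioc.mpr this.1.1
            _ = T ^ L := by rw [Nat.card_Ioc]; rfl
        exact_mod_cast h1
    _ = _ := mul_comm _ _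

lemma sum_rset_bound (cK : ℝ) (hcK : 0 < cK)
    (hK : ∀ T : ℕ, 2 ≤ T → cK / Real.log T ≤ KT T) (hT : 2 ≤ T) (hL : 1 ≤ L) :
    ∑ D ∈ rset T (T ^ L), 1 / (D : ℝ) ≤ L / cK := by
  have hlT : 0 < Real.log T := Real.log_pos (by exact_mod_cast hT)
  have hTL : T ≤ T ^ L := by
    calc T = T ^ 1 := (pow_one T).symm
      _ ≤ T ^ L := Nat.pow_le_pow_right (by omega) hL
  have h1 := sum_rset_le T (T ^ L) hTL
  have h2 := hK (T ^ L) (by omega)
  have h3 : Real.log ((T ^ L : ℕ) : ℝ) = L * Real.log T := by push_cast; rw [Real.log_pow]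
  rw [h3] at h2
  have hL0 : (0 : ℝ) < L := by exact_mod_cast hL
  have h4 := KT_le T (by omega)
  have hlT1 : 0 < Real.log ((T : ℝ) + 1) := Real.log_pos (by
    have : (2 : ℝ) ≤ T := by exact_mod_cast hT
    linarith)
  have h5 : Real.log T ≤ Real.log ((T : ℝ) + 1) :=
    Real.log_le_log (by positivity) (by linarith)
  calc _ ≤ KT T / KT (T ^ L) := h1
    _ ≤ (1 / Real.log ((T : ℝ) + 1)) / (cK / (L * Real.log T)) := by
        gcongr
    _ = L / cK * (Real.log T / Real.log ((T : ℝ) + 1)) := by field_simp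
    _ ≤ L / cK * 1 := by
        apply mul_le_mul_of_nonneg_left _ (by positivity)
        rw [div_le_one hlT1]; exact h5
    _ = _ := mul_one _

lemma bound_B1 (cK : ℝ) (hcK : 0 < cK)
    (hK : ∀ T : ℕ, 2 ≤ T → cK / Real.log T ≤ KT T) (hT : 2 ≤ T) (hL : 1 ≤ L)
    (hw : ∀ D ∈ dset T (T ^ L), |w D| ≤ Cw) (hCw : 0 ≤ Cw) :
    ∑ D ∈ dset T (T ^ L), |w D| * (1 / (D : ℝ)) ≤ Cw * (L / cK) := by
  calc ∑ D ∈ dset T (T ^ L), |w D| * (1 / (D : ℝ))
      ≤ ∑ D ∈ dset T (T ^ L), Cw * (1 / (D : ℝ)) := by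
        apply sum_le_sum
        intro D hD
        exact mul_le_mul_of_nonneg_right (hw D hD) (by positivity)
    _ = Cw * ∑ D ∈ dset T (T ^ L), 1 / (D : ℝ) := by rw [mul_sum]
    _ ≤ Cw * ∑ D ∈ rset T (T ^ L), 1 / (D : ℝ) := by
        apply mul_le_mul_of_nonneg_left _ hCw
        exact sum_le_sum_of_subset_of_nonneg (filter_subset _ _) fun _ _ _ => by positivity
    _ ≤ Cw * (L / cK) := mul_le_mul_of_nonneg_left (sum_rset_bound cK hcK hK hT hL) hCw

lemma bound_Bg (cK : ℝ) (hcK : 0 < cK)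
    (hK : ∀ T : ℕ, 2 ≤ T → cK / Real.log T ≤ KT T) (hT : 2 ≤ T) (hL : 1 ≤ L)
    (hw : ∀ D ∈ dset T (T ^ L), |w D| ≤ Cw) (hCw : 0 ≤ Cw) :
    ∑ D ∈ dset T (T ^ L), ∑ D' ∈ dset T (T ^ L), (if Nat.Coprime D D' then 0 else
      (|w D| * (1 / (D : ℝ))) * (|w D'| * (1 / (D' : ℝ)))) ≤ (Cw * (L / cK)) ^ 2 / T := by
  have hS := sum_rset_bound cK hcK hK hT hL
  have hL0 : (0 : ℝ) < L := by exact_mod_cast hL
  have hT0 : (0 : ℝ) < T := by positivity
  set F : ℕ → ℝ := fun D => |w D| * (1 / (D : ℝ)) with hF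
  have hF0 : ∀ D, 0 ≤ F D := fun D => by simp only [hF]; positivity
  -- the part divisible by a prime
  have hq : ∀ q ∈ prI T (T ^ L), ∑ D ∈ (dset T (T ^ L)).filter (fun D => q ∣ D), F D
      ≤ Cw * (L / cK) * (1 / q) := by
    intro q hq
    have hqp := (mem_prI.mp hq).2
    have hq0 : (0 : ℝ) < q := by exact_mod_cast hqp.pos
    calc ∑ D ∈ (dset T (T ^ L)).filter (fun D => q ∣ D), F D
        ≤ ∑ D ∈ (dset T (T ^ L)).filter (fun D => q ∣ D),
            Cw * (1 / q) * (1 / ((D / q : ℕ) : ℝ)) := by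
          apply sum_le_sum
          intro D hD
          have hD' := mem_filter.mp hD
          obtain ⟨e, rfl⟩ := hD'.2
          have h1 : F (q * e) ≤ Cw * (1 / ((q * e : ℕ) : ℝ)) :=
            mul_le_mul_of_nonneg_right (hw _ hD'.1) (by positivity)
          rw [Nat.mul_div_cancel_left e hqp.pos]
          refine h1.trans (le_of_eq ?_)
          push_cast
          rw [mul_assoc, one_div_mul_one_div]
      _ = Cw * (1 / q) * ∑ D ∈ (dset T (T ^ L)).filter (fun D => q ∣ D),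
            (1 / ((D / q : ℕ) : ℝ)) := by rw [mul_sum]
      _ ≤ Cw * (1 / q) * (L / cK) := by
          apply mul_le_mul_of_nonneg_left _ (by positivity)
          have hinj : Set.InjOn (fun D => D / q)
              (((dset T (T ^ L)).filter (fun D => q ∣ D) : Finset ℕ) : Set ℕ) := by
            intro a ha b hb hab
            have ha' := (mem_filter.mp (mem_coe.mp ha)).2
            have hb' := (mem_filter.mp (mem_coe.mp hb)).2
            simp only at hab
            rw [← Nat.div_mul_cancel ha', ← Nat.div_mul_cancel hb', hab]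
          rw [← sum_image (f := fun m : ℕ => 1 / (m : ℝ)) hinj]
          refine le_trans ?_ hS
          apply sum_le_sum_of_subset_of_nonneg
          · intro m hm
            obtain ⟨D, hD, rfl⟩ := mem_image.mp hm
            have h1 := mem_filter.mp hD
            exact (mem_filter.mp ((divClosed_dset T (T ^ L) D h1.1).2 _
              (Nat.div_dvd_of_dvd h1.2))).1
          · intro _ _ _; positivity
      _ = _ := by ring
  calc ∑ D ∈ dset T (T ^ L), ∑ D' ∈ dset T (T ^ L), (if Nat.Coprime D D' then 0 else F D * F D')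
      ≤ ∑ D ∈ dset T (T ^ L), ∑ D' ∈ dset T (T ^ L), ∑ q ∈ prI T (T ^ L),
          (if q ∣ D then F D else 0) * (if q ∣ D' then F D' else 0) := by
        apply sum_le_sum
        intro D hD
        apply sum_le_sum
        intro D' _
        have hnn : ∀ q ∈ prI T (T ^ L),
            0 ≤ (if q ∣ D then F D else 0) * (if q ∣ D' then F D' else 0) := by
          intro q _
          have := hF0 D
          have := hF0 D'
          split_ifs <;> positivity
        split_ifs with hcop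
        · exact sum_nonneg hnn
        · obtain ⟨q, hqp, hqD, hqD'⟩ := Nat.Prime.not_coprime_iff_dvd.mp hcop
          have hD1 := mem_dset.mp hD
          have hqmem : q ∈ prI T (T ^ L) := mem_prI.mpr ⟨⟨hD1.1.2 q hqp hqD,
            (Nat.le_of_dvd hD1.1.1.1 hqD).trans hD1.1.1.2⟩, hqp⟩
          have h1 := single_le_sum hnn hqmem
          rwa [if_pos hqD, if_pos hqD'] at h1
    _ = ∑ q ∈ prI T (T ^ L), (∑ D ∈ (dset T (T ^ L)).filter (fun D => q ∣ D), F D) ^ 2 := by
        rw [sum_congr rfl (fun D _ => sum_comm), sum_comm]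
        apply sum_congr rfl
        intro q _
        rw [pow_two, sum_mul_sum, sum_filter]
        apply sum_congr rfl
        intro D _
        by_cases h : q ∣ D
        · simp only [h, if_true]
          rw [sum_filter]
          apply sum_congr rfl
          intro D' _
          split_ifs <;> simp
        · simp only [h, if_false, zero_mul, sum_const_zero]
    _ ≤ ∑ q ∈ prI T (T ^ L), (Cw * (L / cK) * (1 / q)) ^ 2 := by
        apply sum_le_sum
        intro q hq'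
        apply pow_le_pow_left₀ (sum_nonneg fun D _ => hF0 D) (hq q hq')
    _ = (Cw * (L / cK)) ^ 2 * ∑ q ∈ prI T (T ^ L), 1 / (q : ℝ) ^ 2 := by
        rw [mul_sum]
        apply sum_congr rfl
        intro q _
        rw [mul_pow, div_pow, one_pow]
    _ ≤ (Cw * (L / cK)) ^ 2 * (1 / T) := by
        apply mul_le_mul_of_nonneg_left (sum_inv_sq_Ioc_le T (T ^ L) (by omega)) (sq_nonneg _)
    _ = _ := by ring

lemma bound_CF {M : ℕ} (hT : 1 ≤ T) (hw : ∀ D ∈ dset T (T ^ L), |w D| ≤ Cw) (hCw : 0 ≤ Cw)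
    {n : ℕ} (hn0 : 0 < n) (hn : n ≤ T ^ M) (hr : Rough T n) :
    |∑ D ∈ dset T (T ^ L), w D * (if D ∣ n then 1 else 0)| ≤ Cw * 2 ^ M := by
  calc |∑ D ∈ dset T (T ^ L), w D * (if D ∣ n then 1 else 0)|
      ≤ ∑ D ∈ dset T (T ^ L), |w D * (if D ∣ n then 1 else 0)| := abs_sum_le_sum_abs _ _
    _ ≤ ∑ D ∈ dset T (T ^ L), (if D ∣ n then Cw else 0) := by
        apply sum_le_sum
        intro D hD
        split_ifs
        · rw [mul_one]; exact hw D hD
        · simp
    _ = #((dset T (T ^ L)).filter (fun D => D ∣ n)) * Cw := by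
        rw [← sum_filter, sum_const, nsmul_eq_mul]
    _ ≤ (2 : ℝ) ^ M * Cw := by
        apply mul_le_mul_of_nonneg_right _ hCw
        have h1 : #((dset T (T ^ L)).filter (fun D => D ∣ n)) ≤ 2 ^ M := by
          calc _ ≤ #(n.divisors.filter Squarefree) := by
                apply card_le_card
                intro D hD
                have h2 := mem_filter.mp hD
                exact mem_filter.mpr ⟨Nat.mem_divisors.mpr ⟨h2.2, by omega⟩, (mem_dset.mp h2.1).2⟩
            _ ≤ 2 ^ #n.primeFactors := card_sqfree_divisors_le n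
            _ ≤ 2 ^ M := Nat.pow_le_pow_right (by norm_num) (card_primeFactors_le hT hn0 hn hr)
        exact_mod_cast h1
    _ = _ := mul_comm _ _

end

lemma KT_le_VV (u T : ℕ) : KT T ≤ VV u T := by
  unfold KT VV
  have hsub : prI u T ⊆ prI 0 T := by
    intro p hp
    have := mem_prI.mp hp
    exact mem_prI.mpr ⟨⟨this.2.pos, this.1.2⟩, this.2⟩
  rw [← prod_sdiff hsub]
  have h1 : ∏ p ∈ prI 0 T \ prI u T, (1 - 1 / (p : ℝ)) ≤ 1 := by
    apply prod_le_one
    · intro p hp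
      exact (one_sub_inv_pos (mem_prI.mp (mem_sdiff.mp hp).1).2).le
    · intro p _
      have : 0 ≤ 1 / (p : ℝ) := by positivity
      linarith
  have h2 : 0 ≤ ∏ p ∈ prI u T, (1 - 1 / (p : ℝ)) :=
    prod_nonneg fun p hp => (one_sub_inv_pos (mem_prI.mp hp).2).le
  calc _ ≤ 1 * ∏ p ∈ prI u T, (1 - 1 / (p : ℝ)) := mul_le_mul_of_nonneg_right h1 h2
    _ = _ := one_mul _

lemma VV_le_one (u T : ℕ) : VV u T ≤ 1 := by
  unfold VV
  apply prod_le_one
  · intro p hp
    exact (one_sub_inv_pos (mem_prI.mp hp).2).le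
  · intro p _
    have : 0 ≤ 1 / (p : ℝ) := by positivity
    linarith

/-- the choice of the sieve parameter -/
lemma exists_b_choice (L0 cK ε : ℝ) (hL0 : 1 ≤ L0) (hcK : 0 < cK) (hε : 0 < ε) :
    ∃ b0 : ℕ, ∀ b : ℕ, b0 ≤ b →
      flEta L0 (2 * b ^ 2) * ((100 * 8 ^ (297 * b ^ 2)) * (((297 * b ^ 2 : ℕ) : ℝ) / cK)) ^ 2
        ≤ ε * (1 / (2000 * (b : ℝ) ^ 2)) ^ 2 ∧ flEta L0 (2 * b ^ 2) ≤ 1 := by
  set a : ℝ := 4 * L0 * 8 ^ 297 with ha
  set c : ℝ := (100 * 297 * 2000 / cK) ^ 2 with hc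
  have hc0 : 0 < c := by rw [hc]; positivity
  have h1 := FloorSemiring.tendsto_pow_div_factorial_atTop a
  have h2 := h1.eventually (gt_mem_nhds (show (0 : ℝ) < min (ε / c) 1 by positivity))
  obtain ⟨n0, hn0⟩ := Filter.eventually_atTop.mp h2
  refine ⟨n0 + 1, ?_⟩
  intro b hb
  set k := b ^ 2 with hk
  have hbk : b ≤ k := by rw [hk]; nlinarith
  have hk1 : 1 ≤ k := by omega
  have h3 := hn0 (2 * k) (by omega)
  have hfac : (0 : ℝ) < ((2 * k).factorial : ℝ) := by positivity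
  have hkr : (k : ℝ) ≤ 2 ^ k := by exact_mod_cast (Nat.lt_two_pow_self).le
  have hk0 : (0 : ℝ) < k := by exact_mod_cast hk1
  have hkb : (b : ℝ) ^ 2 = k := by rw [hk]; push_cast; ring
  have key : flEta L0 (2 * k) * ((8 : ℝ) ^ (297 * k)) ^ 2 * (k : ℝ) ^ 4
      ≤ a ^ (2 * k) / (2 * k).factorial := by
    unfold flEta
    rw [ha]
    have e1 : (4 * L0 * 8 ^ 297) ^ (2 * k) = L0 ^ (2 * k) * ((8 : ℝ) ^ (297 * k)) ^ 2
        * ((2 : ℝ) ^ k) ^ 4 := by
      rw [mul_pow, mul_pow, ← pow_mul, ← pow_mul, ← pow_mul]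
      have : (4 : ℝ) = 2 ^ 2 := by norm_num
      rw [this, ← pow_mul, show 2 * (2 * k) = k * 4 by ring,
        show 297 * (2 * k) = 297 * k * 2 by ring]
      ring
    rw [e1]
    have e2 : L0 ^ (2 * k) / ((2 * k).factorial : ℝ) * ((8 : ℝ) ^ (297 * k)) ^ 2 * (k : ℝ) ^ 4
        = L0 ^ (2 * k) * ((8 : ℝ) ^ (297 * k)) ^ 2 * (k : ℝ) ^ 4 / ((2 * k).factorial : ℝ) := by
      ring
    rw [e2]
    gcongr
  constructor
  · rw [hkb]
    have e3 : flEta L0 (2 * k) * (100 * 8 ^ (297 * k) * (((297 * k : ℕ) : ℝ) / cK)) ^ 2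
        = flEta L0 (2 * k) * ((8 : ℝ) ^ (297 * k)) ^ 2 * (k : ℝ) ^ 4 * c
          * (1 / (2000 * (k : ℝ))) ^ 2 := by
      rw [hc]
      push_cast
      field_simp
    rw [e3]
    apply mul_le_mul_of_nonneg_right _ (by positivity)
    have h4 : flEta L0 (2 * k) * ((8 : ℝ) ^ (297 * k)) ^ 2 * (k : ℝ) ^ 4 ≤ ε / c :=
      key.trans (h3.le.trans (min_le_left _ _))
    calc _ ≤ ε / c * c := mul_le_mul_of_nonneg_right h4 hc0.le
      _ = ε := div_mul_cancel₀ _ hc0.ne'
  · have h5 : flEta L0 (2 * k) ≤ flEta L0 (2 * k) * ((8 : ℝ) ^ (297 * k)) ^ 2 * (k : ℝ) ^ 4 := by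
      have h6 : (1 : ℝ) ≤ ((8 : ℝ) ^ (297 * k)) ^ 2 := one_le_pow₀ (one_le_pow₀ (by norm_num))
      have h7 : (1 : ℝ) ≤ (k : ℝ) ^ 4 := one_le_pow₀ (by exact_mod_cast hk1)
      have h8 : 0 ≤ flEta L0 (2 * k) := by unfold flEta; positivity
      calc flEta L0 (2 * k) = flEta L0 (2 * k) * 1 * 1 := by ring
        _ ≤ _ := by gcongr
    exact h5.trans (key.trans (h3.le.trans (min_le_right _ _)))

end Pool.Agent.Lib.MP_bae66e_nt.AP3
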