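import Pool.Agent.Lib.MP_bae66e_nt.AP3.Bounds

/-!
# Exceptions in a residue class
-/

set_option autoImplicit false

namespace Pool.Agent.Lib.MP_bae66e_nt.AP3

open Finset Nat Filter Topology

/-- starting point of the dyadic blocks -/
noncomputable def y0f (C1 b T : ℕ) : ℕ :=
  ⌈(C1 : ℝ) * (600 * (b : ℝ) ^ 2 * Real.log T) * Real.log (600 * (b : ℝ) ^ 2 * Real.log T)⌉₊

lemma ev_log_sq_le (δ : ℝ) (hδ : 0 < δ) :
    ∀ᶠ y : ℝ in atTop, Real.log y ^ 2 ≤ δ * Real.sqrt y := by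
  have h := (isLittleO_log_rpow_atTop (show (0 : ℝ) < 1 / 4 by norm_num)).bound
    (show 0 < Real.sqrt δ from Real.sqrt_pos.mpr hδ)
  filter_upwards [h, eventually_ge_atTop (1 : ℝ)] with y hy hy1
  have h0 : 0 ≤ Real.log y := Real.log_nonneg hy1
  have h1 : 0 ≤ y ^ ((1 : ℝ) / 4) := by positivity
  rw [Real.norm_of_nonneg h0, Real.norm_of_nonneg h1] at hy
  calc Real.log y ^ 2 ≤ (Real.sqrt δ * y ^ ((1 : ℝ) / 4)) ^ 2 := by gcongr
    _ = δ * Real.sqrt y := by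
        rw [mul_pow, Real.sq_sqrt hδ.le, Real.sqrt_eq_rpow, ← Real.rpow_natCast,
          ← Real.rpow_mul (by linarith)]
        norm_num

lemma ev_block (J C1 : ℕ) :
    ∀ᶠ n : ℝ in atTop, 2 ^ J * ((C1 : ℝ) * n * Real.log n + 1) ≤ n ^ 2 := by
  have hδ : (0 : ℝ) < 1 / (2 ^ (J + 1) * (C1 + 1)) := by positivity
  have h := Real.isLittleO_log_id_atTop.bound hδ
  filter_upwards [h, eventually_ge_atTop (2 ^ (J + 1) + 1 : ℝ)] with n hn hn1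
  have hp1 : (1 : ℝ) ≤ 2 ^ (J + 1) := one_le_pow₀ (by norm_num)
  have hn2 : (1 : ℝ) ≤ n := by linarith
  have hn0 : (0 : ℝ) < n := by linarith
  have h0 : 0 ≤ Real.log n := Real.log_nonneg hn2
  simp only [id] at hn
  rw [Real.norm_of_nonneg h0, Real.norm_of_nonneg hn0.le] at hn
  have hp : (0 : ℝ) < 2 ^ J := by positivity
  have hC : (C1 : ℝ) / (C1 + 1) ≤ 1 := by
    rw [div_le_one (by positivity)]; linarith
  have h1 : 2 ^ J * ((C1 : ℝ) * n * Real.log n) ≤ n ^ 2 / 2 := by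
    calc 2 ^ J * ((C1 : ℝ) * n * Real.log n)
        ≤ 2 ^ J * ((C1 : ℝ) * n * (1 / (2 ^ (J + 1) * (C1 + 1)) * n)) := by gcongr
      _ = (C1 / (C1 + 1)) * (n ^ 2 / 2) := by
          rw [pow_succ]; field_simp
      _ ≤ 1 * (n ^ 2 / 2) := by gcongr
      _ = _ := one_mul _
  have h2 : (2 : ℝ) ^ J ≤ n ^ 2 / 2 := by
    have : (2 : ℝ) ^ (J + 1) ≤ n ^ 2 := by
      calc (2 : ℝ) ^ (J + 1) ≤ n * 1 := by linarith only [hn1]
        _ ≤ n * n := by gcongr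
        _ = n ^ 2 := by ring
    rw [pow_succ] at this
    linarith
  linarith

lemma tendsto_nn (b : ℕ) (hb : 1 ≤ b) :
    Tendsto (fun T : ℕ => 600 * (b : ℝ) ^ 2 * Real.log T) atTop atTop := by
  apply Tendsto.const_mul_atTop
  · have : (1 : ℝ) ≤ b := by exact_mod_cast hb
    positivity
  · exact Real.tendsto_log_atTop.comp tendsto_natCast_atTop_atTop

lemma ev_sq_lt (b : ℕ) : ∀ᶠ T : ℕ in atTop, (600 * (b : ℝ) ^ 2 * Real.log T) ^ 2 < T := by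
  have hδ : (0 : ℝ) < 1 / (2 * ((600 * (b : ℝ) ^ 2) ^ 2 + 1)) := by positivity
  have h := (Real.isLittleO_pow_log_id_atTop (n := 2)).bound hδ
  have h2 := tendsto_natCast_atTop_atTop.eventually h
  filter_upwards [h2, eventually_ge_atTop 1] with T hT hT1
  have hT0 : (0 : ℝ) < T := by exact_mod_cast hT1
  simp only [id] at hT
  rw [Real.norm_of_nonneg (sq_nonneg _), Real.norm_of_nonneg hT0.le] at hT
  have h3 : (600 * (b : ℝ) ^ 2) ^ 2 * (1 / (2 * ((600 * (b : ℝ) ^ 2) ^ 2 + 1))) ≤ 1 / 2 := by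
    rw [mul_one_div, div_le_div_iff₀ (by positivity) (by norm_num)]
    linarith
  calc (600 * (b : ℝ) ^ 2 * Real.log T) ^ 2 = (600 * (b : ℝ) ^ 2) ^ 2 * Real.log T ^ 2 := by ring
    _ ≤ (600 * (b : ℝ) ^ 2) ^ 2 * (1 / (2 * ((600 * (b : ℝ) ^ 2) ^ 2 + 1)) * T) := by gcongr
    _ = ((600 * (b : ℝ) ^ 2) ^ 2 * (1 / (2 * ((600 * (b : ℝ) ^ 2) ^ 2 + 1)))) * T := by ring
    _ ≤ 1 / 2 * T := by gcongr
    _ < T := by linarith

/-- real inequality for the remainder -/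
lemma h5_real (Tr CF Cw B1b B0 P VM X W ε c2 C5 G : ℝ) (k : ℕ) (hT : 1 ≤ Tr) (hCw : 0 ≤ Cw)
    (hB1b : 0 ≤ B1b) (hB0 : 0 ≤ B0) (hP : 1 ≤ P) (hVM0 : 0 ≤ VM) (hW : 0 < W) (hε : 0 < ε)
    (hc2 : 0 < c2) (hG : G ≤ Tr ^ (594 * k)) (hG2 : G ^ 2 = Tr ^ (594 * k)) (hG0 : 0 ≤ G)
    (hB0le : B0 ≤ Cw * G) (hVMle : VM ≤ B1b)
    (hC5 : C5 = CF ^ 2 + Cw ^ 2 + 2 * Cw * B1b + B1b ^ 2)
    (hTC5 : 32 * W * C5 / (ε * c2) ≤ Tr) (hVMsq : c2 / Tr ^ 2 ≤ VM ^ 2)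
    (hX : Tr ^ (598 * k + 5) * Tr ^ 3 / (4 * W) ≤ X) :
    Tr ^ (4 * k + 5) * (CF ^ 2 / P + B0 ^ 2 + 2 * B0 * VM) + VM ^ 2 ≤ ε / 8 * X * VM ^ 2 := by
  have hT0 : 0 < Tr := by linarith
  have hP0 : 0 < P := by linarith
  obtain ⟨A1, hA1⟩ : ∃ A1 : ℝ, A1 = Tr ^ (594 * k) := ⟨_, rfl⟩
  obtain ⟨A2, hA2⟩ : ∃ A2 : ℝ, A2 = Tr ^ (4 * k + 5) := ⟨_, rfl⟩
  obtain ⟨A3, hA3⟩ : ∃ A3 : ℝ, A3 = Tr ^ (598 * k + 5) := ⟨_, rfl⟩
  have h1 : 1 ≤ A1 := by rw [hA1]; exact one_le_pow₀ hT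
  have h2 : 1 ≤ A2 := by rw [hA2]; exact one_le_pow₀ hT
  have h3 : 1 ≤ A3 := by rw [hA3]; exact one_le_pow₀ hT
  have h123 : A2 * A1 = A3 := by
    rw [hA1, hA2, hA3, ← pow_add, show 4 * k + 5 + 594 * k = 598 * k + 5 by ring]
  rw [← hA1] at hG hG2
  rw [← hA3] at hX
  rw [← hA2]
  have f1 : CF ^ 2 / P ≤ CF ^ 2 * A1 := by
    rw [div_le_iff₀ hP0]
    have : CF ^ 2 * 1 * 1 ≤ CF ^ 2 * A1 * P := by gcongr
    linarith
  have f2 : B0 ^ 2 ≤ Cw ^ 2 * A1 := by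
    calc B0 ^ 2 ≤ (Cw * G) ^ 2 := by gcongr
      _ = Cw ^ 2 * A1 := by rw [mul_pow, hG2]
  have f3 : 2 * B0 * VM ≤ 2 * Cw * B1b * A1 := by
    calc 2 * B0 * VM ≤ 2 * (Cw * A1) * B1b := by
          have : B0 ≤ Cw * A1 := hB0le.trans (by gcongr)
          gcongr
      _ = _ := by ring
  have f4 : VM ^ 2 ≤ B1b ^ 2 * A3 := by
    calc VM ^ 2 ≤ B1b ^ 2 := by gcongr
      _ = B1b ^ 2 * 1 := (mul_one _).symm
      _ ≤ B1b ^ 2 * A3 := by gcongr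
  have f5 : A2 * (CF ^ 2 / P + B0 ^ 2 + 2 * B0 * VM) ≤ (CF ^ 2 + Cw ^ 2 + 2 * Cw * B1b) * A3 := by
    have g1 : CF ^ 2 / P + B0 ^ 2 + 2 * B0 * VM ≤ (CF ^ 2 + Cw ^ 2 + 2 * Cw * B1b) * A1 := by
      linarith
    calc _ ≤ A2 * ((CF ^ 2 + Cw ^ 2 + 2 * Cw * B1b) * A1) := by
          apply mul_le_mul_of_nonneg_left g1
          linarith
      _ = (CF ^ 2 + Cw ^ 2 + 2 * Cw * B1b) * (A2 * A1) := by ring
      _ = _ := by rw [h123]
  rw [div_le_iff₀ (by positivity)] at hTC5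
  have f7 : C5 * A3 ≤ ε / 8 * (A3 * Tr ^ 3 / (4 * W)) * (c2 / Tr ^ 2) := by
    have e1 : ε / 8 * (A3 * Tr ^ 3 / (4 * W)) * (c2 / Tr ^ 2) = (Tr * (ε * c2)) / (32 * W) * A3 := by
      field_simp
      ring
    rw [e1]
    apply mul_le_mul_of_nonneg_right _ (by linarith)
    rw [le_div_iff₀ (by positivity)]
    linarith
  calc _ ≤ C5 * A3 := by rw [hC5]; linarith
    _ ≤ _ := f7
    _ ≤ ε / 8 * X * VM ^ 2 := by
        have hA30 : 0 ≤ A3 := by linarith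
        have hX0 : 0 ≤ X := le_trans (by positivity) hX
        gcongr

/-- real inequality for the diagonal -/
lemma h4_real (CF ε P V M n bb lT c' cK C1 : ℝ) (hε : 0 < ε) (hbb : 0 < bb) (hlT : 0 < lT)
    (hc' : 0 < c') (hcK : 0 < cK) (hC1 : 0 < C1) (hn : n = 600 * bb * lT)
    (hC1le : 32 * CF ^ 2 * (2000 * bb) ^ 2 ≤ C1 * (ε * (300 * bb * c' * cK)))
    (hP : c' * (C1 * n / 2) ≤ P) (hV : cK / lT ≤ V) (hM : 1 / (2000 * bb) ≤ M) :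
    2 * CF ^ 2 ≤ ε / 16 * (P * V * M ^ 2) := by
  have hn0 : 0 < n := by rw [hn]; positivity
  have hP0 : 0 ≤ P := le_trans (by positivity) hP
  have e1 : c' * (C1 * n / 2) * (cK / lT) = C1 * (300 * bb * c' * cK) := by
    rw [hn]; field_simp; ring
  have e2 : C1 * (300 * bb * c' * cK) ≤ P * V := by
    rw [← e1]; gcongr
  have hPV : 0 ≤ P * V := le_trans (by positivity) e2
  have e3 : C1 * (300 * bb * c' * cK) * (1 / (2000 * bb)) ^ 2 ≤ P * V * M ^ 2 := by gcongr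
  have e4 : 32 * CF ^ 2 ≤ ε * (C1 * (300 * bb * c' * cK) * (1 / (2000 * bb)) ^ 2) := by
    have e5 : ε * (C1 * (300 * bb * c' * cK) * (1 / (2000 * bb)) ^ 2)
        = C1 * (ε * (300 * bb * c' * cK)) / (2000 * bb) ^ 2 := by
      field_simp
    rw [e5, le_div_iff₀ (by positivity)]
    exact hC1le
  have e6 := mul_le_mul_of_nonneg_left e3 hε.le
  linarith

/-- real inequality for the pair sums -/
lemma pair_real (S V P u y ly ρ c' cK KK : ℝ) (hρ : 0 < ρ) (hcK : 0 < cK) (hc' : 0 < c')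
    (hy : 0 < y) (hly : 0 < ly) (hP : 0 ≤ P)
    (h1 : S ≤ V ^ 2 * (P * (P + (64 / (u - 1) * (y / ly) + 2 * Real.sqrt y * KK))))
    (hρu : 64 / (u - 1) ≤ ρ / 2 * c') (hcard : c' * (y / ly) ≤ P) (hKK : KK ≤ ly / cK)
    (h5 : ly ^ 2 ≤ ρ * c' * cK / 4 * Real.sqrt y) :
    S ≤ V ^ 2 * P ^ 2 * (1 + ρ) := by
  refine h1.trans ?_
  have h2 : 64 / (u - 1) * (y / ly) ≤ ρ / 2 * P := by
    calc 64 / (u - 1) * (y / ly) ≤ (ρ / 2 * c') * (y / ly) := by gcongr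
      _ = ρ / 2 * (c' * (y / ly)) := by ring
      _ ≤ ρ / 2 * P := by gcongr
  have h3 : 2 * Real.sqrt y * KK ≤ ρ / 2 * P := by
    have hsy : 0 < Real.sqrt y := Real.sqrt_pos.mpr hy
    have hsy2 : Real.sqrt y * Real.sqrt y = y := Real.mul_self_sqrt hy.le
    calc 2 * Real.sqrt y * KK ≤ 2 * Real.sqrt y * (ly / cK) := by gcongr
      _ = 2 * Real.sqrt y * (ly ^ 2) / (cK * ly) := by field_simp
      _ ≤ 2 * Real.sqrt y * (ρ * c' * cK / 4 * Real.sqrt y) / (cK * ly) := by gcongr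
      _ = ρ / 2 * (c' * ((Real.sqrt y * Real.sqrt y) / ly)) := by field_simp; ring
      _ = ρ / 2 * (c' * (y / ly)) := by rw [hsy2]
      _ ≤ ρ / 2 * P := by gcongr
  have h4 : P + (64 / (u - 1) * (y / ly) + 2 * Real.sqrt y * KK) ≤ P * (1 + ρ) := by
    linarith
  calc V ^ 2 * (P * (P + (64 / (u - 1) * (y / ly) + 2 * Real.sqrt y * KK)))
      ≤ V ^ 2 * (P * (P * (1 + ρ))) := by gcongr
    _ = _ := by ring

/-- the density of exceptions in a class -/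
theorem exists_class_bad (ε : ℝ) (hε : 0 < ε) :
    ∃ u b J C1 : ℕ, 3 ≤ u ∧ 1 ≤ b ∧ ∀ᶠ T : ℕ in atTop,
      u ≤ T ∧ Par T (T ^ (99 * b ^ 2)) (T ^ (200 * b ^ 2)) (T ^ (600 * b ^ 2)) ∧
      2 ^ J * y0f C1 b T < T ∧
      ∀ A B : ℕ, T ≤ A → A < B → B ≤ T ^ (600 * b ^ 2) →
      ((T : ℝ) ^ (600 * b ^ 2)) / 4 ≤ (B : ℝ) - A → ∀ β : ℕ, 2 ∣ β →
      ∃ P : Finset ℕ, (∀ p ∈ P, p.Prime ∧ p ≤ 2 ^ J * y0f C1 b T) ∧
      (#((Mset A B (prm u) β).filter (fun m => Sm T (dset T (T ^ (297 * b ^ 2)))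
        (ww T (T ^ (99 * b ^ 2)) (T ^ (200 * b ^ 2)) (T ^ (600 * b ^ 2))) P m ≤ 0)) : ℝ)
        ≤ ε * (((B : ℝ) - A) / prm u) := by
  obtain ⟨L0, hL01, bfl, hfl⟩ := exists_fl
  obtain ⟨cK, hcK, hK⟩ := exists_KT_ge
  obtain ⟨bm, hbm1, hbm⟩ := exists_MM_ge
  -- choice of `u`
  obtain ⟨ρ, hρ⟩ : ∃ ρ : ℝ, ρ = min (ε / 8) 1 := ⟨_, rfl⟩
  have hρ0 : 0 < ρ := by rw [hρ]; positivity
  have hρ1 : ρ ≤ 1 := by rw [hρ]; exact min_le_right _ _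
  have hρε : ρ ≤ ε / 8 := by rw [hρ]; exact min_le_left _ _
  obtain ⟨u, hu⟩ : ∃ u : ℕ, u = ⌈(3072 / ρ) ^ 2⌉₊ + 3 := ⟨_, rfl⟩
  have hu3 : 3 ≤ u := by omega
  have huρ : (3072 / ρ) ^ 2 ≤ u := by
    rw [hu]; push_cast
    have := Nat.le_ceil ((3072 / ρ) ^ 2)
    linarith
  have hu0 : (3 : ℝ) ≤ u := by exact_mod_cast hu3
  have hsu : 3072 / ρ ≤ Real.sqrt u := by
    rw [← Real.sqrt_sq (by positivity : 0 ≤ 3072 / ρ)]
    exact Real.sqrt_le_sqrt huρ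
  have hsu0 : 0 < Real.sqrt u := Real.sqrt_pos.mpr (by linarith)
  obtain ⟨c', hc'⟩ : ∃ c' : ℝ, c' = 1 / (12 * Real.sqrt u) := ⟨_, rfl⟩
  have hc'0 : 0 < c' := by rw [hc']; positivity
  have hρu : 64 / ((u : ℝ) - 1) ≤ ρ / 2 * c' := by
    rw [hc', mul_one_div, div_le_div_iff₀ (by linarith) (by positivity)]
    rw [div_le_iff₀ hρ0] at hsu
    have h1 : Real.sqrt u * Real.sqrt u = u := Real.mul_self_sqrt (by linarith)
    calc 64 * (12 * Real.sqrt u) = 3072 * (Real.sqrt u / 4) := by ring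
      _ ≤ (Real.sqrt u * ρ) * (Real.sqrt u / 4) := by gcongr
      _ = ρ / 4 * (Real.sqrt u * Real.sqrt u) := by ring
      _ = ρ / 4 * u := by rw [h1]
      _ ≤ ρ / 4 * (2 * ((u : ℝ) - 1)) := by gcongr; linarith
      _ = ρ / 2 * ((u : ℝ) - 1) := by ring
  obtain ⟨J, hJ⟩ := exists_block u (by omega)
  -- choice of `b`
  obtain ⟨bc, hbc⟩ := exists_b_choice L0 cK (ε / 32) hL01 hcK (by positivity)
  obtain ⟨b, hb⟩ : ∃ b : ℕ, b = bfl + bm + bc + 2 := ⟨_, rfl⟩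
  have hb2 : 2 ≤ b := by omega
  have hb1 : 1 ≤ b := by omega
  have hbself : b ≤ b ^ 2 := Nat.le_self_pow (by norm_num) b
  have hbb : 1 ≤ b ^ 2 := Nat.one_le_pow _ _ hb1
  have hbsq : b ≤ 2 * b ^ 2 := by omega
  obtain ⟨Tm, hTm2, hTm⟩ := hbm b (by omega)
  obtain ⟨Tf, hTf2, hTf⟩ := hfl (2 * b ^ 2) (by omega)
  obtain ⟨hη, hη1⟩ := hbc b (by omega)
  obtain ⟨η, hηdef⟩ : ∃ η : ℝ, η = flEta L0 (2 * b ^ 2) := ⟨_, rfl⟩
  rw [← hηdef] at hη hη1 hTf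
  have hη0 : 0 ≤ η := by rw [hηdef]; unfold flEta; positivity
  obtain ⟨k, hk⟩ : ∃ k : ℕ, k = b ^ 2 := ⟨_, rfl⟩
  have hk4 : 4 ≤ k := by
    rw [hk]
    calc 4 = 2 ^ 2 := by norm_num
      _ ≤ b ^ 2 := Nat.pow_le_pow_left hb2 2
  have hkr : (k : ℝ) = (b : ℝ) ^ 2 := by rw [hk]; push_cast; ring
  have hk0 : (0 : ℝ) < k := by exact_mod_cast (by omega : 0 < k)
  obtain ⟨Cw, hCw⟩ : ∃ Cw : ℝ, Cw = 100 * 8 ^ (297 * b ^ 2) := ⟨_, rfl⟩
  have hCw0 : 0 < Cw := by rw [hCw]; positivity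
  obtain ⟨CF, hCF⟩ : ∃ CF : ℝ, CF = Cw * 2 ^ (600 * b ^ 2) := ⟨_, rfl⟩
  have hCF0 : 0 < CF := by rw [hCF]; positivity
  obtain ⟨B1b, hB1b⟩ : ∃ B1b : ℝ, B1b = Cw * (((297 * b ^ 2 : ℕ) : ℝ) / cK) := ⟨_, rfl⟩
  have hB1b0 : 0 < B1b := by
    rw [hB1b]
    have : (0 : ℝ) < ((297 * b ^ 2 : ℕ) : ℝ) := by positivity
    positivity
  rw [← hCw, ← hB1b] at hη
  -- choice of `C1`
  obtain ⟨C1, hC1⟩ : ∃ C1 : ℕ,
    C1 = ⌈32 * CF ^ 2 * (2000 * (b : ℝ) ^ 2) ^ 2 / (ε * (300 * (b : ℝ) ^ 2 * c' * cK))⌉₊ + 1 :=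
    ⟨_, rfl⟩
  have hb0' : (0 : ℝ) < b := by positivity
  have hC1le : 32 * CF ^ 2 * (2000 * (b : ℝ) ^ 2) ^ 2
      ≤ C1 * (ε * (300 * (b : ℝ) ^ 2 * c' * cK)) := by
    rw [← div_le_iff₀ (by positivity), hC1]
    push_cast
    have := Nat.le_ceil (32 * CF ^ 2 * (2000 * (b : ℝ) ^ 2) ^ 2
      / (ε * (300 * (b : ℝ) ^ 2 * c' * cK)))
    linarith
  have hC11 : (1 : ℝ) ≤ C1 := by
    rw [hC1]; push_cast
    have : (0 : ℝ) ≤ (⌈32 * CF ^ 2 * (2000 * (b : ℝ) ^ 2) ^ 2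
      / (ε * (300 * (b : ℝ) ^ 2 * c' * cK))⌉₊ : ℝ) := by positivity
    linarith
  obtain ⟨W, hW⟩ : ∃ W : ℕ, W = prm u := ⟨_, rfl⟩
  have hW0 : 0 < W := hW ▸ prm_pos u
  have hW0' : (0 : ℝ) < W := by exact_mod_cast hW0
  refine ⟨u, b, J, C1, hu3, hb1, ?_⟩
  rw [← hW]
  obtain ⟨c2, hc2⟩ : ∃ c2 : ℝ, c2 = (cK / (2000 * (b : ℝ) ^ 2)) ^ 2 := ⟨_, rfl⟩
  have hc20 : 0 < c2 := by rw [hc2]; positivity
  obtain ⟨C5, hC5⟩ : ∃ C5 : ℝ, C5 = CF ^ 2 + Cw ^ 2 + 2 * Cw * B1b + B1b ^ 2 := ⟨_, rfl⟩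
  have hC50 : 0 < C5 := by rw [hC5]; positivity
  have evY := ev_log_sq_le (ρ * c' * cK / 4) (by positivity)
  obtain ⟨Yb, hYb⟩ := eventually_atTop.mp evY
  have evn := tendsto_nn b hb1
  filter_upwards [eventually_ge_atTop Tm, eventually_ge_atTop Tf, ev_sq_lt b,
    evn.eventually (ev_block J C1), evn.eventually (eventually_ge_atTop (max (Real.exp 1) (max Yb u))),
    eventually_ge_atTop (2 * (99 * b ^ 2)), eventually_ge_atTop u,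
    eventually_ge_atTop ⌈B1b ^ 2 * (2000 * (b : ℝ) ^ 2) ^ 2 * 32 / ε⌉₊,
    eventually_ge_atTop ⌈32 * W * C5 / (ε * c2)⌉₊]
    with T hTm' hTf' hnT hblk hnbig hT99 huT hTBg hTC5
  have hT2 : 2 ≤ T := hTm2.trans hTm'
  have hT0' : (0 : ℝ) < T := by positivity
  have hlT : 0 < Real.log T := Real.log_pos (by exact_mod_cast hT2)
  obtain ⟨n, hn⟩ : ∃ n : ℝ, n = 600 * (b : ℝ) ^ 2 * Real.log T := ⟨_, rfl⟩
  rw [← hn] at hnT hblk hnbig
  have hne : Real.exp 1 ≤ n := (le_max_left _ _).trans hnbig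
  have hnY : Yb ≤ n := (le_max_left _ _).trans ((le_max_right _ _).trans hnbig)
  have hnu : (u : ℝ) ≤ n := (le_max_right _ _).trans ((le_max_right _ _).trans hnbig)
  have hn0 : 0 < n := lt_of_lt_of_le (Real.exp_pos 1) hne
  have hlogn : 1 ≤ Real.log n := by
    rw [Real.le_log_iff_exp_le hn0]; exact hne
  obtain ⟨y0, hy0⟩ : ∃ y0 : ℕ, y0 = y0f C1 b T := ⟨_, rfl⟩
  have hy0lo : (C1 : ℝ) * n * Real.log n ≤ y0 := by
    rw [hy0, hn]; exact Nat.le_ceil _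
  have hy0hi : (y0 : ℝ) ≤ (C1 : ℝ) * n * Real.log n + 1 := by
    rw [hy0, hn]
    apply (Nat.ceil_lt_add_one _).le
    rw [← hn]
    positivity
  have hy0n : n ≤ y0 := by
    calc n = 1 * n * 1 := by ring
      _ ≤ C1 * n * Real.log n := by gcongr
      _ ≤ y0 := hy0lo
  have hblk2 : (2 : ℝ) ^ J * y0 ≤ n ^ 2 := by
    refine le_trans ?_ hblk
    gcongr
  have hy0T : 2 ^ J * y0 < T := by
    have : (2 : ℝ) ^ J * y0 < T := hblk2.trans_lt hnT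
    exact_mod_cast this
  have hTpow : ∀ a c : ℕ, a ≤ c → T ^ (a * b ^ 2) ≤ T ^ (c * b ^ 2) := fun a c h =>
    Nat.pow_le_pow_right (by omega) (Nat.mul_le_mul_right _ h)
  have hpar : Par T (T ^ (99 * b ^ 2)) (T ^ (200 * b ^ 2)) (T ^ (600 * b ^ 2)) := by
    refine ⟨hT2, ?_, hTpow 99 200 (by norm_num), ?_, ?_⟩
    · calc T = T ^ 1 := (pow_one T).symm
        _ ≤ T ^ (99 * b ^ 2) := Nat.pow_le_pow_right (by omega) (by omega)
    · rw [← pow_mul]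
      exact Nat.pow_le_pow_right (by omega) (by omega)
    · rw [← pow_mul]
      congr 1; ring
  refine ⟨huT, hpar, by rw [← hy0]; exact hy0T, ?_⟩
  rw [← hy0]
  intro A B hTA hAB hBN hlen β hβ
  -- the block
  have hy02 : 2 ≤ y0 := by
    have h1 : (3 : ℝ) ≤ y0 := hu0.trans (hnu.trans hy0n)
    have : 3 ≤ y0 := by exact_mod_cast h1
    omega
  obtain ⟨i, hiJ, hcard⟩ := hJ β hβ y0 hy02
  obtain ⟨y, hy⟩ : ∃ y : ℕ, y = 2 ^ i * y0 := ⟨_, rfl⟩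
  rw [← hy, ← hc'] at hcard
  have hyy0 : y0 ≤ y := by rw [hy]; exact Nat.le_mul_of_pos_left _ (by positivity)
  have h2y : 2 * y ≤ 2 ^ J * y0 := by
    rw [hy, ← mul_assoc, ← pow_succ']
    exact Nat.mul_le_mul_right _ (Nat.pow_le_pow_right (by norm_num) hiJ)
  have hyr : (y0 : ℝ) ≤ y := by exact_mod_cast hyy0
  have hny : n ≤ y := hy0n.trans hyr
  have hy0p : (0 : ℝ) < y := hn0.trans_le hny
  have huy : u ≤ y := by
    have : (u : ℝ) ≤ y := hnu.trans hny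
    exact_mod_cast this
  have hy2 : 2 ≤ y := hy02.trans hyy0
  have hly : 0 < Real.log y := Real.log_pos (by exact_mod_cast hy2)
  have hlogy : Real.log y ≤ 2 * Real.log n := by
    have h1 : (y : ℝ) ≤ n ^ 2 := by
      have h2 : ((2 * y : ℕ) : ℝ) ≤ ((2 ^ J * y0 : ℕ) : ℝ) := by exact_mod_cast h2y
      push_cast at h2
      linarith
    calc Real.log y ≤ Real.log (n ^ 2) := Real.log_le_log hy0p h1
      _ = 2 * Real.log n := by rw [Real.log_pow]; push_cast; ring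
  obtain ⟨P, hP⟩ : ∃ P : Finset ℕ, P = Pgood u β y (2 * y) := ⟨_, rfl⟩
  rw [← hP] at hcard
  have hPsub : P ⊆ prI y (2 * y) := by rw [hP]; exact filter_subset _ _
  have hPmem : ∀ p ∈ P, p.Prime ∧ p ≤ 2 ^ J * y0 := by
    intro p hp
    have := mem_prI.mp (hPsub hp)
    exact ⟨this.2, this.1.2.trans h2y⟩
  refine ⟨P, hPmem, ?_⟩
  have hPT : ∀ p ∈ P, p < T := fun p hp => (hPmem p hp).2.trans_lt hy0T
  -- size of `P`
  have hyl : C1 * n / 2 ≤ (y : ℝ) / Real.log y := by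
    rw [div_le_div_iff₀ (by norm_num) hly]
    calc C1 * n * Real.log y ≤ C1 * n * (2 * Real.log n) := by gcongr
      _ = (C1 * n * Real.log n) * 2 := by ring
      _ ≤ y * 2 := by
          apply mul_le_mul_of_nonneg_right (hy0lo.trans hyr) (by norm_num)
  have hPsize : c' * (C1 * n / 2) ≤ #P := by
    refine le_trans ?_ hcard
    gcongr
  have hPpos : (0 : ℝ) < #P := lt_of_lt_of_le (by positivity) hPsize
  have hPpos' : 0 < #P := by exact_mod_cast hPpos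
  -- densities
  have hKT := KT_pos T
  have hKTV := KT_le_VV u T
  have hV : 0 < VV u T := hKT.trans_le hKTV
  have hV1 := VV_le_one u T
  have hcV : cK / Real.log T ≤ VV u T := (hK T hT2).trans hKTV
  -- the weights
  have hL3 : (T ^ (99 * b ^ 2)) ^ 3 ≤ T ^ (297 * b ^ 2) := by
    rw [← pow_mul]
    exact Nat.pow_le_pow_right (by omega) (by omega)
  obtain ⟨w, hw⟩ : ∃ w : ℕ → ℝ,
    w = ww T (T ^ (99 * b ^ 2)) (T ^ (200 * b ^ 2)) (T ^ (600 * b ^ 2)) := ⟨_, rfl⟩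
  have hwle : ∀ D ∈ dset T (T ^ (297 * b ^ 2)), |w D| ≤ Cw := by
    intro D hD
    rw [hw, hCw]
    exact abs_ww_le (M := 99 * b ^ 2) hpar hT99 le_rfl hD
  rw [← hw]
  obtain ⟨M, hM⟩ : ∃ M : ℝ, M = ∑ D ∈ dset T (T ^ (297 * b ^ 2)), w D * (1 / (D : ℝ)) :=
    ⟨_, rfl⟩
  have hMge : 1 / (2000 * (b : ℝ) ^ 2) ≤ M := by
    have h1 := hTm T hTm'
    unfold MM at h1
    rw [← hw, ← hM] at h1
    refine le_trans ?_ h1
    have h2 := KT_le T (by omega)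
    have hlT1 : Real.log T ≤ Real.log ((T : ℝ) + 1) := Real.log_le_log hT0' (by linarith)
    have h3 : KT T * Real.log T ≤ 1 := by
      calc KT T * Real.log T ≤ 1 / Real.log ((T : ℝ) + 1) * Real.log T := by gcongr
        _ ≤ 1 / Real.log T * Real.log T := by gcongr
        _ = 1 := by field_simp
    rw [div_le_div_iff₀ (by positivity) (by positivity)]
    have h4 : KT T * (600 * (b : ℝ) ^ 2 * Real.log T) ≤ 600 * (b : ℝ) ^ 2 := by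
      calc KT T * (600 * (b : ℝ) ^ 2 * Real.log T)
          = 600 * (b : ℝ) ^ 2 * (KT T * Real.log T) := by ring
        _ ≤ 600 * (b : ℝ) ^ 2 * 1 := by gcongr
        _ = _ := mul_one _
    linarith
  have hM0 : 0 < M := lt_of_lt_of_le (by positivity) hMge
  have hMsq : (1 / (2000 * (b : ℝ) ^ 2)) ^ 2 ≤ M ^ 2 := by gcongr
  obtain ⟨B0, hB0⟩ : ∃ B0 : ℝ, B0 = ∑ D ∈ dset T (T ^ (297 * b ^ 2)), |w D| := ⟨_, rfl⟩
  obtain ⟨B1, hB1⟩ : ∃ B1 : ℝ, B1 = ∑ D ∈ dset T (T ^ (297 * b ^ 2)), |w D| * (1 / (D : ℝ)) :=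
    ⟨_, rfl⟩
  have hL1 : 1 ≤ 297 * b ^ 2 := by omega
  have hB0le : B0 ≤ Cw * (T : ℝ) ^ (297 * b ^ 2) := by rw [hB0]; exact bound_B0 hwle hCw0.le
  have hB00 : 0 ≤ B0 := by rw [hB0]; exact sum_nonneg fun _ _ => abs_nonneg _
  have hB1le : B1 ≤ B1b := by
    rw [hB1, hB1b]; exact bound_B1 cK hcK hK hT2 hL1 hwle hCw0.le
  have hB10 : 0 ≤ B1 := by rw [hB1]; exact sum_nonneg fun _ _ => by positivity
  have hBg := bound_Bg cK hcK hK hT2 hL1 hwle hCw0.le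
  rw [← hB1b] at hBg
  have hMB1 : M ≤ B1 := by
    rw [hM, hB1]
    apply sum_le_sum
    intro D _
    exact mul_le_mul_of_nonneg_right (le_abs_self _) (by positivity)
  -- the setup
  have hkeq : 2 * (2 * b ^ 2) + 5 = 4 * k + 5 := by rw [hk]; ring
  have S : Setup T u W β A B P η ((T : ℝ) ^ (4 * k + 5)) := by
    refine ⟨hu3, huT, hW, hAB.le, fun p hp => ((hPT p hp).le.trans hTA), hPT, ?_, hη0, hη1,
      by positivity, ?_⟩
    · intro p hp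
      rw [hP] at hp
      exact (mem_filter.mp hp).2
    · intro Om h1 h2 R' h3 h4
      have := hTf T hTf' Om A B hAB.le h1 h2 R' h3 h4
      rwa [hkeq] at this
  -- pair sums
  have hpair : ∑ p ∈ P, ∑ p' ∈ P.erase p, V2 u T p p' ≤ VV u T ^ 2 * (#P : ℝ) ^ 2 * (1 + ρ) := by
    have h1 := pair_sum_le (T := T) hu3 huy P hPsub
    have h4 : KT u / KT y ≤ Real.log y / cK := by
      have h5 := hK y hy2
      have h6 : KT u ≤ 1 := by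
        have := KT_le_VV 0 u
        exact this.trans (VV_le_one 0 u)
      calc KT u / KT y ≤ 1 / (cK / Real.log y) := by
            gcongr
        _ = Real.log y / cK := by field_simp
    exact pair_real _ _ _ _ _ _ ρ c' cK _ hρ0 hcK hc'0 hy0p hly hPpos.le h1 hρu hcard h4
      (hYb y (hnY.trans hny))
  -- h4
  have h4 : 2 * CF ^ 2 ≤ ε / 16 * (#P * VV u T * M ^ 2) :=
    h4_real CF ε #P (VV u T) M n ((b : ℝ) ^ 2) (Real.log T) c' cK C1 hε (by positivity) hlT hc'0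
      hcK (by linarith only [hC11]) hn hC1le hPsize hcV hMge
  -- h5
  have hVM : cK / (2000 * (b : ℝ) ^ 2) / T ≤ VV u T * M := by
    have h6 : Real.log T ≤ T := (Real.log_le_sub_one_of_pos hT0').trans (by linarith)
    calc cK / (2000 * (b : ℝ) ^ 2) / T = (cK / T) * (1 / (2000 * (b : ℝ) ^ 2)) := by ring
      _ ≤ (cK / Real.log T) * (1 / (2000 * (b : ℝ) ^ 2)) := by gcongr
      _ ≤ VV u T * M := by gcongr
  have hVMsq : c2 / (T : ℝ) ^ 2 ≤ (VV u T * M) ^ 2 := by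
    rw [hc2, ← div_pow]
    gcongr
  have hVMle : VV u T * M ≤ B1b := by
    calc VV u T * M ≤ 1 * M := by gcongr
      _ = M := one_mul M
      _ ≤ B1b := hMB1.trans hB1le
  have hXge : (T : ℝ) ^ (598 * k + 5) * T ^ 3 / (4 * W) ≤ ((B : ℝ) - A) / W := by
    have h6 : (T : ℝ) ^ (598 * k + 5) * T ^ 3 ≤ (T : ℝ) ^ (600 * b ^ 2) := by
      rw [← pow_add, ← hk]
      apply pow_le_pow_right₀ (by exact_mod_cast (by omega : 1 ≤ T))
      omega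
    calc (T : ℝ) ^ (598 * k + 5) * T ^ 3 / (4 * W) ≤ (T : ℝ) ^ (600 * b ^ 2) / (4 * W) := by gcongr
      _ = (T : ℝ) ^ (600 * b ^ 2) / 4 / W := by rw [div_div]
      _ ≤ _ := by gcongr
  have h5 : (T : ℝ) ^ (4 * k + 5) * (CF ^ 2 / #P + B0 ^ 2 + 2 * B0 * (VV u T * M))
      + (VV u T * M) ^ 2 ≤ ε / 8 * (((B : ℝ) - A) / W) * (VV u T * M) ^ 2 := by
    have hT1r : (1 : ℝ) ≤ T := by exact_mod_cast (by omega : 1 ≤ T)
    have hP1 : (1 : ℝ) ≤ #P := by exact_mod_cast hPpos'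
    exact h5_real T CF Cw B1b B0 #P (VV u T * M) (((B : ℝ) - A) / W) W ε c2 C5
      ((T : ℝ) ^ (297 * b ^ 2)) k hT1r hCw0.le hB1b0.le hB00 hP1 (by positivity) hW0' hε hc20
      (pow_le_pow_right₀ hT1r (by rw [← hk]; omega))
      (by rw [← pow_mul, ← hk, show 297 * k * 2 = 594 * k by ring]) (by positivity) hB0le hVMle
      hC5 ((Nat.le_ceil _).trans (by exact_mod_cast hTC5)) hVMsq hXge
  exact card_bad_le S hW0 hAB (dset T (T ^ (297 * b ^ 2))) w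
    (fun D hD => by
      have := mem_dset.mp hD
      exact ⟨this.1.1.1, this.1.2⟩) CF
    (fun m hm0 hmB hmr => by
      rw [hCF]
      exact bound_CF (M := 600 * b ^ 2) (by omega) hwle hCw0.le hm0 (hmB.trans hBN) hmr)
    M B0 B1 _ ρ ε hM hM0 hB0 hB1 rfl hPpos' hV hρ0.le hρ1 hε hpair hρε
    (by
      refine hBg.trans ?_
      have g1 : B1b ^ 2 * (2000 * (b : ℝ) ^ 2) ^ 2 * 32 / ε ≤ T :=
        (Nat.le_ceil _).trans (by exact_mod_cast hTBg)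
      rw [div_le_iff₀ hε] at g1
      calc B1b ^ 2 / T ≤ ε / 32 * (1 / (2000 * (b : ℝ) ^ 2)) ^ 2 := by
            rw [div_le_iff₀ hT0']
            have e1 : ε / 32 * (1 / (2000 * (b : ℝ) ^ 2)) ^ 2 * T
                = (T * ε) / (32 * (2000 * (b : ℝ) ^ 2) ^ 2) := by field_simp
            rw [e1, le_div_iff₀ (by positivity)]
            linarith
        _ ≤ _ := by gcongr)
    (by
      calc η * B1 ^ 2 ≤ η * B1b ^ 2 := by gcongr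
        _ ≤ ε / 32 * (1 / (2000 * (b : ℝ) ^ 2)) ^ 2 := hη
        _ ≤ _ := by gcongr)
    h4 h5

end Pool.Agent.Lib.MP_bae66e_nt.AP3
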