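import Pool.Agent.Lib.MP_bae66e_nt.AP3.Bonf

/-!
# A fundamental lemma of the sieve (iterated Brun)
-/

set_option autoImplicit false

namespace Pool.Agent.Lib.MP_bae66e_nt.AP3

open Finset

/-- integers in `(A, B]` in the class `a` modulo `q`, lying in the forbidden classes for all primes
of `S` and in none of the forbidden classes for the primes of `R` -/
def cset (Om : ℕ → Finset ℕ) (A B q a : ℕ) (S R : Finset ℕ) : Finset ℕ :=
  {m ∈ Ioc A B | m ≡ a [MOD q] ∧ (∀ ℓ ∈ S, m % ℓ ∈ Om ℓ) ∧ ∀ ℓ ∈ R, m % ℓ ∉ Om ℓ}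

/-- the density of a forbidden set -/
noncomputable def xb (Om : ℕ → Finset ℕ) (ℓ : ℕ) : ℝ := (#(Om ℓ) : ℝ) / ℓ

lemma xb_nonneg (Om : ℕ → Finset ℕ) (ℓ : ℕ) : 0 ≤ xb Om ℓ := by
  unfold xb; positivity

/-- number of integers of an interval in a residue class -/
lemma abs_card_ap_sub (A B q a : ℕ) (hAB : A ≤ B) (hq : 0 < q) :
    |(#{m ∈ Ioc A B | m ≡ a [MOD q]} : ℝ) - ((B : ℝ) - A) / q| ≤ 1 := by
  have h := Nat.Ioc_filter_modEq_card A B hq a
  have hq' : (0 : ℚ) < q := by exact_mod_cast hq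
  have hle : ⌊((A : ℚ) - a) / q⌋ ≤ ⌊((B : ℚ) - a) / q⌋ := by
    apply Int.floor_le_floor
    apply div_le_div_of_nonneg_right _ hq'.le
    have : (A : ℚ) ≤ B := by exact_mod_cast hAB
    linarith
  rw [max_eq_left (by linarith)] at h
  have h1 : ((#{m ∈ Ioc A B | m ≡ a [MOD q]} : ℕ) : ℚ)
      = (⌊((B : ℚ) - a) / q⌋ : ℚ) - ⌊((A : ℚ) - a) / q⌋ := by
    have := congrArg (fun z : ℤ => (z : ℚ)) h
    push_cast at this
    exact this
  have h2 := Int.floor_le (((B : ℚ) - a) / q)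
  have h3 := Int.lt_floor_add_one (((B : ℚ) - a) / q)
  have h4 := Int.floor_le (((A : ℚ) - a) / q)
  have h5 := Int.lt_floor_add_one (((A : ℚ) - a) / q)
  have h6 : ((B : ℚ) - a) / q - ((A : ℚ) - a) / q = ((B : ℚ) - A) / q := by
    field_simp; ring
  have h7 : |((#{m ∈ Ioc A B | m ≡ a [MOD q]} : ℕ) : ℚ) - ((B : ℚ) - A) / q| ≤ 1 := by
    rw [h1, ← h6, abs_le]
    constructor <;> linarith
  have h8 : ((|((#{m ∈ Ioc A B | m ≡ a [MOD q]} : ℕ) : ℚ) - ((B : ℚ) - A) / q| : ℚ) : ℝ)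
      ≤ ((1 : ℚ) : ℝ) := by exact_mod_cast h7
  push_cast at h8
  exact h8

/-- the property that the fundamental lemma holds for `R` with relative error `η`, absolute error `E`
in all classes with modulus coprime to `R` -/
def FLP (Om : ℕ → Finset ℕ) (A B : ℕ) (R : Finset ℕ) (η E : ℝ) : Prop :=
  ∀ q a : ℕ, 0 < q → (∀ ℓ ∈ R, Nat.Coprime ℓ q) →
    |(#(cset Om A B q a ∅ R) : ℝ) - ((B : ℝ) - A) / q * ∏ ℓ ∈ R, (1 - xb Om ℓ)|
      ≤ η * (((B : ℝ) - A) / q * ∏ ℓ ∈ R, (1 - xb Om ℓ)) + E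

lemma flp_empty (Om : ℕ → Finset ℕ) (A B : ℕ) (hAB : A ≤ B) (η : ℝ) (hη : 0 ≤ η) :
    FLP Om A B ∅ η 1 := by
  intro q a hq _
  have h := abs_card_ap_sub A B q a hAB hq
  have h2 : cset Om A B q a ∅ ∅ = {m ∈ Ioc A B | m ≡ a [MOD q]} := by
    unfold cset; simp
  rw [h2, prod_empty, mul_one]
  have : 0 ≤ η * (((B : ℝ) - A) / q) := by
    apply mul_nonneg hη
    apply div_nonneg _ (by positivity)
    have : (A : ℝ) ≤ B := by exact_mod_cast hAB
    linarith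
  linarith

/-- passing to the subset where the primes of `S` are bad -/
lemma flp_S (Om : ℕ → Finset ℕ) (A B : ℕ) (hAB : A ≤ B) (R : Finset ℕ) (η E : ℝ)
    (hR : FLP Om A B R η E)
    (S : Finset ℕ) (hSp : ∀ ℓ ∈ S, ℓ.Prime) (hOm : ∀ ℓ ∈ S, ∀ c ∈ Om ℓ, c < ℓ)
    (hRS : ∀ ℓ ∈ R, ∀ p ∈ S, Nat.Coprime ℓ p) :
    ∀ q a : ℕ, 0 < q → (∀ ℓ ∈ R, Nat.Coprime ℓ q) → (∀ ℓ ∈ S, Nat.Coprime ℓ q) →
    |(#(cset Om A B q a S R) : ℝ)
        - ((B : ℝ) - A) / q * (∏ ℓ ∈ S, xb Om ℓ) * ∏ ℓ ∈ R, (1 - xb Om ℓ)|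
      ≤ η * (((B : ℝ) - A) / q * (∏ ℓ ∈ S, xb Om ℓ) * ∏ ℓ ∈ R, (1 - xb Om ℓ))
        + (∏ ℓ ∈ S, (#(Om ℓ) : ℝ)) * E := by
  induction S using Finset.induction_on with
  | empty =>
    intro q a hq hqR _
    have := hR q a hq hqR
    simpa using this
  | insert p S hpS ih =>
    intro q a hq hqR hqS
    have hp : p.Prime := hSp p (mem_insert_self _ _)
    have hpq : Nat.Coprime p q := hqS p (mem_insert_self _ _)
    have hqp : Nat.Coprime q p := hpq.symm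
    -- split according to the class modulo `p`
    have hsplit : cset Om A B q a (insert p S) R
        = (Om p).biUnion fun c => cset Om A B (q * p) (Nat.chineseRemainder hqp a c) S R := by
      ext m
      simp only [cset, mem_filter, mem_biUnion, mem_insert, forall_eq_or_imp]
      constructor
      · rintro ⟨h1, h2, ⟨h3, h4⟩, h5⟩
        refine ⟨m % p, h3, h1, ?_, h4, h5⟩
        apply (Nat.modEq_and_modEq_iff_modEq_mul hqp).mp
        refine ⟨h2.trans (Nat.chineseRemainder hqp a (m % p)).2.1.symm, ?_⟩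
        exact (Nat.mod_modEq m p).symm.trans (Nat.chineseRemainder hqp a (m % p)).2.2.symm
      · rintro ⟨c, hc, h1, h2, h4, h5⟩
        have h6 := (Nat.modEq_and_modEq_iff_modEq_mul hqp).mpr h2
        have h7 := h6.1.trans (Nat.chineseRemainder hqp a c).2.1
        have h8 := h6.2.trans (Nat.chineseRemainder hqp a c).2.2
        have hcp : c < p := hOm p (mem_insert_self _ _) c hc
        have h9 : m % p = c := by
          have : m % p = c % p := h8
          rwa [Nat.mod_eq_of_lt hcp] at this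
        exact ⟨h1, h7, ⟨by rw [h9]; exact hc, h4⟩, h5⟩
    have hdisj : ∀ c ∈ Om p, ∀ c' ∈ Om p, c ≠ c' →
        Disjoint (cset Om A B (q * p) (Nat.chineseRemainder hqp a c) S R)
          (cset Om A B (q * p) (Nat.chineseRemainder hqp a c') S R) := by
      intro c hc c' hc' hne
      rw [disjoint_left]
      intro m hm hm'
      simp only [cset, mem_filter] at hm hm'
      have h6 := ((Nat.modEq_and_modEq_iff_modEq_mul hqp).mpr hm.2.1).2.trans
        (Nat.chineseRemainder hqp a c).2.2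
      have h6' := ((Nat.modEq_and_modEq_iff_modEq_mul hqp).mpr hm'.2.1).2.trans
        (Nat.chineseRemainder hqp a c').2.2
      have h7 : c ≡ c' [MOD p] := h6.symm.trans h6'
      have h8 : c % p = c' % p := h7
      rw [Nat.mod_eq_of_lt (hOm p (mem_insert_self _ _) c hc),
        Nat.mod_eq_of_lt (hOm p (mem_insert_self _ _) c' hc')] at h8
      exact hne h8
    rw [hsplit, card_biUnion hdisj, prod_insert hpS, prod_insert hpS]
    push_cast
    set M : ℝ := ((B : ℝ) - A) / q * (∏ ℓ ∈ S, xb Om ℓ) * ∏ ℓ ∈ R, (1 - xb Om ℓ) with hM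
    have hp0 : (0 : ℝ) < p := by exact_mod_cast hp.pos
    have hq0 : (0 : ℝ) < q := by exact_mod_cast hq
    have ih' : ∀ c ∈ Om p,
        |(#(cset Om A B (q * p) (Nat.chineseRemainder hqp a c) S R) : ℝ) - M / p|
        ≤ η * (M / p) + (∏ ℓ ∈ S, (#(Om ℓ) : ℝ)) * E := by
      intro c _
      have h1 := ih (fun ℓ hℓ => hSp ℓ (mem_insert_of_mem hℓ))
        (fun ℓ hℓ => hOm ℓ (mem_insert_of_mem hℓ))
        (fun ℓ hℓ p' hp' => hRS ℓ hℓ p' (mem_insert_of_mem hp'))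
        (q * p) (Nat.chineseRemainder hqp a c) (Nat.mul_pos hq hp.pos)
        (fun ℓ hℓ => (hqR ℓ hℓ).mul_right (hRS ℓ hℓ p (mem_insert_self _ _)))
        (fun ℓ hℓ => (hqS ℓ (mem_insert_of_mem hℓ)).mul_right
          ((Nat.coprime_primes (hSp ℓ (mem_insert_of_mem hℓ)) hp).mpr
            (by rintro rfl; exact hpS hℓ)))
      have h2 : ((B : ℝ) - A) / ((q * p : ℕ) : ℝ) * (∏ ℓ ∈ S, xb Om ℓ) * ∏ ℓ ∈ R, (1 - xb Om ℓ)
          = M / p := by
        rw [hM]; push_cast; field_simp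
      rwa [h2] at h1
    have e1 : ((B : ℝ) - A) / q * (xb Om p * ∏ ℓ ∈ S, xb Om ℓ) * ∏ ℓ ∈ R, (1 - xb Om ℓ)
        = ∑ c ∈ Om p, M / p := by
      rw [sum_const, nsmul_eq_mul, hM, xb]
      field_simp
    rw [e1, ← sum_sub_distrib]
    calc |∑ c ∈ Om p, ((#(cset Om A B (q * p) (Nat.chineseRemainder hqp a c) S R) : ℝ) - M / p)|
        ≤ ∑ c ∈ Om p, |(#(cset Om A B (q * p) (Nat.chineseRemainder hqp a c) S R) : ℝ) - M / p| :=
          abs_sum_le_sum_abs _ _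
      _ ≤ ∑ c ∈ Om p, (η * (M / p) + (∏ ℓ ∈ S, (#(Om ℓ) : ℝ)) * E) := sum_le_sum ih'
      _ = η * ∑ c ∈ Om p, M / p + #(Om p) * (∏ ℓ ∈ S, (#(Om ℓ) : ℝ)) * E := by
          rw [sum_add_distrib, ← mul_sum, sum_const _, nsmul_eq_mul]
          simp only [sum_const, nsmul_eq_mul]
          ring

end Pool.Agent.Lib.MP_bae66e_nt.AP3
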