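import Pool.Agent.Lib.MP_bae66e_nt.AP3.FLStep

/-!
# The fundamental lemma
-/

set_option autoImplicit false

namespace Pool.Agent.Lib.MP_bae66e_nt.AP3

open Finset

lemma FLP.mono {Om : ℕ → Finset ℕ} {A B : ℕ} {R : Finset ℕ} {η E η' E' : ℝ} (hAB : A ≤ B)
    (hx : ∀ ℓ, xb Om ℓ ≤ 1 / 2) (h : FLP Om A B R η E) (hη : η ≤ η') (hE : E ≤ E') :
    FLP Om A B R η' E' := by
  intro q a hq hc
  refine (h q a hq hc).trans ?_
  have h0 : 0 ≤ ((B : ℝ) - A) / q * ∏ ℓ ∈ R, (1 - xb Om ℓ) := by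
    apply mul_nonneg
    · apply div_nonneg _ (by positivity)
      have : (A : ℝ) ≤ B := by exact_mod_cast hAB
      linarith
    · exact prod_nonneg fun i _ => by have := hx i; linarith
  have := mul_le_mul_of_nonneg_right hη h0
  linarith

/-- the relative error of the fundamental lemma -/
noncomputable def flEta (L0 : ℝ) (b : ℕ) : ℝ := L0 ^ b / b.factorial

lemma card_le_of_primes (S : Finset ℕ) (z : ℕ) (h : ∀ ℓ ∈ S, ℓ.Prime ∧ ℓ ≤ z) : #S ≤ z := by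
  calc #S ≤ #(Icc 1 z) := by
        apply card_le_card
        intro ℓ hℓ
        have h5 := h ℓ hℓ
        rw [mem_Icc]
        exact ⟨h5.1.one_lt.le, h5.2⟩
    _ = z := by rw [Nat.card_Icc]; omega

lemma fl_err (J b z w : ℕ) (hwz : w * w ≤ z) (hz1 : 1 ≤ z) (s : ℝ) (hs0 : 0 ≤ s) (hs : s ≤ 2 * z) :
    3 ^ ((J + 1) * (b + 1 + J + 1)) * (w : ℝ) ^ (2 * (b + 1) + 4) * (1 + s) ^ (b + 1)
      ≤ 3 ^ ((J + 1 + 1) * (b + (J + 1) + 1)) * (z : ℝ) ^ (2 * b + 4) := by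
  have hz0 : (1 : ℝ) ≤ z := by exact_mod_cast hz1
  have h3 : 1 + s ≤ 3 * z := by linarith
  have h5 : (0 : ℝ) ≤ 1 + s := by positivity
  have h6 : (w : ℝ) ^ (2 * (b + 1) + 4) ≤ (z : ℝ) ^ (b + 3) := by
    have : ((w * w : ℕ) : ℝ) ≤ z := by exact_mod_cast hwz
    calc (w : ℝ) ^ (2 * (b + 1) + 4) = (((w * w : ℕ) : ℝ)) ^ (b + 3) := by
          push_cast; rw [← pow_two, ← pow_mul]; ring_nf
      _ ≤ (z : ℝ) ^ (b + 3) := pow_le_pow_left₀ (by positivity) this _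
  have h7 : (1 + s) ^ (b + 1) ≤ (3 * (z : ℝ)) ^ (b + 1) := pow_le_pow_left₀ h5 h3 _
  have h8 : (J + 1) * (b + 1 + J + 1) + (b + 1) ≤ (J + 1 + 1) * (b + (J + 1) + 1) := by
    nlinarith
  have h9 : (3 : ℝ) ^ ((J + 1) * (b + 1 + J + 1) + (b + 1))
      ≤ 3 ^ ((J + 1 + 1) * (b + (J + 1) + 1)) := pow_le_pow_right₀ (by norm_num) h8
  calc 3 ^ ((J + 1) * (b + 1 + J + 1)) * (w : ℝ) ^ (2 * (b + 1) + 4) * (1 + s) ^ (b + 1)
      ≤ 3 ^ ((J + 1) * (b + 1 + J + 1)) * (z : ℝ) ^ (b + 3) * (3 * z) ^ (b + 1) :=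
        mul_le_mul (mul_le_mul_of_nonneg_left h6 (by positivity)) h7 (by positivity)
          (by positivity)
    _ = 3 ^ ((J + 1) * (b + 1 + J + 1) + (b + 1)) * (z : ℝ) ^ (2 * b + 4) := by
        rw [mul_pow, pow_add 3]; ring
    _ ≤ _ := mul_le_mul_of_nonneg_right h9 (by positivity)

lemma fl_eta_step (L0 : ℝ) (hL01 : 1 ≤ L0) (b0 b : ℕ)
    (hb0 : (Real.exp (3 * L0) + 2 * Real.exp (2 * L0)) * L0 ≤ b0 + 1) (hb : b0 ≤ b) :
    Real.exp (3 * L0) * flEta L0 (b + 1)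
      + 2 * Real.exp (2 * L0) * (L0 ^ (b + 1) / (b + 1).factorial) ≤ flEta L0 b := by
  unfold flEta
  have hf : ((b + 1).factorial : ℝ) = (b + 1) * b.factorial := by
    rw [Nat.factorial_succ]; push_cast; ring
  have hf0 : (0 : ℝ) < b.factorial := by exact_mod_cast Nat.factorial_pos b
  have hbb : (b0 : ℝ) ≤ b := by exact_mod_cast hb
  have hL00 : 0 < L0 := by linarith
  have e : Real.exp (3 * L0) * (L0 ^ (b + 1) / (b + 1).factorial)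
      + 2 * Real.exp (2 * L0) * (L0 ^ (b + 1) / (b + 1).factorial)
      = ((Real.exp (3 * L0) + 2 * Real.exp (2 * L0)) * L0) / (b + 1) * (L0 ^ b / b.factorial) := by
    rw [hf]; field_simp; ring
  rw [e]
  have h3 : ((Real.exp (3 * L0) + 2 * Real.exp (2 * L0)) * L0) / (b + 1) ≤ 1 := by
    rw [div_le_one (by positivity)]
    linarith
  calc _ ≤ 1 * (L0 ^ b / b.factorial) :=
        mul_le_mul_of_nonneg_right h3 (by positivity)
    _ = _ := one_mul _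

theorem fl_main (L0 : ℝ) (hL01 : 1 ≤ L0)
    (hL0 : ∀ z : ℕ, ∑ p ∈ (Ioc (Nat.sqrt z) z).filter Nat.Prime, 2 / (p : ℝ) ≤ L0)
    (b0 : ℕ) (hb0 : (Real.exp (3 * L0) + 2 * Real.exp (2 * L0)) * L0 ≤ b0 + 1) :
    ∀ J b z : ℕ, b0 ≤ b → 1 ≤ z → z < 2 ^ (2 ^ J) →
    ∀ (Om : ℕ → Finset ℕ) (A B : ℕ), A ≤ B → (∀ ℓ, xb Om ℓ ≤ 1 / 2) → (∀ ℓ, #(Om ℓ) ≤ 2) →
    ∀ R : Finset ℕ, (∀ ℓ ∈ R, ℓ.Prime ∧ ℓ ≤ z) → (∀ ℓ ∈ R, ∀ c ∈ Om ℓ, c < ℓ) →
    FLP Om A B R (flEta L0 b) (3 ^ ((J + 1) * (b + J + 1)) * (z : ℝ) ^ (2 * b + 4)) := by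
  intro J
  induction J with
  | zero =>
    intro b z _ hz1 hz Om A B hAB hx hcard R hR _
    have hRe : R = ∅ := by
      rw [eq_empty_iff_forall_notMem]
      intro ℓ hℓ
      have h1 := (hR ℓ hℓ).1.two_le
      have h2 := (hR ℓ hℓ).2
      simp at hz
      omega
    rw [hRe]
    have hη : 0 ≤ flEta L0 b := by unfold flEta; positivity
    refine (flp_empty Om A B hAB _ hη).mono hAB hx le_rfl ?_
    have h1 : (1 : ℝ) ≤ (z : ℝ) ^ (2 * b + 4) := one_le_pow₀ (by exact_mod_cast hz1)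
    have h2 : (1 : ℝ) ≤ 3 ^ ((0 + 1) * (b + 0 + 1)) := one_le_pow₀ (by norm_num)
    nlinarith
  | succ J ih =>
    intro b z hb hz1 hz Om A B hAB hx hcard R hR hOm
    set w := Nat.sqrt z with hw
    have hw1 : 1 ≤ w := Nat.sqrt_pos.mpr hz1
    have hwz : w * w ≤ z := Nat.sqrt_le z
    have hw2 : w < 2 ^ (2 ^ J) := by
      rw [hw, Nat.sqrt_lt]
      calc z < 2 ^ (2 ^ (J + 1)) := hz
        _ = 2 ^ (2 ^ J) * 2 ^ (2 ^ J) := by rw [← pow_add]; ring_nf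
    set Bk := R.filter (fun ℓ => w < ℓ) with hBk
    set R' := R.filter (fun ℓ => ¬ w < ℓ) with hR'
    have hunion : Bk ∪ R' = R := by
      rw [hBk, hR', filter_union_filter_not_eq]
    have hdisj : Disjoint Bk R' := disjoint_filter_filter_not R R _
    have h1 := ih (b + 1) w (by omega) hw1 hw2 Om A B hAB hx hcard R'
      (fun ℓ hℓ => by
        have := mem_filter.mp hℓ
        exact ⟨(hR ℓ this.1).1, not_lt.mp this.2⟩)
      (fun ℓ hℓ => hOm ℓ (mem_filter.mp hℓ).1)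
    have hη1 : 0 ≤ flEta L0 (b + 1) := by unfold flEta; positivity
    have hsum : ∑ ℓ ∈ Bk, xb Om ℓ ≤ L0 := by
      refine le_trans ?_ (hL0 z)
      calc ∑ ℓ ∈ Bk, xb Om ℓ ≤ ∑ ℓ ∈ Bk, 2 / (ℓ : ℝ) := by
            apply sum_le_sum
            intro ℓ _
            unfold xb
            apply div_le_div_of_nonneg_right _ (by positivity)
            exact_mod_cast hcard ℓ
        _ ≤ _ := by
            apply sum_le_sum_of_subset_of_nonneg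
            · intro ℓ hℓ
              have h2 := mem_filter.mp hℓ
              rw [mem_filter, mem_Ioc]
              exact ⟨⟨h2.2, (hR ℓ h2.1).2⟩, (hR ℓ h2.1).1⟩
            · intro ℓ _ _; positivity
    have h2 := flp_step Om A B hAB R' Bk _ _ L0 hη1 (by positivity) h1 hdisj
      (fun ℓ hℓ => (hR ℓ (mem_filter.mp hℓ).1).1) (fun ℓ hℓ => (hR ℓ (mem_filter.mp hℓ).1).1)
      (fun ℓ hℓ => hOm ℓ (mem_filter.mp hℓ).1) hx hsum (b + 1)
    rw [hunion] at h2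
    refine h2.mono hAB hx (fl_eta_step L0 hL01 b0 b hb0 hb) ?_
    have h4 : ∑ ℓ ∈ Bk, (#(Om ℓ) : ℝ) ≤ 2 * z := by
      calc ∑ ℓ ∈ Bk, (#(Om ℓ) : ℝ) ≤ ∑ ℓ ∈ Bk, (2 : ℝ) :=
            sum_le_sum fun ℓ _ => by exact_mod_cast hcard ℓ
        _ = #Bk * 2 := by rw [sum_const, nsmul_eq_mul]
        _ ≤ z * 2 := by
            apply mul_le_mul_of_nonneg_right _ (by norm_num)
            exact_mod_cast card_le_of_primes Bk z (fun ℓ hℓ => hR ℓ (mem_filter.mp hℓ).1)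
        _ = 2 * z := by ring
    have hs0 : (0 : ℝ) ≤ ∑ ℓ ∈ Bk, (#(Om ℓ) : ℝ) := sum_nonneg fun ℓ _ => Nat.cast_nonneg _
    exact fl_err J b z w hwz hz1 _ hs0 h4

end Pool.Agent.Lib.MP_bae66e_nt.AP3
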