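import Pool.Agent.Lib.MP_bae66e_nt.AP3.FL

/-!
# Adding a block of primes
-/

set_option autoImplicit false

namespace Pool.Agent.Lib.MP_bae66e_nt.AP3

open Finset

/-- indicator of a forbidden class -/
noncomputable def xi (Om : ℕ → Finset ℕ) (m ℓ : ℕ) : ℝ := if m % ℓ ∈ Om ℓ then 1 else 0

lemma sum_es_xi (Om : ℕ → Finset ℕ) (A B q a : ℕ) (R Bk : Finset ℕ) (j : ℕ) :
    ∑ m ∈ cset Om A B q a ∅ R, es (xi Om m) j Bk
      = ∑ T ∈ powersetCard j Bk, (#(cset Om A B q a T R) : ℝ) := by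
  unfold es
  rw [sum_comm]
  apply sum_congr rfl
  intro T _
  have h1 : ∀ m, ∏ i ∈ T, xi Om m i = if (∀ ℓ ∈ T, m % ℓ ∈ Om ℓ) then (1 : ℝ) else 0 := by
    intro m
    split_ifs with h
    · apply prod_eq_one
      intro i hi
      rw [xi, if_pos (h i hi)]
    · push Not at h
      obtain ⟨ℓ, hℓ, h2⟩ := h
      apply prod_eq_zero hℓ
      rw [xi, if_neg h2]
  simp_rw [h1]
  rw [sum_boole]
  congr 2
  ext m
  simp only [cset, mem_filter, notMem_empty, IsEmpty.forall_iff, implies_true, true_and]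
  tauto

lemma card_cset_union (Om : ℕ → Finset ℕ) (A B q a : ℕ) (R Bk : Finset ℕ) :
    (#(cset Om A B q a ∅ (Bk ∪ R)) : ℝ)
      = ∑ m ∈ cset Om A B q a ∅ R, ∏ ℓ ∈ Bk, (1 - xi Om m ℓ) := by
  have h1 : ∀ m, ∏ ℓ ∈ Bk, (1 - xi Om m ℓ)
      = if (∀ ℓ ∈ Bk, m % ℓ ∉ Om ℓ) then (1 : ℝ) else 0 := by
    intro m
    split_ifs with h
    · apply prod_eq_one
      intro i hi
      rw [xi, if_neg (h i hi)]; ring
    · push Not at h
      obtain ⟨ℓ, hℓ, h2⟩ := h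
      apply prod_eq_zero hℓ
      rw [xi, if_pos h2]; ring
  simp_rw [h1]
  rw [sum_boole]
  congr 2
  ext m
  simp only [cset, mem_filter, notMem_empty, IsEmpty.forall_iff, implies_true, true_and,
    mem_union]
  constructor
  · rintro ⟨h1, h2, h3⟩
    exact ⟨⟨h1, h2, fun ℓ hℓ => h3 ℓ (Or.inr hℓ)⟩, fun ℓ hℓ => h3 ℓ (Or.inl hℓ)⟩
  · rintro ⟨⟨h1, h2, h3⟩, h4⟩
    refine ⟨h1, h2, fun ℓ hℓ => ?_⟩
    rcases hℓ with hℓ | hℓ
    · exact h4 ℓ hℓ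
    · exact h3 ℓ hℓ

theorem flp_step (Om : ℕ → Finset ℕ) (A B : ℕ) (hAB : A ≤ B) (R Bk : Finset ℕ) (η E L : ℝ)
    (hη : 0 ≤ η) (hE : 0 ≤ E)
    (hR : FLP Om A B R η E) (hdisj : Disjoint Bk R)
    (hRp : ∀ ℓ ∈ R, ℓ.Prime) (hBp : ∀ ℓ ∈ Bk, ℓ.Prime) (hOm : ∀ ℓ ∈ Bk, ∀ c ∈ Om ℓ, c < ℓ)
    (hx : ∀ ℓ, xb Om ℓ ≤ 1 / 2) (hL : ∑ ℓ ∈ Bk, xb Om ℓ ≤ L) (r : ℕ) :
    FLP Om A B (Bk ∪ R)
      (Real.exp (3 * L) * η + 2 * Real.exp (2 * L) * (L ^ r / r.factorial))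
      (E * (1 + ∑ ℓ ∈ Bk, (#(Om ℓ) : ℝ)) ^ r) := by
  intro q a hq hcop
  have hqR : ∀ ℓ ∈ R, Nat.Coprime ℓ q := fun ℓ hℓ => hcop ℓ (mem_union_right _ hℓ)
  have hqB : ∀ ℓ ∈ Bk, Nat.Coprime ℓ q := fun ℓ hℓ => hcop ℓ (mem_union_left _ hℓ)
  have hxx : ∀ m i, 0 ≤ xi Om m i ∧ xi Om m i ≤ 1 := by
    intro m i; unfold xi; split_ifs <;> norm_num
  set M : ℝ := ((B : ℝ) - A) / q with hM
  have hM0 : 0 ≤ M := by
    rw [hM]; apply div_nonneg _ (by positivity)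
    have : (A : ℝ) ≤ B := by exact_mod_cast hAB
    linarith
  set PR : ℝ := ∏ ℓ ∈ R, (1 - xb Om ℓ) with hPR
  have hPR0 : 0 ≤ PR := prod_nonneg fun i _ => by have := hx i; linarith
  set PB : ℝ := ∏ ℓ ∈ Bk, (1 - xb Om ℓ) with hPB
  have hL0 : 0 ≤ L := le_trans (sum_nonneg fun i _ => xb_nonneg Om i) hL
  have hPBge : Real.exp (-(2 * L)) ≤ PB := by
    refine le_trans ?_ (prod_one_sub_ge (xb Om) Bk (xb_nonneg Om) hx)
    apply Real.exp_le_exp.mpr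
    linarith
  have hPB0 : 0 < PB := lt_of_lt_of_le (Real.exp_pos _) hPBge
  have hprod : ∏ ℓ ∈ Bk ∪ R, (1 - xb Om ℓ) = PB * PR := prod_union hdisj
  rw [hprod]
  set D : ℝ := M * PR with hD
  have hD0 : 0 ≤ D := mul_nonneg hM0 hPR0
  -- counts with bad sets
  let N : Finset ℕ → ℝ := fun T => (#(cset Om A B q a T R) : ℝ)
  have hN : ∀ T ⊆ Bk, |N T - D * ∏ ℓ ∈ T, xb Om ℓ|
      ≤ η * (D * ∏ ℓ ∈ T, xb Om ℓ) + (∏ ℓ ∈ T, (#(Om ℓ) : ℝ)) * E := by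
    intro T hT
    have h1 := flp_S Om A B hAB R η E hR T (fun ℓ hℓ => hBp ℓ (hT hℓ)) (fun ℓ hℓ => hOm ℓ (hT hℓ))
      (fun ℓ hℓ p hp => (Nat.coprime_primes (hRp ℓ hℓ) (hBp p (hT hp))).mpr (by
        rintro rfl
        exact (disjoint_left.mp hdisj (hT hp)) hℓ)) q a hq hqR (fun ℓ hℓ => hqB ℓ (hT hℓ))
    have e : ((B : ℝ) - A) / q * (∏ ℓ ∈ T, xb Om ℓ) * ∏ ℓ ∈ R, (1 - xb Om ℓ)
        = D * ∏ ℓ ∈ T, xb Om ℓ := by rw [hD, hM, hPR]; ring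
    rwa [e] at h1
  have hErr : ∀ j, |∑ T ∈ powersetCard j Bk, N T - D * es (xb Om) j Bk|
      ≤ η * (D * es (xb Om) j Bk) + E * es (fun ℓ => (#(Om ℓ) : ℝ)) j Bk := by
    intro j
    have e1 : ∑ T ∈ powersetCard j Bk, N T - D * es (xb Om) j Bk
        = ∑ T ∈ powersetCard j Bk, (N T - D * ∏ ℓ ∈ T, xb Om ℓ) := by
      rw [sum_sub_distrib, ← mul_sum]; rfl
    rw [e1]
    calc |∑ T ∈ powersetCard j Bk, (N T - D * ∏ ℓ ∈ T, xb Om ℓ)|
        ≤ ∑ T ∈ powersetCard j Bk, |N T - D * ∏ ℓ ∈ T, xb Om ℓ| := abs_sum_le_sum_abs _ _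
      _ ≤ ∑ T ∈ powersetCard j Bk, (η * (D * ∏ ℓ ∈ T, xb Om ℓ) + (∏ ℓ ∈ T, (#(Om ℓ) : ℝ)) * E) :=
          sum_le_sum fun T hT => hN T (mem_powersetCard.mp hT).1
      _ = _ := by
          rw [sum_add_distrib, ← mul_sum, ← mul_sum, ← sum_mul]
          unfold es
          ring
  -- the sum
  set C : ℝ := (#(cset Om A B q a ∅ (Bk ∪ R)) : ℝ) with hC
  have h1 : |C - ∑ j ∈ range r, (-1) ^ j * ∑ T ∈ powersetCard j Bk, N T|
      ≤ ∑ T ∈ powersetCard r Bk, N T := by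
    have e1 : ∑ j ∈ range r, (-1) ^ j * ∑ T ∈ powersetCard j Bk, N T
        = ∑ m ∈ cset Om A B q a ∅ R, alt (xi Om m) r Bk := by
      unfold alt
      rw [sum_comm]
      apply sum_congr rfl
      intro j _
      rw [← mul_sum, sum_es_xi]
    rw [e1, hC, card_cset_union, ← sum_sub_distrib, ← sum_es_xi]
    calc |∑ m ∈ cset Om A B q a ∅ R, (∏ ℓ ∈ Bk, (1 - xi Om m ℓ) - alt (xi Om m) r Bk)|
        ≤ ∑ m ∈ cset Om A B q a ∅ R, |∏ ℓ ∈ Bk, (1 - xi Om m ℓ) - alt (xi Om m) r Bk| :=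
          abs_sum_le_sum_abs _ _
      _ ≤ _ := sum_le_sum fun m _ => abs_prod_sub_alt_le _ (fun i => (hxx m i).1)
          (fun i => (hxx m i).2) Bk r
  have h2 : |∑ j ∈ range r, (-1) ^ j * ∑ T ∈ powersetCard j Bk, N T - D * alt (xb Om) r Bk|
      ≤ ∑ j ∈ range r, (η * (D * es (xb Om) j Bk) + E * es (fun ℓ => (#(Om ℓ) : ℝ)) j Bk) := by
    unfold alt
    rw [mul_sum, ← sum_sub_distrib]
    refine (abs_sum_le_sum_abs _ _).trans (sum_le_sum fun j _ => ?_)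
    have : (-1 : ℝ) ^ j * ∑ T ∈ powersetCard j Bk, N T - D * ((-1) ^ j * es (xb Om) j Bk)
        = (-1) ^ j * (∑ T ∈ powersetCard j Bk, N T - D * es (xb Om) j Bk) := by ring
    rw [this, abs_mul, abs_pow, abs_neg, abs_one, one_pow, one_mul]
    exact hErr j
  have h3 : |alt (xb Om) r Bk - PB| ≤ es (xb Om) r Bk := by
    rw [abs_sub_comm]
    exact abs_prod_sub_alt_le _ (xb_nonneg Om) (fun i => (hx i).trans (by norm_num)) Bk r
  have h4 : ∑ T ∈ powersetCard r Bk, N T ≤ D * es (xb Om) r Bk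
      + (η * (D * es (xb Om) r Bk) + E * es (fun ℓ => (#(Om ℓ) : ℝ)) r Bk) := by
    have := (abs_le.mp (hErr r)).2
    linarith
  have h5 : |C - M * (PB * PR)| ≤ 2 * (D * es (xb Om) r Bk)
      + ∑ j ∈ range (r + 1), (η * (D * es (xb Om) j Bk) + E * es (fun ℓ => (#(Om ℓ) : ℝ)) j Bk) := by
    have e : C - M * (PB * PR)
        = (C - ∑ j ∈ range r, (-1) ^ j * ∑ T ∈ powersetCard j Bk, N T)
          + (∑ j ∈ range r, (-1) ^ j * ∑ T ∈ powersetCard j Bk, N T - D * alt (xb Om) r Bk)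
          + D * (alt (xb Om) r Bk - PB) := by rw [hD]; ring
    rw [e, sum_range_succ]
    have h6 : |D * (alt (xb Om) r Bk - PB)| ≤ D * es (xb Om) r Bk := by
      rw [abs_mul, abs_of_nonneg hD0]
      exact mul_le_mul_of_nonneg_left h3 hD0
    calc _ ≤ |C - ∑ j ∈ range r, (-1) ^ j * ∑ T ∈ powersetCard j Bk, N T|
          + |∑ j ∈ range r, (-1) ^ j * ∑ T ∈ powersetCard j Bk, N T - D * alt (xb Om) r Bk|
          + |D * (alt (xb Om) r Bk - PB)| := abs_add_three _ _ _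
      _ ≤ _ := by linarith
  have h7 : ∑ j ∈ range (r + 1), es (xb Om) j Bk ≤ Real.exp L := by
    refine (sum_es_le_prod (xb Om) (xb_nonneg Om) Bk (r + 1)).trans ?_
    calc ∏ i ∈ Bk, (1 + xb Om i) ≤ ∏ i ∈ Bk, Real.exp (xb Om i) := by
          apply prod_le_prod
          · intro i _; have := xb_nonneg Om i; linarith
          · intro i _; have := Real.add_one_le_exp (xb Om i); linarith
      _ = Real.exp (∑ i ∈ Bk, xb Om i) := (Real.exp_sum _ _).symm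
      _ ≤ Real.exp L := Real.exp_le_exp.mpr hL
  have h8 : es (xb Om) r Bk ≤ L ^ r / r.factorial := by
    refine (es_le_pow (xb Om) (xb_nonneg Om) Bk r).trans ?_
    apply div_le_div_of_nonneg_right _ (by positivity)
    exact pow_le_pow_left₀ (sum_nonneg fun i _ => xb_nonneg Om i) hL r
  have h9 : ∑ j ∈ range (r + 1), es (fun ℓ => (#(Om ℓ) : ℝ)) j Bk
      ≤ (1 + ∑ ℓ ∈ Bk, (#(Om ℓ) : ℝ)) ^ r :=
    sum_es_le_pow _ (fun i => by positivity) Bk r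
  have h10 : D ≤ Real.exp (2 * L) * (M * (PB * PR)) := by
    have : 1 ≤ Real.exp (2 * L) * PB := by
      have h := mul_le_mul_of_nonneg_left hPBge (Real.exp_pos (2 * L)).le
      rw [← Real.exp_add] at h
      simpa using h
    calc D = D * 1 := by ring
      _ ≤ D * (Real.exp (2 * L) * PB) := mul_le_mul_of_nonneg_left this hD0
      _ = _ := by rw [hD]; ring
  refine h5.trans ?_
  rw [sum_add_distrib, ← mul_sum, ← mul_sum, ← mul_sum]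
  have h11 : 0 ≤ L ^ r / r.factorial := by positivity
  have h12 : 2 * (D * es (xb Om) r Bk)
      ≤ 2 * (Real.exp (2 * L) * (M * (PB * PR)) * (L ^ r / r.factorial)) := by
    have := mul_le_mul h10 h8 (es_nonneg _ (xb_nonneg Om) r Bk)
      (mul_nonneg (Real.exp_pos _).le (mul_nonneg hM0 (mul_nonneg hPB0.le hPR0)))
    linarith
  have h13 : η * (D * ∑ j ∈ range (r + 1), es (xb Om) j Bk)
      ≤ η * (Real.exp (2 * L) * (M * (PB * PR)) * Real.exp L) := by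
    apply mul_le_mul_of_nonneg_left _ hη
    exact mul_le_mul h10 h7 (sum_nonneg fun j _ => es_nonneg _ (xb_nonneg Om) j Bk)
      (mul_nonneg (Real.exp_pos _).le (mul_nonneg hM0 (mul_nonneg hPB0.le hPR0)))
  have h14 : E * ∑ j ∈ range (r + 1), es (fun ℓ => (#(Om ℓ) : ℝ)) j Bk
      ≤ E * (1 + ∑ ℓ ∈ Bk, (#(Om ℓ) : ℝ)) ^ r := mul_le_mul_of_nonneg_left h9 hE
  have h15 : Real.exp (3 * L) = Real.exp (2 * L) * Real.exp L := by
    rw [← Real.exp_add]; ring_nf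
  rw [h15]
  calc _ ≤ 2 * (Real.exp (2 * L) * (M * (PB * PR)) * (L ^ r / r.factorial))
        + (η * (Real.exp (2 * L) * (M * (PB * PR)) * Real.exp L)
          + E * (1 + ∑ ℓ ∈ Bk, (#(Om ℓ) : ℝ)) ^ r) := by linarith
    _ = _ := by ring

end Pool.Agent.Lib.MP_bae66e_nt.AP3
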