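import Pool.Agent.Lib.MP_bae66e_nt.Mg.G077
import Pool.Agent.Lib.MP_bae66e_nt.Cheb

/-!
# Almost all even integers: the matching lower bound
-/

set_option autoImplicit false

namespace Pool.Agent.Lib.MP_bae66e_nt.AP3

open Finset Nat Filter Topology

/-- the largest base -/
lemma exists_base' (M : ℕ) (hM : 1 ≤ M) (T1 : ℕ) (X : ℕ) (hX : (T1 + 1) ^ M ≤ X) :
    ∃ T : ℕ, T1 < T ∧ T ^ M ≤ X ∧ X < (T + 1) ^ M := by
  classical
  have hex : ∃ T : ℕ, X < (T + 1) ^ M :=
    ⟨X, (Nat.lt_succ_self X).trans_le (Nat.le_self_pow (by omega) (X + 1))⟩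
  obtain ⟨T, hT⟩ : ∃ T : ℕ, T = Nat.find hex := ⟨_, rfl⟩
  have h1 : X < (T + 1) ^ M := hT ▸ Nat.find_spec hex
  have hT1T : T1 < T := by
    by_contra hle
    push Not at hle
    have : (T + 1) ^ M ≤ (T1 + 1) ^ M := Nat.pow_le_pow_left (by omega) M
    omega
  have h2 : T ^ M ≤ X := by
    have := Nat.find_min hex (m := T - 1) (by omega)
    rw [not_lt, Nat.sub_add_cancel (by omega)] at this
    exact this
  exact ⟨T, hT1T, h2, h1⟩

lemma ev_loglog (c : ℝ) (hc : 0 < c) :
    ∀ᶠ X : ℕ in atTop, 1 ≤ Real.log (Real.log X) ∧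
      4 ≤ c * Real.log X * Real.log (Real.log X) ∧
      Real.log (Real.log X) / 2 ≤ Real.log (c * Real.log X * Real.log (Real.log X) / 2) := by
  have h1 : Tendsto (fun X : ℕ => Real.log X) atTop atTop :=
    Real.tendsto_log_atTop.comp tendsto_natCast_atTop_atTop
  have h2 := h1.eventually (eventually_ge_atTop (max (Real.exp 1) (max (4 / c) ((2 / c) ^ 2))))
  filter_upwards [h2] with X hX
  set n := Real.log X
  have hne : Real.exp 1 ≤ n := (le_max_left _ _).trans hX
  have hn4 : 4 / c ≤ n := (le_max_left _ _).trans ((le_max_right _ _).trans hX)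
  have hn2 : (2 / c) ^ 2 ≤ n := (le_max_right _ _).trans ((le_max_right _ _).trans hX)
  have hn0 : 0 < n := lt_of_lt_of_le (Real.exp_pos 1) hne
  have hlogn : 1 ≤ Real.log n := by rwa [Real.le_log_iff_exp_le hn0]
  rw [div_le_iff₀ hc] at hn4
  refine ⟨hlogn, ?_, ?_⟩
  · nlinarith
  · have h3 : Real.sqrt n ≤ c * n * Real.log n / 2 := by
      have hs : 0 < Real.sqrt n := Real.sqrt_pos.mpr hn0
      have h4 : 2 / c ≤ Real.sqrt n := by
        rw [← Real.sqrt_sq (by positivity : 0 ≤ 2 / c)]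
        exact Real.sqrt_le_sqrt hn2
      rw [div_le_iff₀ hc] at h4
      have h5 : Real.sqrt n * Real.sqrt n = n := Real.mul_self_sqrt hn0.le
      calc Real.sqrt n = Real.sqrt n * 2 / 2 := by ring
        _ ≤ Real.sqrt n * (Real.sqrt n * c) / 2 := by gcongr
        _ = c * (Real.sqrt n * Real.sqrt n) * 1 / 2 := by ring
        _ = c * n * 1 / 2 := by rw [h5]
        _ ≤ c * n * Real.log n / 2 := by gcongr
    calc Real.log n / 2 = Real.log (Real.sqrt n) := by rw [Real.log_sqrt hn0.le]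
      _ ≤ _ := Real.log_le_log (Real.sqrt_pos.mpr hn0) h3

/-- the lower bound for almost all even integers -/
theorem lower_part (ε : ℝ) (hε : 0 < ε) : ∃ c : ℝ, 0 < c ∧ ∃ X₀ : ℕ, ∀ X : ℕ, X₀ ≤ X →
    ∀ Bad : Finset ℕ, (∀ m ∈ Bad, 1 ≤ m ∧ m ≤ X ∧
      ∃ p q : ℕ, p.Prime ∧ m = p + q ∧ (p : ℝ) ≤ c * Real.log m * Real.log (Real.log m) ∧
        ∀ r : ℕ, r.Prime → r ∣ q → m < r ^ 7) →
    (#Bad : ℝ) ≤ ε * X := by
  classical
  obtain ⟨L0, hL01, b, hb⟩ := exists_rough_count
  obtain ⟨T0, hT02, hT0⟩ := hb b le_rfl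
  obtain ⟨η, hη⟩ : ∃ η : ℝ, η = flEta L0 b := ⟨_, rfl⟩
  have hη0 : 0 ≤ η := by rw [hη]; unfold flEta; positivity
  rw [← hη] at hT0
  obtain ⟨e, he⟩ : ∃ e : ℕ, e = 2 * b + 8 := ⟨_, rfl⟩
  have he0 : (0 : ℝ) < e := by rw [he]; positivity
  obtain ⟨c, hc⟩ : ∃ c : ℝ, c = ε / (20 * (1 + 2 * η) * e) := ⟨_, rfl⟩
  have hc0 : 0 < c := by rw [hc]; positivity
  obtain ⟨δ, hδ⟩ : ∃ δ : ℝ, δ = min (ε / 2) 1 := ⟨_, rfl⟩
  have hδ0 : 0 < δ := by rw [hδ]; positivity
  have hδε : δ ≤ ε / 2 := by rw [hδ]; exact min_le_left _ _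
  have hev := ev_loglog c hc0
  obtain ⟨X1, hX1⟩ := eventually_atTop.mp hev
  refine ⟨c, hc0, max (max X1 3) ((max (max T0 2) ⌈2 / δ⌉₊ + 1) ^ e), ?_⟩
  intro X hX Bad hBad
  have hXX1 : X1 ≤ X := (le_max_left _ _).trans ((le_max_left _ _).trans hX)
  have hX3 : 3 ≤ X := (le_max_right _ _).trans ((le_max_left _ _).trans hX)
  obtain ⟨hll1, hY4, hllY⟩ := hX1 X hXX1
  obtain ⟨T, hT1T, hTX, hXT⟩ := exists_base' e (by omega) _ X ((le_max_right _ _).trans hX)
  have hTT0 : T0 ≤ T := by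
    have := (le_max_left T0 2).trans (le_max_left (max T0 2) ⌈2 / δ⌉₊)
    omega
  have hT2 : 2 ≤ T := hT02.trans hTT0
  have hTδ : 2 / δ ≤ T := by
    have h1 : ⌈2 / δ⌉₊ ≤ T := by
      have := le_max_right (max T0 2) ⌈2 / δ⌉₊
      omega
    exact (Nat.le_ceil _).trans (by exact_mod_cast h1)
  rw [div_le_iff₀ hδ0] at hTδ
  have hT0' : (0 : ℝ) < T := by positivity
  have hX0 : (0 : ℝ) < X := by positivity
  obtain ⟨A, hA⟩ : ∃ A : ℕ, A = ⌊δ * X⌋₊ := ⟨_, rfl⟩
  have hAle : (A : ℝ) ≤ δ * X := by rw [hA]; exact Nat.floor_le (by positivity)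
  have hAlt : δ * X < A + 1 := by rw [hA]; exact Nat.lt_floor_add_one _
  -- `T ^ 7 ≤ A`
  have hT7A : T ^ 7 ≤ A := by
    have h1 : (T : ℝ) ^ 8 ≤ X := by
      calc (T : ℝ) ^ 8 ≤ (T : ℝ) ^ e := by
            apply pow_le_pow_right₀ (by exact_mod_cast (by omega : 1 ≤ T))
            omega
        _ ≤ X := by exact_mod_cast hTX
    have h2 : (T : ℝ) ^ 7 < A + 1 := by
      calc (T : ℝ) ^ 7 = 1 * (T : ℝ) ^ 7 := (one_mul _).symm
        _ ≤ (T * δ) * (T : ℝ) ^ 7 := by gcongr; linarith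
        _ = δ * (T : ℝ) ^ 8 := by ring
        _ ≤ δ * X := by gcongr
        _ < A + 1 := hAlt
    have : T ^ 7 < A + 1 := by exact_mod_cast h2
    omega
  have h128 : 128 ≤ A := by
    calc 128 = 2 ^ 7 := by norm_num
      _ ≤ T ^ 7 := Nat.pow_le_pow_left hT2 7
      _ ≤ A := hT7A
  obtain ⟨Y, hY⟩ : ∃ Y : ℝ, Y = c * Real.log X * Real.log (Real.log X) := ⟨_, rfl⟩
  rw [← hY] at hY4 hllY
  obtain ⟨y, hy⟩ : ∃ y : ℕ, y = ⌊Y⌋₊ := ⟨_, rfl⟩
  have hyle : (y : ℝ) ≤ Y := by rw [hy]; exact Nat.floor_le (by linarith)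
  have hylt : Y < y + 1 := by rw [hy]; exact Nat.lt_floor_add_one _
  have hy2 : 2 ≤ y := by
    have : (3 : ℝ) < y + 1 := by linarith
    have : 3 < y + 1 := by exact_mod_cast this
    omega
  -- covering
  have hcover : Bad ⊆ Ioc 0 A ∪ (prI 0 y).biUnion (fun p => (Ioc A X).filter
      (fun m => p < m ∧ m - p ∈ rset T X)) := by
    intro m hm
    obtain ⟨hm1, hmX, p, q, hp, hmpq, hple, hq⟩ := hBad m hm
    rcases le_or_gt m A with hmA | hmA
    · exact mem_union_left _ (mem_Ioc.mpr ⟨hm1, hmA⟩)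
    apply mem_union_right
    have hq0 : q ≠ 0 := by
      rintro rfl
      have := hq 2 Nat.prime_two (dvd_zero 2)
      norm_num at this
      omega
    have hm0 : (0 : ℝ) < m := by exact_mod_cast hm1
    have hlm : Real.log m ≤ Real.log X := Real.log_le_log hm0 (by exact_mod_cast hmX)
    have hlm0 : 0 < Real.log m := Real.log_pos (by exact_mod_cast (by omega : 1 < m))
    have hllm : Real.log (Real.log m) ≤ Real.log (Real.log X) := Real.log_le_log hlm0 hlm
    have hpY : (p : ℝ) ≤ Y := by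
      rw [hY]
      refine hple.trans ?_
      have h1 : 0 ≤ c * Real.log X := mul_nonneg hc0.le (hlm0.le.trans hlm)
      calc c * Real.log m * Real.log (Real.log m)
          ≤ c * Real.log m * Real.log (Real.log X) := by gcongr
        _ ≤ c * Real.log X * Real.log (Real.log X) := by gcongr
    have hpy : p ≤ y := by rw [hy]; exact Nat.le_floor hpY
    refine mem_biUnion.mpr ⟨p, mem_prI.mpr ⟨⟨hp.pos, hpy⟩, hp⟩, mem_filter.mpr
      ⟨mem_Ioc.mpr ⟨hmA, hmX⟩, by omega, ?_⟩⟩
    have hmp : m - p = q := by omega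
    rw [hmp, mem_rset]
    refine ⟨⟨by omega, by omega⟩, ?_⟩
    intro r hr hrq
    have h1 := hq r hr hrq
    have h2 : T ^ 7 < r ^ 7 := by omega
    exact lt_of_pow_lt_pow_left₀ 7 (Nat.zero_le r) h2
  -- the number of rough integers
  have hrset : (#(rset T X) : ℝ) ≤ (1 + 2 * η) * e * (X / Real.log X) := by
    have h1 := (abs_le.mp (hT0 T hTT0 X (by
      calc T ^ (2 * b + 7) ≤ T ^ e := Nat.pow_le_pow_right (by omega) (by omega)
        _ ≤ X := hTX))).2
    have h2 := KT_le T (by omega)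
    have hlX : 0 < Real.log X := Real.log_pos (by exact_mod_cast (by omega : 1 < X))
    have hlT1 : Real.log X / e ≤ Real.log ((T : ℝ) + 1) := by
      rw [div_le_iff₀ he0]
      have h3 : Real.log X ≤ Real.log (((T : ℝ) + 1) ^ e) :=
        Real.log_le_log hX0 (by exact_mod_cast hXT.le)
      rw [Real.log_pow] at h3
      linarith
    have h3 : KT T ≤ e / Real.log X := by
      calc KT T ≤ 1 / Real.log ((T : ℝ) + 1) := h2
        _ ≤ 1 / (Real.log X / e) := by gcongr
        _ = e / Real.log X := by rw [one_div_div]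
    have hK := KT_pos T
    calc (#(rset T X) : ℝ) ≤ (1 + 2 * η) * (KT T * X) := by linarith
      _ ≤ (1 + 2 * η) * (e / Real.log X * X) := by gcongr
      _ = _ := by ring
  -- the number of primes
  have hprimes : (#(prI 0 y) : ℝ) ≤ 10 * c * Real.log X := by
    have h1 := pi_upper y hy2
    have h2 : #(prI 0 y) = Nat.primeCounting y := by
      rw [← Nat.primesLE_card_eq_primeCounting]
      congr 1
      ext p
      rw [mem_prI, Nat.mem_primesLE]
      constructor
      · rintro ⟨⟨h3, h4⟩, h5⟩; exact ⟨h4, h5⟩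
      · rintro ⟨h4, h5⟩; exact ⟨⟨h5.pos, h4⟩, h5⟩
    rw [h2]
    have hly : Real.log (Real.log X) / 2 ≤ Real.log y := by
      refine hllY.trans ?_
      apply Real.log_le_log (by linarith)
      linarith
    have hly0 : 0 < Real.log (Real.log X) / 2 := by linarith
    calc (Nat.primeCounting y : ℝ) ≤ 5 * y / Real.log y := h1
      _ ≤ 5 * Y / (Real.log (Real.log X) / 2) := by
          gcongr
      _ = 10 * c * Real.log X := by
          rw [hY]
          field_simp
          ring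
  have hlX : 0 < Real.log X := Real.log_pos (by exact_mod_cast (by omega : 1 < X))
  have hcount : (#Bad : ℝ) ≤ A + #(prI 0 y) * #(rset T X) := by
    have h1 : #Bad ≤ A + #(prI 0 y) * #(rset T X) := by
      refine (card_le_card hcover).trans ((card_union_le _ _).trans ?_)
      apply Nat.add_le_add
      · rw [Nat.card_Ioc]; omega
      · refine card_biUnion_le.trans ?_
        rw [← smul_eq_mul, ← sum_const]
        apply sum_le_sum
        intro p _
        apply card_le_card_of_injOn (fun m => m - p)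
        · intro m hm
          rw [mem_coe, mem_filter] at hm
          exact hm.2.2
        · intro m hm m' hm' h
          rw [mem_coe, mem_filter] at hm hm'
          simp only at h
          have h3 := hm.2.1
          have h4 := hm'.2.1
          omega
    exact_mod_cast h1
  calc (#Bad : ℝ) ≤ A + #(prI 0 y) * #(rset T X) := hcount
    _ ≤ ε / 2 * X + 10 * c * Real.log X * ((1 + 2 * η) * e * (X / Real.log X)) := by
        have h1 : (A : ℝ) ≤ ε / 2 * X := hAle.trans (by gcongr)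
        gcongr
    _ = ε / 2 * X + (c * (20 * (1 + 2 * η) * e)) / 2 * X := by
        field_simp
        ring
    _ = ε * X := by
        rw [hc, div_mul_cancel₀]
        · ring
        · positivity

end Pool.Agent.Lib.MP_bae66e_nt.AP3
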