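import Pool.Agent.Lib.MP_bae66e_nt.AP3.ClassBad

/-!
# Almost all even integers: the upper bound
-/

set_option autoImplicit false

namespace Pool.Agent.Lib.MP_bae66e_nt.AP3

open Finset Nat Filter Topology ArithmeticFunction

/-- the least exponent base -/
lemma exists_base (M : ℕ) (hM : 1 ≤ M) (T1 : ℕ) (hT1 : 2 * M ≤ T1) (X : ℕ) (hX : T1 ^ M < X) :
    ∃ T : ℕ, T1 < T ∧ X ≤ T ^ M ∧ T ^ M ≤ 2 * X := by
  classical
  have hex : ∃ T : ℕ, X ≤ T ^ M := ⟨X, Nat.le_self_pow (by omega) X⟩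
  obtain ⟨T, hT⟩ : ∃ T : ℕ, T = Nat.find hex := ⟨_, rfl⟩
  have h1 : X ≤ T ^ M := hT ▸ Nat.find_spec hex
  have hT1T : T1 < T := by
    by_contra hle
    push Not at hle
    have : T ^ M ≤ T1 ^ M := Nat.pow_le_pow_left hle M
    omega
  have h2 : (T - 1) ^ M < X := by
    have := Nat.find_min hex (m := T - 1) (by omega)
    omega
  refine ⟨T, hT1T, h1, ?_⟩
  have hT0 : (0 : ℝ) < T := by exact_mod_cast (by omega : 0 < T)
  have h3 : (1 / 2 : ℝ) ≤ (1 - 1 / (T : ℝ)) ^ M := by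
    have h4 := one_add_mul_le_pow (a := -(1 / (T : ℝ))) (by
      have : 1 / (T : ℝ) ≤ 1 := by
        rw [div_le_one hT0]; exact_mod_cast (by omega : 1 ≤ T)
      linarith) M
    have h5 : (M : ℝ) * (1 / T) ≤ 1 / 2 := by
      rw [mul_one_div, div_le_div_iff₀ hT0 (by norm_num)]
      have : (2 * M : ℝ) ≤ T := by exact_mod_cast (by omega : 2 * M ≤ T)
      linarith
    have e1 : (1 : ℝ) + -(1 / (T : ℝ)) = 1 - 1 / T := by ring
    rw [e1] at h4
    linarith
  have h6 : ((T - 1 : ℕ) : ℝ) ^ M = (1 - 1 / (T : ℝ)) ^ M * (T : ℝ) ^ M := by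
    rw [← mul_pow]
    congr 1
    rw [Nat.cast_sub (by omega)]
    field_simp
    simp
  have h7 : ((T - 1 : ℕ) : ℝ) ^ M < X := by exact_mod_cast h2
  rw [h6] at h7
  have h8 : 1 / 2 * (T : ℝ) ^ M ≤ (1 - 1 / (T : ℝ)) ^ M * (T : ℝ) ^ M := by gcongr
  have h9 : (T : ℝ) ^ M ≤ 2 * X := by linarith
  exact_mod_cast h9

/-- multiples of a square -/
lemma card_sq_dvd_le (A X p q : ℕ) (hp : p ≤ A) :
    (#{m ∈ Ioc A X | q * q ∣ m - p} : ℝ) ≤ X * (1 / (q : ℝ) ^ 2) := by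
  have h1 : #{m ∈ Ioc A X | q * q ∣ m - p} ≤ X / (q * q) := by
    calc #{m ∈ Ioc A X | q * q ∣ m - p} ≤ #{n ∈ Ioc 0 X | q * q ∣ n} := by
          apply card_le_card_of_injOn (fun m => m - p)
          · intro m hm
            rw [mem_coe, mem_filter, mem_Ioc] at hm
            simp only
            rw [mem_coe, mem_filter, mem_Ioc]
            exact ⟨⟨by omega, by omega⟩, hm.2⟩
          · intro m hm m' hm' h
            rw [mem_coe, mem_filter, mem_Ioc] at hm hm'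
            simp only at h
            omega
      _ = X / (q * q) := Nat.Ioc_filter_dvd_card_eq_div X (q * q)
  calc (#{m ∈ Ioc A X | q * q ∣ m - p} : ℝ) ≤ ((X / (q * q) : ℕ) : ℝ) := by exact_mod_cast h1
    _ ≤ (X : ℝ) / ((q * q : ℕ) : ℝ) := Nat.cast_div_le
    _ = X * (1 / (q : ℝ) ^ 2) := by push_cast; rw [mul_one_div, pow_two]

/-- the exceptional set coming from squares -/
lemma card_Q_le (A X T Z : ℕ) (hTA : T ≤ A) (hZ : 1 ≤ Z) :
    (#((Ioc A X).filter (fun m => ∃ p ∈ Ioc 0 T, ∃ q ∈ prI Z X, q * q ∣ m - p)) : ℝ)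
      ≤ T * (X / Z) := by
  classical
  have h1 : ((Ioc A X).filter (fun m => ∃ p ∈ Ioc 0 T, ∃ q ∈ prI Z X, q * q ∣ m - p))
      ⊆ (Ioc 0 T).biUnion (fun p => (prI Z X).biUnion (fun q => {m ∈ Ioc A X | q * q ∣ m - p})) := by
    intro m hm
    obtain ⟨h2, p, hp, q, hq, h3⟩ := mem_filter.mp hm
    exact mem_biUnion.mpr ⟨p, hp, mem_biUnion.mpr ⟨q, hq, mem_filter.mpr ⟨h2, h3⟩⟩⟩
  have hZ0 : (0 : ℝ) < Z := by exact_mod_cast hZ
  calc (#((Ioc A X).filter (fun m => ∃ p ∈ Ioc 0 T, ∃ q ∈ prI Z X, q * q ∣ m - p)) : ℝ)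
      ≤ (#((Ioc 0 T).biUnion (fun p => (prI Z X).biUnion
          (fun q => {m ∈ Ioc A X | q * q ∣ m - p}))) : ℝ) := by exact_mod_cast card_le_card h1
    _ ≤ ∑ p ∈ Ioc 0 T, ∑ q ∈ prI Z X, (#{m ∈ Ioc A X | q * q ∣ m - p} : ℝ) := by
        have h2 : #((Ioc 0 T).biUnion (fun p => (prI Z X).biUnion
            (fun q => {m ∈ Ioc A X | q * q ∣ m - p})))
            ≤ ∑ p ∈ Ioc 0 T, ∑ q ∈ prI Z X, #{m ∈ Ioc A X | q * q ∣ m - p} :=
          card_biUnion_le.trans (sum_le_sum fun p _ => card_biUnion_le)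
        exact_mod_cast h2
    _ ≤ ∑ p ∈ Ioc 0 T, ∑ q ∈ prI Z X, (X : ℝ) * (1 / (q : ℝ) ^ 2) := by
        apply sum_le_sum
        intro p hp
        apply sum_le_sum
        intro q _
        exact card_sq_dvd_le A X p q ((mem_Ioc.mp hp).2.trans hTA)
    _ = T * (X * ∑ q ∈ prI Z X, 1 / (q : ℝ) ^ 2) := by
        rw [sum_const, Nat.card_Ioc, nsmul_eq_mul, ← mul_sum]; rfl
    _ ≤ T * (X * (1 / Z)) := by
        have := sum_inv_sq_Ioc_le Z X hZ
        gcongr
    _ = T * (X / Z) := by rw [mul_one_div]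

/-- the upper bound for almost all even integers -/
theorem upper_part (ε : ℝ) (hε : 0 < ε) : ∃ C : ℝ, 0 < C ∧ ∃ X₀ : ℕ, ∀ X : ℕ, X₀ ≤ X →
    ∀ Bad : Finset ℕ, (∀ m ∈ Bad, 1 ≤ m ∧ m ≤ X ∧ 2 ∣ m ∧
      ¬ ∃ p q : ℕ, p.Prime ∧ m = p + q ∧ (p : ℝ) ≤ C * Real.log m * Real.log (Real.log m) ∧
        1 < q ∧ cardFactors q ≤ 3 ∧ ∀ r : ℕ, r.Prime → r ∣ q → m < r ^ 7) →
    (#Bad : ℝ) ≤ ε * X := by
  classical
  obtain ⟨u, b, J, C1, hu3, hb1, hev⟩ := exists_class_bad (ε / 4) (by positivity)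
  obtain ⟨δ, hδ⟩ : ∃ δ : ℝ, δ = min (ε / 4) (1 / 4) := ⟨_, rfl⟩
  have hδ0 : 0 < δ := by rw [hδ]; positivity
  have hδε : δ ≤ ε / 4 := by rw [hδ]; exact min_le_left _ _
  have hδ4 : δ ≤ 1 / 4 := by rw [hδ]; exact min_le_right _ _
  have hbb : 1 ≤ b ^ 2 := Nat.one_le_pow _ _ hb1
  obtain ⟨M, hM⟩ : ∃ M : ℕ, M = 600 * b ^ 2 := ⟨_, rfl⟩
  have hM1 : 1 ≤ M := by omega
  have evn := tendsto_nn b hb1
  have hev2 := hev.and ((eventually_ge_atTop (2 * M)).and ((eventually_ge_atTop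
    ⌈4 / δ⌉₊).and ((eventually_ge_atTop ⌈4 / ε⌉₊).and
    (evn.eventually (eventually_ge_atTop (max (max 1 (Real.exp 2)) (2 * Real.log (2 / δ))))))))
  obtain ⟨T1, hT1⟩ := eventually_atTop.mp hev2
  refine ⟨4 * 2 ^ J * (C1 + 1), by positivity, (max T1 (2 * M)) ^ M + 1, ?_⟩
  intro X hX Bad hBad
  obtain ⟨T, hTT1, hXT, hTX⟩ := exists_base M hM1 (max T1 (2 * M)) (le_max_right _ _) X (by omega)
  obtain ⟨⟨huT, hpar, hJT, hclass⟩, hT2M, hTδ, hTε, hnbig⟩ :=
    hT1 T ((le_max_left _ _).trans hTT1.le)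
  have hT2 := hpar.hT
  have hT0 : (0 : ℝ) < T := by positivity
  have hTδ' : 4 / δ ≤ T := (Nat.le_ceil _).trans (by exact_mod_cast hTδ)
  have hTε' : 4 / ε ≤ T := (Nat.le_ceil _).trans (by exact_mod_cast hTε)
  rw [div_le_iff₀ hδ0] at hTδ'
  rw [div_le_iff₀ hε] at hTε'
  have hTXr : (T : ℝ) ^ M ≤ 2 * X := by exact_mod_cast hTX
  have hXTr : (X : ℝ) ≤ (T : ℝ) ^ M := by exact_mod_cast hXT
  have hTM2 : (T : ℝ) ^ 2 ≤ (T : ℝ) ^ M := by
    apply pow_le_pow_right₀ (by exact_mod_cast (by omega : 1 ≤ T))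
    omega
  have hX0 : (0 : ℝ) < X := by
    have : (0 : ℝ) < (T : ℝ) ^ M := by positivity
    linarith
  -- the cut-off
  obtain ⟨A, hA⟩ : ∃ A : ℕ, A = ⌊δ * X⌋₊ := ⟨_, rfl⟩
  have hAle : (A : ℝ) ≤ δ * X := by rw [hA]; exact Nat.floor_le (by positivity)
  have hAlt : δ * X < A + 1 := by rw [hA]; exact Nat.lt_floor_add_one _
  have hTA : T ≤ A := by
    have h1 : (T : ℝ) < A + 1 := by
      have h2 : (T : ℝ) ^ 2 / 2 ≤ X := by linarith
      have h3 : δ * ((T : ℝ) ^ 2 / 2) ≤ δ * X := by gcongr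
      have h4 : 2 * (T : ℝ) ≤ δ * ((T : ℝ) ^ 2 / 2) := by nlinarith
      linarith
    have : T < A + 1 := by exact_mod_cast h1
    omega
  have hAX : A < X := by
    have : (A : ℝ) < X := by nlinarith
    exact_mod_cast this
  have hlen : ((T : ℝ) ^ (600 * b ^ 2)) / 4 ≤ (X : ℝ) - A := by
    rw [← hM]
    nlinarith
  have hcl := hclass A X hTA hAX (by rw [← hM]; exact hXT) hlen
  choose! Pβ hPβ hbad using hcl
  obtain ⟨W, hW⟩ : ∃ W : ℕ, W = prm u := ⟨_, rfl⟩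
  have hW0 : 0 < W := hW ▸ prm_pos u
  have hW0' : (0 : ℝ) < W := by exact_mod_cast hW0
  rw [← hW] at hbad
  obtain ⟨Z, hZ⟩ : ∃ Z : ℕ, Z = T ^ (99 * b ^ 2) := ⟨_, rfl⟩
  have hTZ : T * T ≤ Z := by
    rw [hZ, ← pow_two]
    exact Nat.pow_le_pow_right (by omega) (by omega)
  have hZ1 : 1 ≤ Z := by
    have : 1 ≤ T * T := Nat.mul_pos (by omega) (by omega)
    omega
  -- covering of the bad set
  set badβ : ℕ → Finset ℕ := fun β => (Mset A X W β).filter
    (fun m => Sm T (dset T (T ^ (297 * b ^ 2)))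
        (ww T (T ^ (99 * b ^ 2)) (T ^ (200 * b ^ 2)) (T ^ (600 * b ^ 2))) (Pβ β) m ≤ 0) with hbadβ
  set Q := (Ioc A X).filter (fun m => ∃ p ∈ Ioc 0 T, ∃ q ∈ prI Z X, q * q ∣ m - p) with hQ
  have hcover : Bad ⊆ Ioc 0 A ∪ (((range W).filter (fun β => 2 ∣ β)).biUnion badβ ∪ Q) := by
    intro m hm
    obtain ⟨hm1, hmX, h2m, hno⟩ := hBad m hm
    rcases le_or_gt m A with hmA | hmA
    · exact mem_union_left _ (mem_Ioc.mpr ⟨hm1, hmA⟩)
    apply mem_union_right
    by_contra hnot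
    rw [mem_union, not_or] at hnot
    obtain ⟨hnb, hnQ⟩ := hnot
    have h2W : 2 ∣ W := by
      rw [hW]; exact dvd_prm (mem_prI.mpr ⟨⟨by norm_num, by omega⟩, Nat.prime_two⟩)
    obtain ⟨β, hβ⟩ : ∃ β : ℕ, β = m % W := ⟨_, rfl⟩
    have hβW : β < W := hβ ▸ Nat.mod_lt _ hW0
    have h2β : 2 ∣ β := by
      rw [hβ]; exact (Nat.dvd_mod_iff h2W).mpr h2m
    have hmβ : m ≡ β [MOD W] := by rw [hβ]; exact (Nat.mod_modEq m W).symm
    have hmM : m ∈ Mset A X W β := mem_filter.mpr ⟨mem_Ioc.mpr ⟨hmA, hmX⟩, hmβ⟩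
    have hpos : 0 < Sm T (dset T (T ^ (297 * b ^ 2)))
        (ww T (T ^ (99 * b ^ 2)) (T ^ (200 * b ^ 2)) (T ^ (600 * b ^ 2))) (Pβ β) m := by
      by_contra hle
      exact hnb (mem_biUnion.mpr ⟨β, mem_filter.mpr ⟨mem_range.mpr hβW, h2β⟩,
        mem_filter.mpr ⟨hmM, not_lt.mp hle⟩⟩)
    unfold Sm at hpos
    obtain ⟨p, hp, hfp⟩ := exists_lt_of_sum_lt (s := Pβ β) (f := fun _ => (0 : ℝ))
      (g := fun p => fp T (dset T (T ^ (297 * b ^ 2)))
        (ww T (T ^ (99 * b ^ 2)) (T ^ (200 * b ^ 2)) (T ^ (600 * b ^ 2))) p m)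
      (by rw [sum_const_zero]; exact hpos)
    obtain ⟨hpp, hpy⟩ := hPβ β h2β p hp
    have hpT : p < T := hpy.trans_lt hJT
    have hmeq : m = p + (m - p) := by omega
    have h1q : 1 < m - p := by omega
    have hrough : Rough T (m - p) := by
      by_contra hnr
      simp only [fp, if_neg hnr, lt_irrefl] at hfp
    simp only [fp, if_pos hrough] at hfp
    have hL3 : (T ^ (99 * b ^ 2)) ^ 3 ≤ T ^ (297 * b ^ 2) := by
      rw [← pow_mul]
      exact Nat.pow_le_pow_right (by omega) (by omega)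
    rw [← FF_eq hpar hL3] at hfp
    have hmp0 : 0 < m - p := by omega
    have hmpN : m - p ≤ T ^ (600 * b ^ 2) := by rw [← hM]; omega
    obtain ⟨hrZ, hΩ⟩ := FF_pos_imp hpar hmp0 hmpN hrough hfp
    have hΩ3 : cardFactors (m - p) ≤ 3 := by
      rcases hΩ with h | ⟨q, hqp, hqZ, hqq⟩
      · exact h
      · exfalso
        apply hnQ
        refine mem_filter.mpr ⟨mem_Ioc.mpr ⟨hmA, hmX⟩, p, mem_Ioc.mpr ⟨hpp.pos, hpT.le⟩, q, ?_, hqq⟩
        rw [← hZ] at hqZ
        refine mem_prI.mpr ⟨⟨hqZ, ?_⟩, hqp⟩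
        have h1 := Nat.le_of_dvd hmp0 hqq
        have h2 : q ≤ q * q := Nat.le_mul_of_pos_left q hqp.pos
        omega
    apply hno
    clear hΩ
    refine ⟨p, m - p, hpp, hmeq, ?_, h1q, hΩ3, ?_⟩
    · -- size of `p`
      obtain ⟨n, hn⟩ : ∃ n : ℝ, n = 600 * (b : ℝ) ^ 2 * Real.log T := ⟨_, rfl⟩
      rw [← hn] at hnbig
      have hn1 : 1 ≤ n := (le_max_left _ _).trans ((le_max_left _ _).trans hnbig)
      have hn2 : Real.exp 2 ≤ n := (le_max_right _ _).trans ((le_max_left _ _).trans hnbig)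
      have hn3 : 2 * Real.log (2 / δ) ≤ n := (le_max_right _ _).trans hnbig
      have hn0 : 0 < n := by linarith
      have hlogn : 2 ≤ Real.log n := by rwa [Real.le_log_iff_exp_le hn0]
      have hm0 : (0 : ℝ) < m := by exact_mod_cast hm1
      have hlm : n / 2 ≤ Real.log m := by
        have h1 : δ * X < m := by
          have : ((A + 1 : ℕ) : ℝ) ≤ m := by exact_mod_cast hmA
          push_cast at this
          linarith
        have h2 : (T : ℝ) ^ M / (2 / δ) ≤ m := by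
          have e1 : (T : ℝ) ^ M / (2 / δ) = δ * ((T : ℝ) ^ M / 2) := by field_simp
          rw [e1]
          have h3 : δ * ((T : ℝ) ^ M / 2) ≤ δ * X := by gcongr; linarith
          linarith
        have h3 := Real.log_le_log (by positivity) h2
        rw [Real.log_div (by positivity) (by positivity), Real.log_pow] at h3
        have h4 : (M : ℝ) * Real.log T = n := by rw [hM, hn]; push_cast; ring
        rw [h4] at h3
        linarith
      have hllm : Real.log n / 2 ≤ Real.log (Real.log m) := by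
        have h1 := Real.log_le_log (by positivity : 0 < n / 2) hlm
        rw [Real.log_div hn0.ne' (by norm_num)] at h1
        have h2 := Real.log_two_lt_d9
        linarith
      have h1 : (p : ℝ) ≤ 2 ^ J * (y0f C1 b T : ℝ) := by exact_mod_cast hpy
      have h2 : (y0f C1 b T : ℝ) ≤ C1 * n * Real.log n + 1 := by
        unfold y0f
        rw [← hn]
        exact (Nat.ceil_lt_add_one (by positivity)).le
      have h3 : (1 : ℝ) ≤ n * Real.log n := by nlinarith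
      have hlm0 : 0 < Real.log m := lt_of_lt_of_le (by positivity) hlm
      calc (p : ℝ) ≤ 2 ^ J * (y0f C1 b T : ℝ) := h1
        _ ≤ 2 ^ J * (C1 * n * Real.log n + 1) := by gcongr
        _ ≤ 2 ^ J * (C1 * n * Real.log n + n * Real.log n) := by gcongr
        _ = 4 * 2 ^ J * (C1 + 1) * (n / 2) * (Real.log n / 2) := by ring
        _ ≤ 4 * 2 ^ J * (C1 + 1) * Real.log m * Real.log (Real.log m) := by gcongr
    · intro r hr hrd
      have h1 := hrZ r hr hrd
      have h2 : T ^ (99 * b ^ 2 * 7) ≤ r ^ 7 := by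
        rw [pow_mul]
        exact Nat.pow_le_pow_left h1.le 7
      have h3 : T ^ (600 * b ^ 2) < T ^ (99 * b ^ 2 * 7) :=
        Nat.pow_lt_pow_right (by omega) (by omega)
      rw [← hM] at h3
      omega
  -- counting
  have hc1 : (#(Ioc 0 A) : ℝ) ≤ ε / 4 * X := by
    rw [Nat.card_Ioc]
    calc ((A - 0 : ℕ) : ℝ) = A := by simp
      _ ≤ δ * X := hAle
      _ ≤ ε / 4 * X := by gcongr
  have hc2 : (#(((range W).filter (fun β => 2 ∣ β)).biUnion badβ) : ℝ) ≤ ε / 4 * X := by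
    calc (#(((range W).filter (fun β => 2 ∣ β)).biUnion badβ) : ℝ)
        ≤ ∑ β ∈ (range W).filter (fun β => 2 ∣ β), (#(badβ β) : ℝ) := by
          exact_mod_cast card_biUnion_le
      _ ≤ ∑ β ∈ (range W).filter (fun β => 2 ∣ β), ε / 4 * (((X : ℝ) - A) / W) := by
          apply sum_le_sum
          intro β hβ
          exact hbad β (mem_filter.mp hβ).2
      _ = #((range W).filter (fun β => 2 ∣ β)) * (ε / 4 * (((X : ℝ) - A) / W)) := by
          rw [sum_const, nsmul_eq_mul]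
      _ ≤ W * (ε / 4 * ((X : ℝ) / W)) := by
          have h1 : (#((range W).filter (fun β => 2 ∣ β)) : ℝ) ≤ W := by
            have : #((range W).filter (fun β => 2 ∣ β)) ≤ W := by
              calc _ ≤ #(range W) := card_filter_le _ _
                _ = W := card_range W
            exact_mod_cast this
          have h2 : (X : ℝ) - A ≤ X := by
            have : (0 : ℝ) ≤ A := by positivity
            linarith
          have h3 : 0 ≤ (X : ℝ) - A := by
            have : (A : ℝ) ≤ X := by exact_mod_cast hAX.le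
            linarith
          gcongr
      _ = ε / 4 * X := by field_simp
  have hc3 : (#Q : ℝ) ≤ ε / 4 * X := by
    have h1 := card_Q_le A X T Z hTA hZ1
    refine h1.trans ?_
    have hZr : (T : ℝ) * T ≤ Z := by exact_mod_cast hTZ
    have hZ0 : (0 : ℝ) < Z := by exact_mod_cast hZ1
    calc (T : ℝ) * (X / Z) ≤ T * (X / (T * T)) := by gcongr
      _ = X / T := by field_simp
      _ ≤ ε / 4 * X := by
          rw [div_le_iff₀ hT0]
          nlinarith
  have hfin : #Bad ≤ #(Ioc 0 A) + (#(((range W).filter (fun β => 2 ∣ β)).biUnion badβ) + #Q) :=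
    (card_le_card hcover).trans ((card_union_le _ _).trans
      (Nat.add_le_add_left (card_union_le _ _) _))
  have hfin' : (#Bad : ℝ) ≤ #(Ioc 0 A)
      + (#(((range W).filter (fun β => 2 ∣ β)).biUnion badβ) + #Q) := by exact_mod_cast hfin
  have : 0 < ε * X := by positivity
  linarith

end Pool.Agent.Lib.MP_bae66e_nt.AP3
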