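import Pool.Agent.Lib.MP_bae66e_nt.AP3.Mert

/-!
# Mertens' theorem in arithmetic progressions
-/

set_option autoImplicit false

namespace Pool.Agent.Lib.MP_bae66e_nt.AP3

open Finset Nat ArithmeticFunction Filter Topology

/-- sum over a full period -/
lemma sum_full_period (q : ℕ) [NeZero q] (f : ZMod q → ℂ) (m : ℕ) :
    ∑ k ∈ Ioc m (m + q), f (k : ZMod q) = ∑ a, f a := by
  classical
  have hinj : Set.InjOn (fun k : ℕ => (k : ZMod q)) (Ioc m (m + q) : Finset ℕ) := by
    intro k hk k' hk' h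
    simp only at h
    rw [mem_coe, mem_Ioc] at hk hk'
    have h1 := (ZMod.natCast_eq_natCast_iff k k' q).mp h
    refine Nat.ModEq.eq_of_abs_lt h1 ?_
    rw [abs_lt]
    constructor <;> omega
  have himg : (Ioc m (m + q)).image (fun k : ℕ => (k : ZMod q)) = univ := by
    apply eq_univ_of_card
    rw [Finset.card_image_of_injOn hinj, Nat.card_Ioc, ZMod.card]
    omega
  rw [← himg, sum_image hinj]

/-- partial sums of a nonprincipal character -/
lemma char_sum_bound (q : ℕ) [NeZero q] (χ : DirichletCharacter ℂ q) (hχ : χ ≠ 1) (a b : ℕ) :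
    ‖∑ n ∈ Ioc a b, χ (n : ZMod q)‖ ≤ q := by
  have hq : 0 < q := Nat.pos_of_ne_zero (NeZero.ne q)
  induction b using Nat.strong_induction_on with
  | _ b ih =>
    rcases lt_or_ge b (a + q) with h | h
    · calc ‖∑ n ∈ Ioc a b, χ (n : ZMod q)‖ ≤ ∑ n ∈ Ioc a b, ‖χ (n : ZMod q)‖ := norm_sum_le _ _
        _ ≤ ∑ n ∈ Ioc a b, (1 : ℝ) := sum_le_sum fun n _ => χ.norm_le_one _
        _ = ((b - a : ℕ) : ℝ) := by rw [sum_const, Nat.card_Ioc]; simp
        _ ≤ q := by exact_mod_cast (by omega : b - a ≤ q)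
    · have h1 := ih (b - q) (by omega)
      have h2 : ∑ n ∈ Ioc a b, χ (n : ZMod q) = ∑ n ∈ Ioc a (b - q), χ (n : ZMod q)
          + ∑ n ∈ Ioc (b - q) (b - q + q), χ (n : ZMod q) := by
        rw [show b - q + q = b by omega, sum_Ioc_consecutive _ (by omega) (by omega)]
      rw [h2, sum_full_period q (fun a => χ a), χ.sum_eq_zero_of_ne_one hχ, add_zero]
      exact h1

/-- Abel's bound -/
lemma abel_bound (f : ℕ → ℂ) (g : ℕ → ℝ) (C : ℝ) (hC : 0 ≤ C) (a : ℕ)
    (hF : ∀ b, ‖∑ n ∈ Ioc a b, f n‖ ≤ C) (hg : ∀ n, a < n → 0 ≤ g n)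
    (hanti : ∀ n, a < n → g (n + 1) ≤ g n) (b : ℕ) :
    ‖∑ n ∈ Ioc a b, f n * (g n : ℂ)‖ ≤ C * g (a + 1) := by
  rcases le_or_gt b a with h | h
  · rw [Ioc_eq_empty (by omega), sum_empty, norm_zero]
    exact mul_nonneg hC (hg _ (by omega))
  · have key : ∀ b : ℕ, a + 1 ≤ b → ‖∑ n ∈ Ioc a b, f n * (g n : ℂ)
        - (g b : ℂ) * ∑ n ∈ Ioc a b, f n‖ ≤ C * (g (a + 1) - g b) := by
      intro b hb
      induction b, hb using Nat.le_induction with
      | base =>
        rw [Nat.Ioc_succ_singleton, sum_singleton, sum_singleton]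
        rw [mul_comm, sub_self, norm_zero, sub_self, mul_zero]
      | succ b hb ih =>
        rw [sum_Ioc_succ_top (by omega), sum_Ioc_succ_top (by omega)]
        have e : ∑ n ∈ Ioc a b, f n * (g n : ℂ) + f (b + 1) * (g (b + 1) : ℂ)
            - (g (b + 1) : ℂ) * (∑ n ∈ Ioc a b, f n + f (b + 1))
            = (∑ n ∈ Ioc a b, f n * (g n : ℂ) - (g b : ℂ) * ∑ n ∈ Ioc a b, f n)
              + ((g b - g (b + 1) : ℝ) : ℂ) * ∑ n ∈ Ioc a b, f n := by
          push_cast; ring
        rw [e]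
        refine (norm_add_le _ _).trans ?_
        have h1 : ‖((g b - g (b + 1) : ℝ) : ℂ) * ∑ n ∈ Ioc a b, f n‖
            ≤ (g b - g (b + 1)) * C := by
          rw [norm_mul, Complex.norm_real, Real.norm_of_nonneg
            (by have := hanti b (by omega); linarith)]
          apply mul_le_mul_of_nonneg_left (hF b)
          have := hanti b (by omega); linarith
        have h2 : C * (g (a + 1) - g (b + 1)) = C * (g (a + 1) - g b) + (g b - g (b + 1)) * C := by
          ring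
        rw [h2]
        exact _root_.add_le_add ih h1
    have h1 := key b h
    have h2 : ‖(g b : ℂ) * ∑ n ∈ Ioc a b, f n‖ ≤ g b * C := by
      rw [norm_mul, Complex.norm_real, Real.norm_of_nonneg (hg b h)]
      exact mul_le_mul_of_nonneg_left (hF b) (hg b h)
    calc ‖∑ n ∈ Ioc a b, f n * (g n : ℂ)‖
        = ‖(∑ n ∈ Ioc a b, f n * (g n : ℂ) - (g b : ℂ) * ∑ n ∈ Ioc a b, f n)
          + (g b : ℂ) * ∑ n ∈ Ioc a b, f n‖ := by rw [sub_add_cancel]
      _ ≤ _ := norm_add_le _ _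
      _ ≤ C * (g (a + 1) - g b) + g b * C := _root_.add_le_add h1 h2
      _ = C * g (a + 1) := by ring

/-- the tail of the series for `L(1, χ)` -/
lemma LFunction_one_sub_le (q : ℕ) [NeZero q] (χ : DirichletCharacter ℂ q) (hχ : χ ≠ 1) (y : ℕ) :
    ‖χ.LFunction 1 - ∑ n ∈ Ioc 0 y, χ (n : ZMod q) * (((1 / (n : ℝ) : ℝ)) : ℂ)‖
      ≤ q * (1 / ((y : ℝ) + 1)) := by
  -- the statement for `s > 1`
  have hs : ∀ s : ℝ, 1 < s →
      ‖χ.LFunction (s : ℂ) - ∑ n ∈ Ioc 0 y, χ (n : ZMod q) * ((((n : ℝ) ^ (-s) : ℝ)) : ℂ)‖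
        ≤ q * (1 / ((y : ℝ) + 1)) := by
    intro s hs
    have hsum := (DirichletCharacter.LSeriesSummable_of_one_lt_re χ (s := (s : ℂ)) (by simpa using hs))
    have hterm : ∀ n : ℕ, n ≠ 0 → LSeries.term (fun n : ℕ => χ (n : ZMod q)) (s : ℂ) n
        = χ (n : ZMod q) * ((((n : ℝ) ^ (-s) : ℝ)) : ℂ) := by
      intro n hn0
      rw [LSeries.term_of_ne_zero hn0, div_eq_mul_inv]
      congr 1
      rw [Real.rpow_neg (by positivity), Complex.ofReal_inv,
        Complex.ofReal_cpow (by positivity)]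
      simp
    have hpart : ∀ N : ℕ, ∑ n ∈ range (N + 1), LSeries.term (fun n : ℕ => χ (n : ZMod q)) (s : ℂ) n
        = ∑ n ∈ Ioc 0 N, χ (n : ZMod q) * ((((n : ℝ) ^ (-s) : ℝ)) : ℂ) := by
      intro N
      induction N with
      | zero => simp
      | succ N ih =>
        rw [sum_range_succ, ih, sum_Ioc_succ_top (Nat.zero_le N), hterm (N + 1) (by omega)]
    have hlim : Tendsto (fun N : ℕ => ∑ n ∈ Ioc 0 N, χ (n : ZMod q) * ((((n : ℝ) ^ (-s) : ℝ)) : ℂ))
        atTop (𝓝 (χ.LFunction (s : ℂ))) := by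
      rw [DirichletCharacter.LFunction_eq_LSeries χ (by simpa using hs)]
      have h1 := hsum.hasSum.tendsto_sum_nat
      have h2 := (tendsto_add_atTop_iff_nat 1).mpr h1
      refine h2.congr ?_
      intro N
      exact hpart N
    have hbound : ∀ N : ℕ, y ≤ N → ‖∑ n ∈ Ioc 0 N, χ (n : ZMod q) * ((((n : ℝ) ^ (-s) : ℝ)) : ℂ)
        - ∑ n ∈ Ioc 0 y, χ (n : ZMod q) * ((((n : ℝ) ^ (-s) : ℝ)) : ℂ)‖
        ≤ q * (1 / ((y : ℝ) + 1)) := by
      intro N hN
      have h1 : ∑ n ∈ Ioc 0 N, χ (n : ZMod q) * ((((n : ℝ) ^ (-s) : ℝ)) : ℂ)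
          - ∑ n ∈ Ioc 0 y, χ (n : ZMod q) * ((((n : ℝ) ^ (-s) : ℝ)) : ℂ)
          = ∑ n ∈ Ioc y N, χ (n : ZMod q) * ((((n : ℝ) ^ (-s) : ℝ)) : ℂ) := by
        rw [← sum_Ioc_consecutive _ (Nat.zero_le y) hN, add_sub_cancel_left]
      rw [h1]
      have h2 := abel_bound (fun n => χ (n : ZMod q)) (fun n => (n : ℝ) ^ (-s)) q (by positivity) y
        (fun b => char_sum_bound q χ hχ y b) (fun n _ => by positivity)
        (fun n hn => by
          apply Real.rpow_le_rpow_of_nonpos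
          · exact_mod_cast (by omega : 0 < n)
          · push_cast; linarith
          · linarith) N
      refine h2.trans ?_
      apply mul_le_mul_of_nonneg_left _ (by positivity)
      push_cast
      have hy1 : (1 : ℝ) ≤ (y : ℝ) + 1 := by
        have : (0 : ℝ) ≤ y := by positivity
        linarith
      calc ((y : ℝ) + 1) ^ (-s) ≤ ((y : ℝ) + 1) ^ (-1 : ℝ) :=
            Real.rpow_le_rpow_of_exponent_le hy1 (by linarith)
        _ = 1 / ((y : ℝ) + 1) := by rw [Real.rpow_neg_one, one_div]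
    refine le_of_tendsto (hlim.sub_const _).norm ?_
    filter_upwards [eventually_ge_atTop y] with N hN using hbound N hN
  -- let `s → 1+`
  have hcont : Tendsto (fun s : ℝ => ‖χ.LFunction (s : ℂ)
      - ∑ n ∈ Ioc 0 y, χ (n : ZMod q) * ((((n : ℝ) ^ (-s) : ℝ)) : ℂ)‖) (𝓝[>] 1)
      (𝓝 ‖χ.LFunction 1 - ∑ n ∈ Ioc 0 y, χ (n : ZMod q) * (((1 / (n : ℝ) : ℝ)) : ℂ)‖) := by
    apply Tendsto.mono_left _ nhdsWithin_le_nhds
    apply Tendsto.norm
    apply Tendsto.sub
    · have h1 : Continuous χ.LFunction := (DirichletCharacter.differentiable_LFunction hχ).continuous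
      have h2 : Tendsto (fun s : ℝ => χ.LFunction (s : ℂ)) (𝓝 1) (𝓝 (χ.LFunction ((1 : ℝ) : ℂ))) :=
        (h1.comp Complex.continuous_ofReal).tendsto 1
      simpa using h2
    · apply tendsto_finsetSum
      intro n hn
      have hn0 : (n : ℝ) ≠ 0 := by
        have := (mem_Ioc.mp hn).1
        positivity
      apply Tendsto.const_mul
      apply (Complex.continuous_ofReal.tendsto _).comp
      have h1 : Continuous (fun s : ℝ => (n : ℝ) ^ (-s)) :=
        Real.continuous_const_rpow hn0 |>.comp continuous_neg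
      have h2 := h1.tendsto 1
      simpa [Real.rpow_neg_one, one_div] using h2
  refine le_of_tendsto hcont ?_
  filter_upwards [self_mem_nhdsWithin] with s hs' using hs s hs'

lemma log_div_le_one (n : ℕ) : Real.log n / n ≤ 1 := by
  rcases Nat.eq_zero_or_pos n with rfl | hn
  · simp
  · have hn0 : (0 : ℝ) < n := by exact_mod_cast hn
    rw [div_le_one hn0]
    have := Real.log_le_sub_one_of_pos hn0
    linarith

lemma log_div_nonneg (n : ℕ) : 0 ≤ Real.log n / n := by
  have := Real.log_natCast_nonneg n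
  positivity

lemma char_log_bound (q : ℕ) [NeZero q] (χ : DirichletCharacter ℂ q) (hχ : χ ≠ 1) (x : ℕ) :
    ‖∑ n ∈ Ioc 0 x, χ (n : ZMod q) * ((Real.log n / n : ℝ) : ℂ)‖ ≤ 3 + q := by
  have hsmall : ∀ m : ℕ, m ≤ 3 →
      ‖∑ n ∈ Ioc 0 m, χ (n : ZMod q) * ((Real.log n / n : ℝ) : ℂ)‖ ≤ 3 := by
    intro m hm
    calc _ ≤ ∑ n ∈ Ioc 0 m, ‖χ (n : ZMod q) * ((Real.log n / n : ℝ) : ℂ)‖ := norm_sum_le _ _
      _ ≤ ∑ n ∈ Ioc 0 m, (1 : ℝ) := by
          apply sum_le_sum
          intro n _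
          rw [norm_mul, Complex.norm_real, Real.norm_of_nonneg (log_div_nonneg n)]
          calc ‖χ (n : ZMod q)‖ * (Real.log n / n) ≤ 1 * 1 := by
                apply mul_le_mul (χ.norm_le_one _) (log_div_le_one n) (log_div_nonneg n)
                  zero_le_one
            _ = 1 := one_mul 1
      _ = m := by rw [sum_const, Nat.card_Ioc]; simp
      _ ≤ 3 := by exact_mod_cast hm
  have hq0 : (0 : ℝ) ≤ q := by positivity
  rcases le_or_gt x 3 with h | h
  · have := hsmall x h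
    linarith
  · rw [← sum_Ioc_consecutive _ (Nat.zero_le 3) h.le]
    have h2 := abel_bound (fun n => χ (n : ZMod q)) (fun n => Real.log n / n) q (by positivity) 3
      (fun b => char_sum_bound q χ hχ 3 b) (fun n _ => log_div_nonneg n)
      (fun n hn => by
        have hexp : Real.exp 1 ≤ n := by
          have := Real.exp_one_lt_d9
          have h4 : (4 : ℝ) ≤ n := by exact_mod_cast hn
          linarith
        apply Real.log_div_self_antitoneOn
        · exact hexp
        · show Real.exp 1 ≤ ((n + 1 : ℕ) : ℝ)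
          push_cast
          linarith
        · push_cast; linarith) x
    have h3 := hsmall 3 le_rfl
    have h4 : (q : ℝ) * (Real.log ((3 + 1 : ℕ) : ℝ) / ((3 + 1 : ℕ) : ℝ)) ≤ q * 1 :=
      mul_le_mul_of_nonneg_left (log_div_le_one _) hq0
    calc _ ≤ _ := norm_add_le _ _
      _ ≤ 3 + q := by linarith

/-- twisted arithmetic functions -/
noncomputable def twist (q : ℕ) (χ : DirichletCharacter ℂ q) (f : ℕ → ℝ) : ArithmeticFunction ℂ :=
  ⟨fun n => if n = 0 then 0 else χ (n : ZMod q) * ((f n / n : ℝ) : ℂ), by simp⟩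

lemma twist_apply (q : ℕ) (χ : DirichletCharacter ℂ q) (f : ℕ → ℝ) (n : ℕ) :
    twist q χ f n = if n = 0 then 0 else χ (n : ZMod q) * ((f n / n : ℝ) : ℂ) := rfl

lemma twist_mul (q : ℕ) [NeZero q] (χ : DirichletCharacter ℂ q) (n : ℕ) (hn : n ≠ 0) :
    (twist q χ vonMangoldt * twist q χ (fun _ => 1)) n
      = χ (n : ZMod q) * ((Real.log n / n : ℝ) : ℂ) := by
  rw [mul_apply]
  have h1 : ∀ x ∈ n.divisorsAntidiagonal, twist q χ vonMangoldt x.1 * twist q χ (fun _ => 1) x.2
      = χ (n : ZMod q) * ((1 / n : ℝ) : ℂ) * ((vonMangoldt x.1 : ℝ) : ℂ) := by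
    intro x hx
    have h2 := Nat.mem_divisorsAntidiagonal.mp hx
    have hx1 : x.1 ≠ 0 := by rintro h; rw [h, zero_mul] at h2; exact h2.2 h2.1.symm
    have hx2 : x.2 ≠ 0 := by rintro h; rw [h, mul_zero] at h2; exact h2.2 h2.1.symm
    rw [twist_apply, twist_apply, if_neg hx1, if_neg hx2, ← h2.1]
    push_cast
    rw [map_mul]
    have h3 : (x.1 : ℂ) ≠ 0 := by exact_mod_cast hx1
    have h4 : (x.2 : ℂ) ≠ 0 := by exact_mod_cast hx2
    field_simp
  rw [sum_congr rfl h1, ← mul_sum]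
  have h5 : ∑ x ∈ n.divisorsAntidiagonal, ((vonMangoldt x.1 : ℝ) : ℂ) = (Real.log n : ℂ) := by
    rw [← Complex.ofReal_sum, Nat.sum_divisorsAntidiagonal (fun i _ => vonMangoldt i),
      vonMangoldt_sum]
  rw [h5]
  push_cast
  ring

/-- boundedness of the twisted Mertens sum -/
lemma exists_char_mertens (q : ℕ) [NeZero q] (χ : DirichletCharacter ℂ q) (hχ : χ ≠ 1) :
    ∃ C : ℝ, 0 ≤ C ∧ ∀ x : ℕ,
      ‖∑ n ∈ Ioc 0 x, χ (n : ZMod q) * ((vonMangoldt n / n : ℝ) : ℂ)‖ ≤ C := by
  have hL : χ.LFunction 1 ≠ 0 := DirichletCharacter.LFunction_apply_one_ne_zero hχ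
  have hL0 : 0 < ‖χ.LFunction 1‖ := norm_pos_iff.mpr hL
  have hlog4 : 0 ≤ Real.log 4 := Real.log_nonneg (by norm_num)
  refine ⟨(3 + q + q * (Real.log 4 + 4)) / ‖χ.LFunction 1‖, by positivity, ?_⟩
  intro x
  rcases Nat.eq_zero_or_pos x with rfl | hx
  · simp only [Ioc_self, sum_empty, norm_zero]
    positivity
  have hx0 : (0 : ℝ) < x := by exact_mod_cast hx
  rw [le_div_iff₀ hL0, ← norm_mul]
  have h1 := sum_Ioc_mul_eq_sum_sum (twist q χ vonMangoldt) (twist q χ (fun _ => 1)) x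
  have h2 : ∑ n ∈ Ioc 0 x, (twist q χ vonMangoldt * twist q χ (fun _ => 1)) n
      = ∑ n ∈ Ioc 0 x, χ (n : ZMod q) * ((Real.log n / n : ℝ) : ℂ) := by
    apply sum_congr rfl
    intro n hn
    exact twist_mul q χ n (by have := (mem_Ioc.mp hn).1; omega)
  rw [h2] at h1
  have h3 : (∑ n ∈ Ioc 0 x, χ (n : ZMod q) * ((vonMangoldt n / n : ℝ) : ℂ)) * χ.LFunction 1
      = ∑ n ∈ Ioc 0 x, χ (n : ZMod q) * ((Real.log n / n : ℝ) : ℂ)
        + ∑ d ∈ Ioc 0 x, χ (d : ZMod q) * ((vonMangoldt d / d : ℝ) : ℂ)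
          * (χ.LFunction 1 - ∑ n ∈ Ioc 0 (x / d), χ (n : ZMod q) * (((1 / (n : ℝ) : ℝ)) : ℂ)) := by
    rw [h1, sum_mul, ← sum_add_distrib]
    apply sum_congr rfl
    intro d hd
    have hd0 : d ≠ 0 := by have := (mem_Ioc.mp hd).1; omega
    have h4 : ∑ m ∈ Ioc 0 (x / d), twist q χ (fun _ => 1) m
        = ∑ n ∈ Ioc 0 (x / d), χ (n : ZMod q) * (((1 / (n : ℝ) : ℝ)) : ℂ) := by
      apply sum_congr rfl
      intro m hm
      rw [twist_apply, if_neg (by have := (mem_Ioc.mp hm).1; omega)]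
    rw [h4, twist_apply, if_neg hd0]
    ring
  rw [h3]
  have h5 : ‖∑ d ∈ Ioc 0 x, χ (d : ZMod q) * ((vonMangoldt d / d : ℝ) : ℂ)
          * (χ.LFunction 1 - ∑ n ∈ Ioc 0 (x / d), χ (n : ZMod q) * (((1 / (n : ℝ) : ℝ)) : ℂ))‖
      ≤ q * (Real.log 4 + 4) := by
    calc _ ≤ ∑ d ∈ Ioc 0 x, ‖χ (d : ZMod q) * ((vonMangoldt d / d : ℝ) : ℂ)
          * (χ.LFunction 1 - ∑ n ∈ Ioc 0 (x / d), χ (n : ZMod q) * (((1 / (n : ℝ) : ℝ)) : ℂ))‖ :=
          norm_sum_le _ _
      _ ≤ ∑ d ∈ Ioc 0 x, vonMangoldt d * (q / x) := by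
          apply sum_le_sum
          intro d hd
          have hd' := mem_Ioc.mp hd
          have hd0 : (0 : ℝ) < d := by exact_mod_cast hd'.1
          have hv : 0 ≤ vonMangoldt d := vonMangoldt_nonneg
          rw [norm_mul, norm_mul, Complex.norm_real, Real.norm_of_nonneg (by positivity)]
          have h6 := LFunction_one_sub_le q χ hχ (x / d)
          have h7 : (x : ℝ) / d ≤ ((x / d : ℕ) : ℝ) + 1 := by
            have := Nat.lt_floor_add_one ((x : ℝ) / d)
            rw [Nat.floor_div_eq_div] at this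
            exact this.le
          have h8 : 1 / (((x / d : ℕ) : ℝ) + 1) ≤ d / x := by
            rw [div_le_div_iff₀ (by positivity) hx0]
            rw [div_le_iff₀ hd0] at h7
            linarith
          calc ‖χ (d : ZMod q)‖ * (vonMangoldt d / d) * ‖χ.LFunction 1
                - ∑ n ∈ Ioc 0 (x / d), χ (n : ZMod q) * (((1 / (n : ℝ) : ℝ)) : ℂ)‖
              ≤ 1 * (vonMangoldt d / d) * (q * (1 / (((x / d : ℕ) : ℝ) + 1))) := by
                gcongr
                exact χ.norm_le_one _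
            _ ≤ 1 * (vonMangoldt d / d) * (q * (d / x)) := by gcongr
            _ = vonMangoldt d * (q / x) := by field_simp
      _ = (∑ d ∈ Ioc 0 x, vonMangoldt d) * (q / x) := by rw [sum_mul]
      _ ≤ ((Real.log 4 + 4) * x) * (q / x) := by
          apply mul_le_mul_of_nonneg_right _ (by positivity)
          have := Chebyshev.psi_le_const_mul_self (x := (x : ℝ)) hx0.le
          unfold Chebyshev.psi at this
          rwa [Nat.floor_natCast] at this
      _ = q * (Real.log 4 + 4) := by field_simp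
  calc _ ≤ _ := norm_add_le _ _
    _ ≤ (3 + q) + q * (Real.log 4 + 4) := _root_.add_le_add (char_log_bound q χ hχ x) h5

/-- Mertens' theorem in arithmetic progressions, lower bound -/
theorem exists_mertens_ap (q : ℕ) [NeZero q] : ∃ C : ℝ, 0 ≤ C ∧ ∀ a : ℕ, Nat.Coprime a q →
    ∀ y z : ℕ, 1 ≤ y → y ≤ z →
    (Real.log z - Real.log y) / φ q - C
      ≤ ∑ p ∈ (prI y z).filter (fun p => p ≡ a [MOD q]), Real.log p / p := by
  classical
  have hchar : ∀ χ : DirichletCharacter ℂ q, ∃ C : ℝ, 0 ≤ C ∧ (χ ≠ 1 → ∀ x : ℕ,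
      ‖∑ n ∈ Ioc 0 x, χ (n : ZMod q) * ((vonMangoldt n / n : ℝ) : ℂ)‖ ≤ C) := by
    intro χ
    by_cases hχ : χ = 1
    · exact ⟨0, le_rfl, fun h => absurd hχ h⟩
    · obtain ⟨C, hC, h⟩ := exists_char_mertens q χ hχ
      exact ⟨C, hC, fun _ => h⟩
  choose Cχ hCχ0 hCχ using hchar
  obtain ⟨C1, hC10, hC1⟩ := MC.exists_nonprime_bound
  obtain ⟨C2, hC20, hC2⟩ := exists_mertens
  have hφ : (0 : ℝ) < φ q := by
    exact_mod_cast Nat.totient_pos.mpr (Nat.pos_of_ne_zero (NeZero.ne q))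
  set C3 : ℝ := ∑ p ∈ q.primeFactors, Real.log p / p with hC3
  have hC30 : 0 ≤ C3 := sum_nonneg fun p _ => log_div_nonneg p
  set C4 : ℝ := ∑ χ : DirichletCharacter ℂ q, 2 * Cχ χ with hC4
  have hC40 : 0 ≤ C4 := sum_nonneg fun χ _ => by have := hCχ0 χ; positivity
  refine ⟨C1 + (C2 + C3 + C4) / φ q, by positivity, ?_⟩
  intro a ha y z hy hyz
  have hunit : IsUnit (a : ZMod q) := (ZMod.isUnit_iff_coprime a q).mpr ha
  -- sum of Λ over the class
  have h1 : (((∑ n ∈ Ioc y z, vonMangoldt.residueClass (a : ZMod q) n / n : ℝ)) : ℂ)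
      = (φ q : ℂ)⁻¹ * ∑ χ : DirichletCharacter ℂ q, χ (a : ZMod q)⁻¹ *
        ∑ n ∈ Ioc y z, χ (n : ZMod q) * ((vonMangoldt n / n : ℝ) : ℂ) := by
    push_cast
    have h2 : ∀ n ∈ Ioc y z, ((vonMangoldt.residueClass (a : ZMod q) n : ℝ) : ℂ) / (n : ℂ)
        = (φ q : ℂ)⁻¹ * ∑ χ : DirichletCharacter ℂ q,
          χ (a : ZMod q)⁻¹ * (χ (n : ZMod q) * ((vonMangoldt n : ℂ) / (n : ℂ))) := by
      intro n _
      rw [vonMangoldt.residueClass_apply hunit n, mul_div_assoc, sum_div]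
      congr 1
      apply sum_congr rfl
      intro χ _
      ring
    rw [sum_congr rfl h2, ← mul_sum, sum_comm]
    congr 1
    apply sum_congr rfl
    intro χ _
    rw [mul_sum]
  -- principal character
  have hprinc : (Real.log z - Real.log y) - C2 - C3
      ≤ (∑ n ∈ Ioc y z, (1 : DirichletCharacter ℂ q) (n : ZMod q)
        * ((vonMangoldt n / n : ℝ) : ℂ)).re := by
    have e1 : ∑ n ∈ Ioc y z, (1 : DirichletCharacter ℂ q) (n : ZMod q)
        * ((vonMangoldt n / n : ℝ) : ℂ)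
        = ((∑ n ∈ (Ioc y z).filter (fun n => Nat.Coprime n q), vonMangoldt n / n : ℝ) : ℂ) := by
      rw [sum_filter]
      push_cast
      apply sum_congr rfl
      intro n _
      by_cases hn : Nat.Coprime n q
      · rw [if_pos hn, MulChar.one_apply ((ZMod.isUnit_iff_coprime n q).mpr hn), one_mul]
        push_cast
        rfl
      · rw [if_neg hn, MulChar.map_nonunit _ (fun h => hn ((ZMod.isUnit_iff_coprime n q).mp h)),
          zero_mul]
        simp
    rw [e1, Complex.ofReal_re]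
    have h3 := (abs_le.mp (hC2 y z hy hyz)).1
    have h4 : ∑ p ∈ prI y z, Real.log p / p
        ≤ ∑ n ∈ (Ioc y z).filter (fun n => Nat.Coprime n q), vonMangoldt n / n + C3 := by
      rw [← sum_filter_add_sum_filter_not (prI y z) (fun p => Nat.Coprime p q)]
      apply _root_.add_le_add
      · have e2 : ∀ p ∈ (prI y z).filter (fun p => Nat.Coprime p q),
            Real.log p / p = vonMangoldt p / p := by
          intro p hp
          rw [vonMangoldt_apply_prime (mem_prI.mp (mem_filter.mp hp).1).2]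
        rw [sum_congr rfl e2]
        apply sum_le_sum_of_subset_of_nonneg
        · intro p hp
          have h5 := mem_filter.mp hp
          have h6 := mem_prI.mp h5.1
          exact mem_filter.mpr ⟨mem_Ioc.mpr h6.1, h5.2⟩
        · intro n _ _
          have : 0 ≤ vonMangoldt n := vonMangoldt_nonneg
          positivity
      · apply sum_le_sum_of_subset_of_nonneg
        · intro p hp
          have h5 := mem_filter.mp hp
          have h6 := mem_prI.mp h5.1
          have h7 : p ∣ q := by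
            by_contra hnd
            exact h5.2 ((Nat.Prime.coprime_iff_not_dvd h6.2).mpr hnd)
          exact Nat.mem_primeFactors.mpr ⟨h6.2, h7, NeZero.ne q⟩
        · intro p _ _; exact log_div_nonneg p
    linarith
  -- the other characters
  have hdiff : ∀ χ : DirichletCharacter ℂ q, χ ≠ 1 →
      ‖∑ n ∈ Ioc y z, χ (n : ZMod q) * ((vonMangoldt n / n : ℝ) : ℂ)‖ ≤ 2 * Cχ χ := by
    intro χ hχ
    have h5 : ∑ n ∈ Ioc y z, χ (n : ZMod q) * ((vonMangoldt n / n : ℝ) : ℂ)
        = ∑ n ∈ Ioc 0 z, χ (n : ZMod q) * ((vonMangoldt n / n : ℝ) : ℂ)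
          - ∑ n ∈ Ioc 0 y, χ (n : ZMod q) * ((vonMangoldt n / n : ℝ) : ℂ) := by
      rw [← sum_Ioc_consecutive _ (Nat.zero_le y) hyz, add_sub_cancel_left]
    rw [h5]
    have h6 := hCχ χ hχ z
    have h7 := hCχ χ hχ y
    calc _ ≤ _ := norm_sub_le _ _
      _ ≤ 2 * Cχ χ := by linarith
  have h2 : (Real.log z - Real.log y - C2 - C3 - C4) / φ q
      ≤ ∑ n ∈ Ioc y z, vonMangoldt.residueClass (a : ZMod q) n / n := by
    have h3 := congrArg Complex.re h1
    rw [Complex.ofReal_re] at h3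
    rw [h3, ← add_sum_erase univ _ (mem_univ (1 : DirichletCharacter ℂ q))]
    have h4 : (φ q : ℂ)⁻¹ = (((φ q : ℝ)⁻¹ : ℝ) : ℂ) := by push_cast; rfl
    rw [h4, Complex.re_ofReal_mul, Complex.add_re, div_eq_inv_mul]
    apply mul_le_mul_of_nonneg_left _ (by positivity)
    have h5 : (1 : DirichletCharacter ℂ q) (a : ZMod q)⁻¹ = 1 := by
      apply MulChar.one_apply
      obtain ⟨v, hv⟩ := hunit
      rw [← hv, ZMod.inv_coe_unit]
      exact Units.isUnit _
    rw [h5, one_mul]
    have h6 : -C4 ≤ (∑ χ ∈ univ.erase (1 : DirichletCharacter ℂ q), χ (a : ZMod q)⁻¹ *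
        ∑ n ∈ Ioc y z, χ (n : ZMod q) * ((vonMangoldt n / n : ℝ) : ℂ)).re := by
      have h7 : ‖∑ χ ∈ univ.erase (1 : DirichletCharacter ℂ q), χ (a : ZMod q)⁻¹ *
        ∑ n ∈ Ioc y z, χ (n : ZMod q) * ((vonMangoldt n / n : ℝ) : ℂ)‖ ≤ C4 := by
        calc _ ≤ ∑ χ ∈ univ.erase (1 : DirichletCharacter ℂ q), ‖χ (a : ZMod q)⁻¹ *
              ∑ n ∈ Ioc y z, χ (n : ZMod q) * ((vonMangoldt n / n : ℝ) : ℂ)‖ := norm_sum_le _ _
          _ ≤ ∑ χ ∈ univ.erase (1 : DirichletCharacter ℂ q), 2 * Cχ χ := by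
              apply sum_le_sum
              intro χ hχ
              rw [norm_mul]
              calc ‖χ (a : ZMod q)⁻¹‖ * ‖∑ n ∈ Ioc y z, χ (n : ZMod q)
                    * ((vonMangoldt n / n : ℝ) : ℂ)‖
                  ≤ 1 * (2 * Cχ χ) := by
                    apply mul_le_mul (χ.norm_le_one _) (hdiff χ (ne_of_mem_erase hχ))
                      (norm_nonneg _) zero_le_one
                _ = _ := one_mul _
          _ ≤ C4 := by
              apply sum_le_sum_of_subset_of_nonneg (erase_subset _ _)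
              intro χ _ _
              have := hCχ0 χ
              positivity
      have h8 := Complex.abs_re_le_norm (∑ χ ∈ univ.erase (1 : DirichletCharacter ℂ q),
        χ (a : ZMod q)⁻¹ * ∑ n ∈ Ioc y z, χ (n : ZMod q) * ((vonMangoldt n / n : ℝ) : ℂ))
      have h9 := (abs_le.mp h8).1
      linarith
    linarith
  -- remove the prime powers
  have h3 : ∑ n ∈ Ioc y z, vonMangoldt.residueClass (a : ZMod q) n / n
      ≤ ∑ p ∈ (prI y z).filter (fun p => p ≡ a [MOD q]), Real.log p / p + C1 := by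
    rw [← sum_filter_add_sum_filter_not (Ioc y z) Nat.Prime]
    apply _root_.add_le_add
    · have e1 : ∑ n ∈ (Ioc y z).filter Nat.Prime, vonMangoldt.residueClass (a : ZMod q) n / n
          = ∑ p ∈ (prI y z).filter (fun p => p ≡ a [MOD q]), Real.log p / p := by
        rw [sum_filter (s := prI y z)]
        unfold prI
        apply sum_congr rfl
        intro n hn
        have hnp := (mem_filter.mp hn).2
        by_cases hc : n ≡ a [MOD q]
        · unfold vonMangoldt.residueClass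
          rw [if_pos hc, Set.indicator_of_mem, vonMangoldt_apply_prime hnp]
          exact (ZMod.natCast_eq_natCast_iff n a q).mpr hc
        · unfold vonMangoldt.residueClass
          rw [if_neg hc, Set.indicator_of_notMem, zero_div]
          intro h
          exact hc ((ZMod.natCast_eq_natCast_iff n a q).mp h)
      exact e1.le
    · calc ∑ n ∈ (Ioc y z).filter (fun n => ¬ n.Prime),
            vonMangoldt.residueClass (a : ZMod q) n / n
          ≤ ∑ n ∈ (Ioc y z).filter (fun n => ¬ n.Prime), vonMangoldt n / n := by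
            apply sum_le_sum
            intro n _
            exact div_le_div_of_nonneg_right (vonMangoldt.residueClass_le _ n) (by positivity)
        _ ≤ ∑ n ∈ (Ioc 0 z).filter (fun n => ¬ n.Prime), vonMangoldt n / n := by
            apply sum_le_sum_of_subset_of_nonneg
            · apply filter_subset_filter
              intro n hn
              have := mem_Ioc.mp hn
              exact mem_Ioc.mpr ⟨by omega, this.2⟩
            · intro n _ _
              have : 0 ≤ vonMangoldt n := vonMangoldt_nonneg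
              positivity
        _ ≤ C1 := hC1 z
  have h4 : (Real.log z - Real.log y) / φ q - (C1 + (C2 + C3 + C4) / φ q)
      = (Real.log z - Real.log y - C2 - C3 - C4) / φ q - C1 := by
    ring
  linarith

end Pool.Agent.Lib.MP_bae66e_nt.AP3
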