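import Pool.Agent.Lib.MP_bae66e_nt.Mg.G079

/-!
# First and second moments
-/

set_option autoImplicit false

namespace Pool.Agent.Lib.MP_bae66e_nt.AP3

open Finset

open Classical in
/-- the weight at `m - p` -/
noncomputable def fp (T : ℕ) (𝒟 : Finset ℕ) (w : ℕ → ℝ) (p m : ℕ) : ℝ :=
  if Rough T (m - p) then ∑ D ∈ 𝒟, w D * (if D ∣ m - p then 1 else 0) else 0

/-- the weighted count of representations -/
noncomputable def Sm (T : ℕ) (𝒟 : Finset ℕ) (w : ℕ → ℝ) (P : Finset ℕ) (m : ℕ) : ℝ :=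
  ∑ p ∈ P, fp T 𝒟 w p m

/-- the integers of the class -/
def Mset (A B W β : ℕ) : Finset ℕ := (Ioc A B).filter (fun m => m ≡ β [MOD W])

/-- the common hypotheses -/
structure Setup (T u W β A B : ℕ) (P : Finset ℕ) (η R : ℝ) : Prop where
  hu3 : 3 ≤ u
  hu : u ≤ T
  hW : W = prm u
  hAB : A ≤ B
  hPA : ∀ p ∈ P, p ≤ A
  hPT : ∀ p ∈ P, p < T
  hgood : ∀ p ∈ P, ∀ ℓ ∈ prI 0 u, ¬ β ≡ p [MOD ℓ]
  hη0 : 0 ≤ η
  hη1 : η ≤ 1
  hR : 0 ≤ R
  hfl : ∀ (Om : ℕ → Finset ℕ), (∀ ℓ, xb Om ℓ ≤ 1 / 2) →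
      (∀ ℓ, #(Om ℓ) ≤ 2) → ∀ R' : Finset ℕ, (∀ ℓ ∈ R', ℓ.Prime ∧ ℓ ≤ T) →
      (∀ ℓ ∈ R', ∀ c ∈ Om ℓ, c < ℓ) → FLP Om A B R' η R

lemma fp_eq_sum (T : ℕ) (𝒟 : Finset ℕ) (w : ℕ → ℝ) (p m : ℕ) :
    fp T 𝒟 w p m = ∑ D ∈ 𝒟, w D * (@ite ℝ (D ∣ m - p ∧ Rough T (m - p))
      (Classical.propDecidable _) 1 0) := by
  classical
  unfold fp
  by_cases h : Rough T (m - p)
  · rw [if_pos h]
    apply sum_congr rfl
    intro D _
    congr 1
    by_cases h2 : D ∣ m - p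
    · rw [if_pos h2, if_pos ⟨h2, h⟩]
    · rw [if_neg h2, if_neg (fun h3 => h2 h3.1)]
  · rw [if_neg h]
    symm
    apply sum_eq_zero
    intro D _
    rw [if_neg (fun h3 => h h3.2), mul_zero]

lemma card_set2_eq (T A B W β p p' D D' : ℕ) :
    (#(set2 T A B W β p p' D D') : ℝ) = ∑ m ∈ Mset A B W β,
      (@ite ℝ (D ∣ m - p ∧ Rough T (m - p)) (Classical.propDecidable _) 1 0)
      * (@ite ℝ (D' ∣ m - p' ∧ Rough T (m - p')) (Classical.propDecidable _) 1 0) := by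
  classical
  have h : set2 T A B W β p p' D D' = (Mset A B W β).filter
      (fun m => (D ∣ m - p ∧ Rough T (m - p)) ∧ (D' ∣ m - p' ∧ Rough T (m - p'))) := by
    ext m
    rw [mem_set2, mem_filter, Mset, mem_filter]
    tauto
  rw [h, card_filter]
  push_cast
  apply sum_congr rfl
  intro m _
  by_cases h1 : D ∣ m - p ∧ Rough T (m - p)
  · by_cases h2 : D' ∣ m - p' ∧ Rough T (m - p')
    · rw [if_pos ⟨h1, h2⟩, if_pos h1, if_pos h2, mul_one]
    · rw [if_neg (fun h3 => h2 h3.2), if_neg h2, mul_zero]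
  · rw [if_neg (fun h3 => h1 h3.1), if_neg h1, zero_mul]

lemma sum_fp_mul (T A B W β p p' : ℕ) (𝒟 : Finset ℕ) (w : ℕ → ℝ) :
    ∑ m ∈ Mset A B W β, fp T 𝒟 w p m * fp T 𝒟 w p' m
      = ∑ D ∈ 𝒟, ∑ D' ∈ 𝒟, w D * w D' * (#(set2 T A B W β p p' D D') : ℝ) := by
  simp_rw [fp_eq_sum, sum_mul_sum, card_set2_eq, mul_sum]
  rw [sum_comm]
  apply sum_congr rfl
  intro D _
  rw [sum_comm]
  apply sum_congr rfl
  intro D' _
  apply sum_congr rfl
  intro m _
  ring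

lemma sum_fp (T A B W β p : ℕ) (𝒟 : Finset ℕ) (w : ℕ → ℝ) :
    ∑ m ∈ Mset A B W β, fp T 𝒟 w p m
      = ∑ D ∈ 𝒟, w D * (#(set2 T A B W β p p D 1) : ℝ) := by
  simp_rw [fp_eq_sum, card_set2_eq, mul_sum]
  rw [sum_comm]
  apply sum_congr rfl
  intro D _
  apply sum_congr rfl
  intro m _
  by_cases h : Rough T (m - p)
  · simp [h]
  · simp [h]

section
variable {T u W β A B : ℕ} {P : Finset ℕ} {η R : ℝ}

/-- first moment -/
lemma first_mom (S : Setup T u W β A B P η R) {p : ℕ} (hp : p ∈ P) (𝒟 : Finset ℕ) (w : ℕ → ℝ)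
    (h𝒟 : ∀ D ∈ 𝒟, 0 < D ∧ Rough T D) :
    ((B : ℝ) - A) / W * VV u T * ∑ D ∈ 𝒟, w D * (1 / (D : ℝ))
      - (η * (((B : ℝ) - A) / W * VV u T) * ∑ D ∈ 𝒟, |w D| * (1 / (D : ℝ))
        + R * ∑ D ∈ 𝒟, |w D|) ≤ ∑ m ∈ Mset A B W β, fp T 𝒟 w p m := by
  rw [sum_fp, mul_sum, mul_sum, mul_sum, ← sum_add_distrib, ← sum_sub_distrib]
  apply sum_le_sum
  intro D hD
  have hD' := h𝒟 D hD
  have h := card_set2 S.hu3 S.hu S.hW (S.hPA p hp) (S.hPA p hp) (S.hgood p hp) (S.hgood p hp)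
    hD'.1 one_pos hD'.2 (rough_one T) (Nat.coprime_one_right D) S.hfl
  rw [V2_self] at h
  push_cast at h
  rw [mul_one] at h
  set c : ℝ := (#(set2 T A B W β p p D 1) : ℝ)
  set X : ℝ := ((B : ℝ) - A) / W
  have e1 : X * VV u T * (w D * (1 / (D : ℝ))) = w D * (X / D * VV u T) := by ring
  have e2 : η * (X * VV u T) * (|w D| * (1 / (D : ℝ))) + R * |w D|
      = |w D| * (η * (X / D * VV u T) + R) := by ring
  rw [e1, e2]
  have h2 : |w D * (c - X / D * VV u T)| ≤ |w D| * (η * (X / D * VV u T) + R) := by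
    rw [abs_mul]
    exact mul_le_mul_of_nonneg_left h (abs_nonneg _)
  have h3 := (abs_le.mp h2).1
  linarith

/-- second moment off the diagonal -/
lemma second_mom (S : Setup T u W β A B P η R) {p p' : ℕ} (hp : p ∈ P) (hp' : p' ∈ P)
    (hne : p ≠ p') (𝒟 : Finset ℕ) (w : ℕ → ℝ) (h𝒟 : ∀ D ∈ 𝒟, 0 < D ∧ Rough T D) :
    ∑ m ∈ Mset A B W β, fp T 𝒟 w p m * fp T 𝒟 w p' m
      ≤ ((B : ℝ) - A) / W * V2 u T p p' * ((∑ D ∈ 𝒟, w D * (1 / (D : ℝ))) ^ 2
          + ∑ D ∈ 𝒟, ∑ D' ∈ 𝒟, (if Nat.Coprime D D' then 0 else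
              (|w D| * (1 / (D : ℝ))) * (|w D'| * (1 / (D' : ℝ))))
          + η * (∑ D ∈ 𝒟, |w D| * (1 / (D : ℝ))) ^ 2)
        + R * (∑ D ∈ 𝒟, |w D|) ^ 2 := by
  rw [sum_fp_mul]
  have hV := V2_nonneg u T p p' S.hu3
  have hX : 0 ≤ ((B : ℝ) - A) / W := by
    apply div_nonneg _ (by positivity)
    have : (A : ℝ) ≤ B := by exact_mod_cast S.hAB
    linarith
  set X : ℝ := ((B : ℝ) - A) / W
  set V := V2 u T p p'
  have hη := S.hη0
  have hR := S.hR
  rw [pow_two, pow_two, pow_two, sum_mul_sum, sum_mul_sum, sum_mul_sum]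
  have key : ∀ D ∈ 𝒟, ∀ D' ∈ 𝒟, w D * w D' * (#(set2 T A B W β p p' D D') : ℝ)
      ≤ X * V * (w D * (1 / (D : ℝ)) * (w D' * (1 / (D' : ℝ)))
          + (if Nat.Coprime D D' then 0 else
              (|w D| * (1 / (D : ℝ))) * (|w D'| * (1 / (D' : ℝ))))
          + η * (|w D| * (1 / (D : ℝ)) * (|w D'| * (1 / (D' : ℝ)))))
        + R * (|w D| * |w D'|) := by
    intro D hD D' hD'
    have h1 := h𝒟 D hD
    have h2 := h𝒟 D' hD'
    by_cases hcop : Nat.Coprime D D'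
    · rw [if_pos hcop]
      have h := card_set2 S.hu3 S.hu S.hW (S.hPA p hp) (S.hPA p' hp') (S.hgood p hp)
        (S.hgood p' hp') h1.1 h2.1 h1.2 h2.2 hcop S.hfl
      set c : ℝ := (#(set2 T A B W β p p' D D') : ℝ)
      have h3 : |w D * w D' * (c - X / (D * D') * V)|
          ≤ |w D * w D'| * (η * (X / (D * D') * V) + R) := by
        rw [abs_mul]
        exact mul_le_mul_of_nonneg_left h (abs_nonneg _)
      have h4 := (abs_le.mp h3).2
      rw [abs_mul] at h4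
      have e1 : X * V * (w D * (1 / (D : ℝ)) * (w D' * (1 / (D' : ℝ))) + 0
          + η * (|w D| * (1 / (D : ℝ)) * (|w D'| * (1 / (D' : ℝ))))) + R * (|w D| * |w D'|)
          = w D * w D' * (X / (D * D') * V) + |w D| * |w D'| * (η * (X / (D * D') * V) + R) := by
        have hD0 : (D : ℝ) ≠ 0 := by have := h1.1; positivity
        have hD0' : (D' : ℝ) ≠ 0 := by have := h2.1; positivity
        field_simp
        ring
      rw [e1]
      linarith
    · rw [if_neg hcop, set2_empty (S.hPA p hp) (S.hPA p' hp') hne (S.hPT p hp) (S.hPT p' hp')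
        h1.2 hcop, card_empty, Nat.cast_zero, mul_zero]
      have h3 : 0 ≤ w D * (1 / (D : ℝ)) * (w D' * (1 / (D' : ℝ)))
          + (|w D| * (1 / (D : ℝ))) * (|w D'| * (1 / (D' : ℝ))) := by
        have h4 : w D * (1 / (D : ℝ)) * (w D' * (1 / (D' : ℝ)))
          + (|w D| * (1 / (D : ℝ))) * (|w D'| * (1 / (D' : ℝ)))
          = (w D * w D' + |w D * w D'|) * ((1 / (D : ℝ)) * (1 / (D' : ℝ))) := by
          rw [abs_mul]; ring
        rw [h4]
        apply mul_nonneg _ (by positivity)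
        have := neg_abs_le (w D * w D')
        linarith
      have h5 : 0 ≤ η * (|w D| * (1 / (D : ℝ)) * (|w D'| * (1 / (D' : ℝ)))) := by positivity
      have h6 : 0 ≤ R * (|w D| * |w D'|) := by positivity
      have h7 : 0 ≤ X * V := by positivity
      nlinarith [mul_nonneg h7 (add_nonneg h3 h5)]
  refine (sum_le_sum fun D hD => sum_le_sum fun D' hD' => key D hD D' hD').trans ?_
  apply le_of_eq
  simp only [sum_add_distrib, mul_add, mul_sum]

/-- the diagonal -/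
lemma diag_mom (S : Setup T u W β A B P η R) {p : ℕ} (hp : p ∈ P) (𝒟 : Finset ℕ) (w : ℕ → ℝ)
    (CF : ℝ) (hCF : ∀ n : ℕ, 0 < n → n ≤ B → Rough T n →
      |∑ D ∈ 𝒟, w D * (if D ∣ n then 1 else 0)| ≤ CF) :
    ∑ m ∈ Mset A B W β, fp T 𝒟 w p m * fp T 𝒟 w p m
      ≤ CF ^ 2 * (2 * (((B : ℝ) - A) / W * VV u T) + R) := by
  classical
  have h := card_set2 S.hu3 S.hu S.hW (S.hPA p hp) (S.hPA p hp) (S.hgood p hp) (S.hgood p hp)
    one_pos one_pos (rough_one T) (rough_one T) (Nat.coprime_one_right 1) S.hfl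
  rw [V2_self] at h
  push_cast at h
  rw [mul_one, div_one] at h
  have hV : 0 ≤ VV u T := by rw [← V2_self u T p]; exact V2_nonneg u T p p S.hu3
  have hX : 0 ≤ ((B : ℝ) - A) / W := by
    apply div_nonneg _ (by positivity)
    have : (A : ℝ) ≤ B := by exact_mod_cast S.hAB
    linarith
  have h1 := (abs_le.mp h).2
  have h2 : η * (((B : ℝ) - A) / W * VV u T) ≤ 1 * (((B : ℝ) - A) / W * VV u T) :=
    mul_le_mul_of_nonneg_right S.hη1 (by positivity)
  have h3 : (#(set2 T A B W β p p 1 1) : ℝ) ≤ 2 * (((B : ℝ) - A) / W * VV u T) + R := by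
    linarith
  calc ∑ m ∈ Mset A B W β, fp T 𝒟 w p m * fp T 𝒟 w p m
      ≤ ∑ m ∈ Mset A B W β, CF ^ 2 * (if m ∈ set2 T A B W β p p 1 1 then 1 else 0) := by
        apply sum_le_sum
        intro m hm
        unfold Mset at hm
        rw [mem_filter, mem_Ioc] at hm
        by_cases hr : Rough T (m - p)
        · have hmem : m ∈ set2 T A B W β p p 1 1 := by
            rw [mem_set2, mem_Ioc]
            exact ⟨hm.1, hm.2, ⟨one_dvd _, one_dvd _⟩, hr, hr⟩
          rw [if_pos hmem, mul_one]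
          unfold fp
          rw [if_pos hr, ← pow_two, ← sq_abs]
          have hpA := S.hPA p hp
          have := hCF (m - p) (by omega) (by omega) hr
          gcongr
        · unfold fp
          rw [if_neg hr, mul_zero]
          split_ifs
          · positivity
          · simp
    _ = CF ^ 2 * (#(set2 T A B W β p p 1 1) : ℝ) := by
        rw [← mul_sum, sum_ite_mem, sum_const, nsmul_eq_mul, mul_one, inter_eq_right.mpr]
        intro m hm
        rw [mem_set2] at hm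
        unfold Mset
        rw [mem_filter]
        exact ⟨hm.1, hm.2.1⟩
    _ ≤ _ := by
        apply mul_le_mul_of_nonneg_left h3 (sq_nonneg _)

end

end Pool.Agent.Lib.MP_bae66e_nt.AP3
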