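import Pool.Agent.Lib.MP_bae66e_nt.AP3.SecMom

/-!
# The variance and the number of exceptions
-/

set_option autoImplicit false

namespace Pool.Agent.Lib.MP_bae66e_nt.AP3

open Finset

/-- real-variable form of the final step -/
lemma real_final (bad n V M X R B0 B1 Bg Q CF η ρ ε s1 s2 c : ℝ)
    (hbad : 0 ≤ bad) (hn : 0 < n) (hV : 0 < V) (hM : 0 < M) (hX : 0 < X) (hR : 0 ≤ R)
    (hB0 : 0 ≤ B0) (hη : 0 ≤ η) (hρ : 0 ≤ ρ) (hρ1 : ρ ≤ 1) (hε : 0 < ε)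
    (hQ : Q = M ^ 2 + Bg + η * B1 ^ 2) (hMB : M ≤ B1)
    (hcheb : bad * (n * V * M) ^ 2 ≤ s2 - 2 * (n * V * M) * s1 + (n * V * M) ^ 2 * c)
    (hc : c ≤ X + 1)
    (hs1 : n * (X * V * M - (η * (X * V) * B1 + R * B0)) ≤ s1)
    (hs2 : s2 ≤ n * (CF ^ 2 * (2 * (X * V) + R)) + X * (V ^ 2 * n ^ 2 * (1 + ρ)) * Q
      + n ^ 2 * (R * B0 ^ 2))
    (h1 : ρ ≤ ε / 8) (h2 : Bg ≤ ε / 32 * M ^ 2) (h3 : η * B1 ^ 2 ≤ ε / 32 * M ^ 2)
    (h4 : 2 * CF ^ 2 ≤ ε / 16 * (n * V * M ^ 2))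
    (h5 : R * (CF ^ 2 / n + B0 ^ 2 + 2 * B0 * (V * M)) + (V * M) ^ 2 ≤ ε / 8 * X * (V * M) ^ 2) :
    bad ≤ ε * X := by
  have hμ : 0 < n * V * M := by positivity
  have hB1 : 0 < B1 := hM.trans_le hMB
  have h6 : η * B1 * M ≤ ε / 32 * M ^ 2 := by
    calc η * B1 * M ≤ η * B1 * B1 := by gcongr
      _ = η * B1 ^ 2 := by ring
      _ ≤ _ := h3
  -- everything divided by n ^ 2 * V ^ 2
  have hQle : (1 + ρ) * Q ≤ M ^ 2 * (1 + ε / 4) := by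
    have e1 : (1 + ρ) * Q = M ^ 2 + ρ * M ^ 2 + (1 + ρ) * (Bg + η * B1 ^ 2) := by
      rw [hQ]; ring
    have e2 : (1 + ρ) * (Bg + η * B1 ^ 2) ≤ 2 * (ε / 32 * M ^ 2 + ε / 32 * M ^ 2) := by
      have h7 : 0 ≤ ε / 32 * M ^ 2 + ε / 32 * M ^ 2 := by positivity
      calc (1 + ρ) * (Bg + η * B1 ^ 2)
          ≤ (1 + ρ) * (ε / 32 * M ^ 2 + ε / 32 * M ^ 2) := by gcongr
        _ ≤ 2 * (ε / 32 * M ^ 2 + ε / 32 * M ^ 2) := by gcongr; linarith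
    have e3 : ρ * M ^ 2 ≤ ε / 8 * M ^ 2 := by gcongr
    nlinarith
  have key : bad * (n * V * M) ^ 2 ≤ ε / 2 * X * (n * V * M) ^ 2 := by
    have a1 : X * (V ^ 2 * n ^ 2 * (1 + ρ)) * Q ≤ X * (n * V) ^ 2 * (M ^ 2 * (1 + ε / 4)) := by
      calc X * (V ^ 2 * n ^ 2 * (1 + ρ)) * Q = X * (n * V) ^ 2 * ((1 + ρ) * Q) := by ring
        _ ≤ _ := by gcongr
    have a2 : 2 * (n * V * M) * (n * (X * V * M - (η * (X * V) * B1 + R * B0)))
        ≤ 2 * (n * V * M) * s1 := by gcongr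
    have a3 : (n * V * M) ^ 2 * c ≤ (n * V * M) ^ 2 * (X + 1) := by gcongr
    have a4 : 2 * (n * V * M) * (n * (X * V * M - (η * (X * V) * B1 + R * B0)))
        = 2 * X * (n * V * M) ^ 2 - 2 * X * (n * V) ^ 2 * (η * B1 * M)
          - n ^ 2 * (R * (2 * B0 * (V * M))) := by ring
    have a5 : 2 * X * (n * V) ^ 2 * (η * B1 * M) ≤ 2 * X * (n * V) ^ 2 * (ε / 32 * M ^ 2) := by
      gcongr
    have a6 : n * (CF ^ 2 * (2 * (X * V) + R))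
        = X * V * n * (2 * CF ^ 2) + n ^ 2 * (R * (CF ^ 2 / n)) := by
      field_simp
    have a7 : X * V * n * (2 * CF ^ 2) ≤ X * V * n * (ε / 16 * (n * V * M ^ 2)) := by gcongr
    have a8 : n ^ 2 * (R * (CF ^ 2 / n + B0 ^ 2 + 2 * B0 * (V * M)) + (V * M) ^ 2)
        ≤ n ^ 2 * (ε / 8 * X * (V * M) ^ 2) := by gcongr
    have a9 : X * (n * V) ^ 2 * (M ^ 2 * (1 + ε / 4)) = X * (n * V * M) ^ 2
        + ε / 4 * (X * (n * V * M) ^ 2) := by ring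
    have a10 : 2 * X * (n * V) ^ 2 * (ε / 32 * M ^ 2) = ε / 16 * (X * (n * V * M) ^ 2) := by ring
    have a11 : X * V * n * (ε / 16 * (n * V * M ^ 2)) = ε / 16 * (X * (n * V * M) ^ 2) := by ring
    have a12 : n ^ 2 * (ε / 8 * X * (V * M) ^ 2) = ε / 8 * (X * (n * V * M) ^ 2) := by ring
    have a13 : n ^ 2 * (R * (CF ^ 2 / n + B0 ^ 2 + 2 * B0 * (V * M)) + (V * M) ^ 2)
        = n ^ 2 * (R * (CF ^ 2 / n)) + n ^ 2 * (R * B0 ^ 2) + n ^ 2 * (R * (2 * B0 * (V * M)))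
          + (n * V * M) ^ 2 := by ring
    have a14 : (n * V * M) ^ 2 * (X + 1) = X * (n * V * M) ^ 2 + (n * V * M) ^ 2 := by ring
    have a15 : ε / 2 * X * (n * V * M) ^ 2 = ε / 4 * (X * (n * V * M) ^ 2)
        + ε / 16 * (X * (n * V * M) ^ 2) + ε / 16 * (X * (n * V * M) ^ 2)
        + ε / 8 * (X * (n * V * M) ^ 2) := by ring
    linarith
  have h7 := le_of_mul_le_mul_right key (by positivity)
  have : 0 < ε * X := by positivity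
  linarith

section
variable {T u W β A B : ℕ} {P : Finset ℕ} {η R : ℝ}

open Classical in
/-- the number of exceptions in a class -/
theorem card_bad_le (S : Setup T u W β A B P η R) (hW0 : 0 < W) (hABlt : A < B)
    (𝒟 : Finset ℕ) (w : ℕ → ℝ) (h𝒟 : ∀ D ∈ 𝒟, 0 < D ∧ Rough T D) (CF : ℝ)
    (hCF : ∀ n : ℕ, 0 < n → n ≤ B → Rough T n →
      |∑ D ∈ 𝒟, w D * (if D ∣ n then 1 else 0)| ≤ CF)
    (M B0 B1 Bg ρ ε : ℝ) (hM : M = ∑ D ∈ 𝒟, w D * (1 / (D : ℝ))) (hM0 : 0 < M)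
    (hB0 : B0 = ∑ D ∈ 𝒟, |w D|) (hB1 : B1 = ∑ D ∈ 𝒟, |w D| * (1 / (D : ℝ)))
    (hBg : Bg = ∑ D ∈ 𝒟, ∑ D' ∈ 𝒟, (if Nat.Coprime D D' then 0 else
              (|w D| * (1 / (D : ℝ))) * (|w D'| * (1 / (D' : ℝ)))))
    (hP : 0 < #P) (hV : 0 < VV u T) (hρ : 0 ≤ ρ) (hρ1 : ρ ≤ 1) (hε : 0 < ε)
    (hpair : ∑ p ∈ P, ∑ p' ∈ P.erase p, V2 u T p p' ≤ VV u T ^ 2 * (#P : ℝ) ^ 2 * (1 + ρ))
    (h1 : ρ ≤ ε / 8) (h2 : Bg ≤ ε / 32 * M ^ 2) (h3 : η * B1 ^ 2 ≤ ε / 32 * M ^ 2)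
    (h4 : 2 * CF ^ 2 ≤ ε / 16 * (#P * VV u T * M ^ 2))
    (h5 : R * (CF ^ 2 / #P + B0 ^ 2 + 2 * B0 * (VV u T * M)) + (VV u T * M) ^ 2
      ≤ ε / 8 * (((B : ℝ) - A) / W) * (VV u T * M) ^ 2) :
    (#((Mset A B W β).filter (fun m => Sm T 𝒟 w P m ≤ 0)) : ℝ)
      ≤ ε * (((B : ℝ) - A) / W) := by
  have hX : 0 < ((B : ℝ) - A) / W := by
    apply div_pos _ (by exact_mod_cast hW0)
    have : (A : ℝ) < B := by exact_mod_cast hABlt
    linarith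
  set X : ℝ := ((B : ℝ) - A) / W with hXdef
  set V := VV u T with hVdef
  set n : ℝ := (#P : ℝ) with hn
  have hn0 : 0 < n := by rw [hn]; exact_mod_cast hP
  have hη := S.hη0
  have hR := S.hR
  have hB0' : 0 ≤ B0 := by rw [hB0]; exact sum_nonneg fun _ _ => abs_nonneg _
  have hB1' : 0 ≤ B1 := by rw [hB1]; exact sum_nonneg fun _ _ => by positivity
  have hMB : M ≤ B1 := by
    rw [hM, hB1]
    apply sum_le_sum
    intro D _
    exact mul_le_mul_of_nonneg_right (le_abs_self _) (by positivity)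
  have hBg0 : 0 ≤ Bg := by
    rw [hBg]
    apply sum_nonneg
    intro D _
    apply sum_nonneg
    intro D' _
    split_ifs
    · exact le_rfl
    · positivity
  set Mm := Mset A B W β with hMm
  set μ := n * V * M with hμdef
  have hμ : 0 < μ := by positivity
  apply real_final (#(Mm.filter (fun m => Sm T 𝒟 w P m ≤ 0)) : ℝ) n V M X R B0 B1 Bg
    (M ^ 2 + Bg + η * B1 ^ 2) CF η ρ ε (∑ m ∈ Mm, Sm T 𝒟 w P m) (∑ m ∈ Mm, Sm T 𝒟 w P m ^ 2)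
    (#Mm : ℝ) (by positivity) hn0 hV hM0 hX hR hB0' hη hρ hρ1 hε rfl hMB _ _ _ _ h1 h2 h3 h4 h5
  · -- Chebyshev
    have h6 : ∑ m ∈ Mm, (Sm T 𝒟 w P m - μ) ^ 2
        = ∑ m ∈ Mm, Sm T 𝒟 w P m ^ 2 - 2 * μ * ∑ m ∈ Mm, Sm T 𝒟 w P m + μ ^ 2 * #Mm := by
      rw [mul_sum, ← sum_sub_distrib]
      have : μ ^ 2 * (#Mm : ℝ) = ∑ m ∈ Mm, μ ^ 2 := by rw [sum_const, nsmul_eq_mul, mul_comm]
      rw [this, ← sum_add_distrib]
      apply sum_congr rfl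
      intro m _
      ring
    rw [← h6]
    calc (#(Mm.filter (fun m => Sm T 𝒟 w P m ≤ 0)) : ℝ) * μ ^ 2
        = ∑ m ∈ Mm.filter (fun m => Sm T 𝒟 w P m ≤ 0), μ ^ 2 := by rw [sum_const, nsmul_eq_mul]
      _ ≤ ∑ m ∈ Mm.filter (fun m => Sm T 𝒟 w P m ≤ 0), (Sm T 𝒟 w P m - μ) ^ 2 := by
          apply sum_le_sum
          intro m hm
          have := (mem_filter.mp hm).2
          nlinarith
      _ ≤ _ := by
          apply sum_le_sum_of_subset_of_nonneg (filter_subset _ _)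
          intro _ _ _
          positivity
  · -- cardinality
    have h6 := abs_card_ap_sub A B W β S.hAB hW0
    have h7 := (abs_le.mp h6).2
    have h8 : (#Mm : ℝ) = (#{m ∈ Ioc A B | m ≡ β [MOD W]} : ℝ) := rfl
    rw [h8]
    linarith
  · -- first moment
    have h6 : ∑ m ∈ Mm, Sm T 𝒟 w P m = ∑ p ∈ P, ∑ m ∈ Mm, fp T 𝒟 w p m := by
      unfold Sm
      exact sum_comm
    rw [h6]
    have h7 : ∀ p ∈ P, X * V * M - (η * (X * V) * B1 + R * B0) ≤ ∑ m ∈ Mm, fp T 𝒟 w p m := by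
      intro p hp
      have := first_mom S hp 𝒟 w h𝒟
      rw [← hM, ← hB0, ← hB1] at this
      exact this
    calc n * (X * V * M - (η * (X * V) * B1 + R * B0))
        = ∑ p ∈ P, (X * V * M - (η * (X * V) * B1 + R * B0)) := by
          rw [sum_const, nsmul_eq_mul]
      _ ≤ _ := sum_le_sum h7
  · -- second moment
    have h6 : ∑ m ∈ Mm, Sm T 𝒟 w P m ^ 2
        = ∑ p ∈ P, ∑ p' ∈ P, ∑ m ∈ Mm, fp T 𝒟 w p m * fp T 𝒟 w p' m := by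
      unfold Sm
      simp_rw [pow_two, sum_mul_sum]
      rw [sum_comm]
      apply sum_congr rfl
      intro p _
      rw [sum_comm]
    rw [h6]
    have h7 : ∀ p ∈ P, ∑ p' ∈ P, ∑ m ∈ Mm, fp T 𝒟 w p m * fp T 𝒟 w p' m
        ≤ CF ^ 2 * (2 * (X * V) + R) + (X * (∑ p' ∈ P.erase p, V2 u T p p')
          * (M ^ 2 + Bg + η * B1 ^ 2) + n * (R * B0 ^ 2)) := by
      intro p hp
      rw [← add_sum_erase P _ hp]
      apply add_le_add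
      · exact diag_mom S hp 𝒟 w CF hCF
      · have h8 : ∀ p' ∈ P.erase p, ∑ m ∈ Mm, fp T 𝒟 w p m * fp T 𝒟 w p' m
            ≤ X * V2 u T p p' * (M ^ 2 + Bg + η * B1 ^ 2) + R * B0 ^ 2 := by
          intro p' hp'
          have h9 := mem_erase.mp hp'
          have := second_mom S hp h9.2 h9.1.symm 𝒟 w h𝒟
          rw [← hM, ← hB0, ← hB1, ← hBg] at this
          exact this
        refine (sum_le_sum h8).trans ?_
        rw [sum_add_distrib, sum_const, nsmul_eq_mul, ← sum_mul, ← mul_sum]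
        have h10 : (#(P.erase p) : ℝ) ≤ n := by
          rw [hn]; exact_mod_cast card_le_card (erase_subset p P)
        have h11 : (#(P.erase p) : ℝ) * (R * B0 ^ 2) ≤ n * (R * B0 ^ 2) := by gcongr
        linarith
    refine (sum_le_sum h7).trans ?_
    rw [sum_add_distrib, sum_add_distrib, sum_const, sum_const, nsmul_eq_mul, nsmul_eq_mul,
      ← sum_mul, ← mul_sum]
    have hQ0 : 0 ≤ M ^ 2 + Bg + η * B1 ^ 2 := by positivity
    have h8 : X * (∑ p ∈ P, ∑ p' ∈ P.erase p, V2 u T p p') * (M ^ 2 + Bg + η * B1 ^ 2)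
        ≤ X * (V ^ 2 * n ^ 2 * (1 + ρ)) * (M ^ 2 + Bg + η * B1 ^ 2) := by
      gcongr
    have e1 : (#P : ℝ) * (n * (R * B0 ^ 2)) = n ^ 2 * (R * B0 ^ 2) := by rw [← hn]; ring
    rw [e1]
    linarith

end

end Pool.Agent.Lib.MP_bae66e_nt.AP3
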